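import Pool.Agent.H.MP_e9bccb.F

set_option autoImplicit false
open Set Filter Topology TopologicalSpace

namespace Pool.Agent.H.MP_e9bccb

open Pool.Agent.H.MP_eb6644 (Y)

variable {X Γ Z : Type} [TopologicalSpace X] [CompactSpace X] {h : X → Γ → ℝ}

theorem mdl (hc : Continuous h) (hi : Function.Injective h) {φ : X → ℝ} (hφ : Continuous φ) {ε : ℝ}
    (h0 : 0 < ε) : ∃ k : ℕ, ∀ x y, (∀ θ, |h x θ - h y θ| < 1 / ((k : ℝ) + 1)) → |φ x - φ y| < ε := by
  by_contra hn
  push Not at hn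
  obtain ⟨p, p1, p2⟩ := (isClosed_le continuous_const (by fun_prop) :
    IsClosed {p : X × X | ε ≤ |φ p.1 - φ p.2|}).isCompact.inter_iInter_nonempty
    (fun k : ℕ => {p : X × X | ∀ θ, |h p.1 θ - h p.2 θ| ≤ 1 / ((k : ℝ) + 1)}) (fun k => by
      rw [ofPred_forall]
      exact isClosed_iInter fun θ => isClosed_le (by fun_prop) continuous_const) fun u => by
      obtain ⟨x, y, a1, a2⟩ := hn (u.sup id)
      exact ⟨(x, y), a2, mem_iInter₂.2 fun k hk θ => (a1 θ).le.trans (Nat.one_div_le_one_div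
        (Finset.le_sup (f := id) hk))⟩
  have : p.1 = p.2 := hi (funext fun θ => sub_eq_zero.1 (abs_nonpos_iff.1 (not_lt.1 fun e =>
    let ⟨k, hk⟩ := exists_nat_one_div_lt e
    hk.not_ge (mem_iInter.1 p2 k θ))))
  rw [mem_ofPred_eq, this, sub_self, abs_zero] at p1
  exact h0.not_ge p1

noncomputable def tr (m : ℕ) : C(ℝ, ℝ) :=
  ⟨fun s => s - max (-(1 / ((m : ℝ) + 1))) (min s (1 / ((m : ℝ) + 1))), by fun_prop⟩

theorem tr1 {m : ℕ} {s : ℝ} (e : |s| < 1 / ((m : ℝ) + 1)) : tr m s = 0 := by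
  rw [abs_lt] at e
  simp only [tr, ContinuousMap.coe_mk, min_eq_left e.2.le, max_eq_right e.1.le, sub_self]

theorem tr2 {s t : ℝ} (e : ∀ m, tr m s = tr m t) : s = t := by
  refine sub_eq_zero.1 (abs_nonpos_iff.1 (not_lt.1 fun k => ?_))
  obtain ⟨m, hm⟩ := exists_nat_one_div_lt (half_pos k)
  have e := e m
  have : (0 : ℝ) < 1 / ((m : ℝ) + 1) := Nat.one_div_pos_of_nat
  simp only [tr, ContinuousMap.coe_mk] at e
  generalize 1 / ((m : ℝ) + 1) = d at *
  rcases abs_cases (s - t) with a | a <;> rcases max_cases (-d) (min s d) with b | b <;>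
    rcases max_cases (-d) (min t d) with c | c <;> rcases min_cases s d with b' | b' <;>
    rcases min_cases t d with c' | c' <;> linarith [a.1, b.1, c.1, b'.1, c'.1, b.2, c.2, b'.2, c'.2]

variable [TopologicalSpace Z] [T2Space Z] {π : X → Z}

theorem brw (hc : Continuous h) (hi : Function.Injective h)
    (hs : ∀ x, ∀ ε : ℝ, 0 < ε → {γ | ε ≤ |h x γ|}.Finite) (hπ : Continuous π)
    (hp : Function.Surjective π) : Eb Z := by
  classical
  have : CompactSpace Z := ⟨hp.range_eq ▸ isCompact_range hπ⟩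
  obtain ⟨F, R, ρ, F1, hR⟩ := str2 hc hi (Skc (J := {univ}) (fun _ => ⟨_, rfl, trivial⟩)
    ⟨fun _ => univ, fun _ _ _ => ⟨0, trivial, fun p _ h0 => by simpa using hs _ _ h0⟩⟩) hπ hp
  obtain ⟨G, G1, G2⟩ := ind2 F1 (fun T => ∃ G : List ℕ → Set C(Z, ℝ),
    (∀ l z, {g ∈ G l | g z ≠ 0}.Finite) ∧ Sp (⋃ l, G l) (π '' Y h T)) (fun T hT => by
      obtain ⟨G, G1, G2⟩ := base hc hi hπ hT
      obtain ⟨g, hg⟩ := (G1.insert 0).exists_eq_range (insert_nonempty _ _)
      refine ⟨fun l => {g l.length}, fun l z => (finite_singleton _).subset fun _ e => e.1,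
        spm G2 (fun f hf => ?_) le_rfl⟩
      obtain ⟨n, rfl⟩ : f ∈ range g := hg ▸ mem_insert_of_mem _ hf
      exact mem_iUnion.2 ⟨List.replicate n 0, by simp⟩) (fun W _ _ _ T m c P => by
      choose G G1 G2 using P
      have mm : ∀ a, ⋃ b ∈ Iio a, T b ⊆ T a := fun a => iUnion₂_subset fun b hb => m (le_of_lt hb)
      obtain ⟨a0, -, h0⟩ := (wellFounded_lt (α := W)).has_min univ univ_nonempty
      let u : ℕ → (a : W) → (Iio a).Nonempty → C(Z, ℝ) → C(Z, ℝ) := fun j a e g =>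
        (tr j).comp (g.comp (ρ _ (c a)) - g.comp (ρ _ (ClU m c e)))
      let M : ℕ → ℕ → C(Z, ℝ) → Prop := fun j k g => ∀ x y,
        (∀ θ, |h x θ - h y θ| < 1 / ((k : ℝ) + 1)) → |g (π x) - g (π y)| < 1 / ((j : ℝ) + 1)
      refine ⟨fun l => (fun g => g.comp (ρ _ (c a0))) '' G a0 l ∪ ⋃ a, ⋃ e,
        u (l.getD 0 0) a e '' {g ∈ G a (l.drop 2) | M (l.getD 0 0) (l.getD 1 0) g},
          fun l => hp.forall.2 fun x => ?_, ?_⟩
      · refine (((G1 a0 l (ρ _ (c a0) (π x))).image fun g => g.comp (ρ _ (c a0))).union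
          ((hs x _ (Nat.one_div_pos_of_nat (n := l.getD 1 0))).biUnion (t := fun θ =>
            ⋃ a ∈ {a | θ ∈ T a ∧ θ ∉ ⋃ c ∈ Iio a, T c}, ⋃ e, u (l.getD 0 0) a e ''
              ({g ∈ G a (l.drop 2) | g (ρ _ (c a) (π x)) ≠ 0} ∪
                {g ∈ G a (l.drop 2) | g (ρ _ (ClU m c e) (π x)) ≠ 0})) fun θ _ =>
          (Subsingleton.finite fun a ha b hb => lev ha.1 ha.2 hb.1 hb.2).biUnion fun a _ =>
            finite_iUnion fun e => ((G1 _ _ _).union (G1 _ _ _)).image _)).subset ?_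
        rintro _ ⟨⟨g, g1, rfl⟩ | hg, k⟩
        · exact Or.inl ⟨g, ⟨g1, k⟩, rfl⟩
        obtain ⟨a, e, g, ⟨g1, g2⟩, rfl⟩ := mem_iUnion₂.1 hg
        have k' : ¬ |g (ρ _ (c a) (π x)) - g (ρ _ (ClU m c e) (π x))| < _ := fun e => k (tr1 e)
        obtain ⟨θ, hθ⟩ := not_forall.1 fun e' => k' (by
          rw [(hR _ _).2, (hR _ _).2]
          exact g2 _ _ e')
        obtain ⟨a1, a2, a3⟩ := dif (mm a) ((hR _ (c a)).1 x) ((hR _ (ClU m c e)).1 x) (θ := θ)
          fun e => hθ (by rw [e, sub_self, abs_zero]; positivity)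
        refine Or.inr (mem_iUnion₂.2 ⟨θ, (not_lt.1 hθ).trans_eq (congrArg _ a3), mem_iUnion₂.2 ⟨a, ⟨a1, a2⟩,
          mem_iUnion.2 ⟨e, g, ?_, rfl⟩⟩⟩)
        by_contra hn
        simp only [mem_union, mem_ofPred_eq, not_or, not_and, not_not] at hn
        exact k' (by rw [hn.1 g1, hn.2 g1, sub_self, abs_zero]; positivity)
      · rintro _ ⟨x, hx, rfl⟩ _ ⟨y, hy, rfl⟩ k
        have k1 : ∀ a, π (R (T a) x) = π (R (T a) y) := fun a => by
          induction a using WellFoundedLT.induction with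
          | ind a ih =>
            refine G2 a _ ⟨_, RY ((hR _ (c a)).1 x), rfl⟩ _ ⟨_, RY ((hR _ (c a)).1 y), rfl⟩
              fun g hg => ?_
            obtain ⟨l, hl⟩ := mem_iUnion.1 hg
            rw [← (hR _ (c a)).2, ← (hR _ (c a)).2]
            by_cases e : (Iio a).Nonempty
            · have e2 := lim hc hi hπ m e (fun a => (hR _ (c a)).1 x) (fun a => (hR _ (c a)).1 y)
                ((hR _ (ClU m c e)).1 x) ((hR _ (ClU m c e)).1 y) ih
              rw [← (hR _ (ClU m c e)).2, ← (hR _ (ClU m c e)).2] at e2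
              refine sub_left_injective (b := g (ρ _ (ClU m c e) (π x))) (tr2 fun j => ?_)
              obtain ⟨i, hi⟩ := mdl hc hi (g.continuous.comp hπ) (Nat.one_div_pos_of_nat (n := j))
              have := k (u j a e g) (mem_iUnion.2 ⟨j :: i :: l, Or.inr (mem_iUnion₂.2
                ⟨a, e, g, ⟨hl, hi⟩, rfl⟩)⟩)
              exact this.trans (congrArg (fun z => tr j (g (ρ _ (c a) (π y)) - g z)) e2.symm)
            · obtain rfl : a = a0 :=
                le_antisymm (not_lt.1 fun h => e ⟨_, h⟩) (not_lt.1 (h0 a trivial))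
              exact k _ (mem_iUnion.2 ⟨l, Or.inl ⟨g, hl, rfl⟩⟩)
        have e := ClU m c univ_nonempty
        rw [← biUnion_univ] at hx hy
        rw [← RI hi ((hR _ e).1 x) hx, ← RI hi ((hR _ e).1 y) hy]
        exact lim hc hi hπ m univ_nonempty (fun a => (hR _ (c a)).1 x) (fun a => (hR _ (c a)).1 y)
          ((hR _ e).1 x) ((hR _ e).1 y) fun b _ => k1 b) univ fun _ _ => subset_univ _
  have e : ∀ z, z ∈ π '' Y h univ := hp.forall.2 fun x => ⟨x, fun θ hθ => absurd trivial hθ, rfl⟩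
  refine skE (f := fun z (g : ⋃ l, G l) => sg (g.1 z)) (by fun_prop) (fun x y k => G2 x (e x) y (e y)
    fun g hg => sg3 (congrFun k ⟨g, hg⟩)) (fun _ _ => sg1 _) (Skm (fun l => {g | g.1 ∈ G l})
      fun P _ g => (mem_iUnion.1 g.2).imp fun l hl => ⟨hl, fun p _ h0 => ((G1 l p.1).preimage
        Subtype.val_injective.injOn).subset fun g hg => And.intro hg.1 fun e => ?_⟩)
  have := hg.2.trans (sg2 _)
  rw [e, abs_zero] at this
  exact h0.not_ge this

end Pool.Agent.H.MP_e9bccb
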