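import Pool.Agent.H.MP_eb6644.A

set_option autoImplicit false
open Set Filter Topology TopologicalSpace
open scoped Cardinal

namespace Pool.Agent.H.MP_e9bccb

open Pool.Agent.H.MP_526336 (dcnt)

theorem cU {Z ι : Type} {c : Cardinal} (hc : ℵ₀ ≤ c) (hι : #ι ≤ c) {f : ι → Set Z}
    (hf : ∀ i, #(f i) ≤ c) : #(⋃ i, f i) ≤ c :=
  Cardinal.mk_iUnion_le_sum_mk.trans ((Cardinal.sum_le_sum _ (fun _ => c) hf).trans
    (by rw [Cardinal.sum_const']; exact Cardinal.mul_le_of_le hc hι le_rfl))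

theorem cB {Z ι : Type} {c : Cardinal} (hc : ℵ₀ ≤ c) {s : Set ι} (hι : #s ≤ c) {f : ι → Set Z}
    (hf : ∀ i ∈ s, #(f i) ≤ c) : #(⋃ i ∈ s, f i) ≤ c := by
  rw [biUnion_eq_iUnion]
  exact cU hc hι fun i => hf i i.2

theorem c2 {Z : Type} {c : Cardinal} (hc : ℵ₀ ≤ c) {s t : Set Z} (hs : #s ≤ c) (ht : #t ≤ c) :
    #(s ∪ t : Set Z) ≤ c := (Cardinal.mk_union_le _ _).trans (Cardinal.add_le_of_le hc hs ht)

theorem cC {Z : Type} {c : Cardinal} (hc : ℵ₀ ≤ c) {s : Set Z} (hs : s.Countable) : #s ≤ c :=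
  (Cardinal.le_aleph0_iff_set_countable.2 hs).trans hc

def Ls {Γ : Type} (T : Set Γ) : Set (List Γ) := {l | ∀ γ ∈ l, γ ∈ T}

theorem cL {Γ : Type} {c : Cardinal} (hc : ℵ₀ ≤ c) {T : Set Γ} (hT : #T ≤ c) : #(Ls T) ≤ c := by
  refine (Cardinal.mk_le_mk_of_subset (t := range (List.map ((↑) : T → Γ))) fun l hl => ?_).trans
    (Cardinal.mk_range_le.trans ((Cardinal.mk_list_le_max _).trans (max_le hc hT)))
  exact ⟨l.attachWith _ hl, by simp⟩

theorem Lm {Γ : Type} {S T : Set Γ} (h : S ⊆ T) : Ls S ⊆ Ls T := fun _ hl γ hγ => h (hl γ hγ)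

theorem LU {Γ W : Type} [LinearOrder W] {G : W → Set Γ} (hG : Monotone G) {I : Set W}
    (hI : I.Nonempty) {l : List Γ} (hl : l ∈ Ls (⋃ a ∈ I, G a)) : ∃ a ∈ I, l ∈ Ls (G a) := by
  induction l with
  | nil => exact hI.imp fun a ha => ⟨ha, by simp [Ls]⟩
  | cons γ l ih =>
    obtain ⟨a, a1, a2⟩ := ih fun θ hθ => hl θ (List.mem_cons_of_mem _ hθ)
    obtain ⟨b, b1, b2⟩ := mem_iUnion₂.1 (hl γ List.mem_cons_self)
    refine ⟨max a b, (max_choice a b).elim (·.symm ▸ a1) (·.symm ▸ b1), fun θ hθ => ?_⟩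
    rcases List.mem_cons.1 hθ with rfl | e
    · exact hG (le_max_right a b) b2
    · exact hG (le_max_left a b) (a2 θ e)

def Cl {Γ : Type} (F : List Γ → Set Γ) (T : Set Γ) : Prop := ∀ l ∈ Ls T, F l ⊆ T

theorem fcl {Γ : Type} {F : List Γ → Set Γ} (hF : ∀ l, (F l).Countable) :
    ∃ cl : Set Γ → Set Γ, (∀ T, T ⊆ cl T) ∧ (∀ T, Cl F (cl T)) ∧
      (∀ S T, S ⊆ T → Cl F T → cl S ⊆ T) ∧ ∀ (T : Set Γ) c, ℵ₀ ≤ c → #T ≤ c → #(cl T) ≤ c := by
  refine ⟨fun S => ⋂₀ {T | S ⊆ T ∧ Cl F T}, fun S => subset_sInter fun T h => h.1,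
    fun S l hl => subset_sInter fun T h => h.2 l (Lm (sInter_subset_of_mem h) hl),
    fun S T h1 h2 => sInter_subset_of_mem ⟨h1, h2⟩, fun S c hc hS => ?_⟩
  let u : ℕ → Set Γ := fun n => (fun T => T ∪ ⋃ l ∈ Ls T, F l)^[n] S
  have u1 : ∀ n, u (n + 1) = u n ∪ ⋃ l ∈ Ls (u n), F l := fun n =>
    Function.iterate_succ_apply' _ _ _
  have u2 : ∀ n, #(u n) ≤ c := fun n => by
    induction n with
    | zero => exact hS
    | succ n ih => rw [u1]; exact c2 hc ih (cB hc (cL hc ih) fun l _ => cC hc (hF l))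
  refine (Cardinal.mk_le_mk_of_subset (sInter_subset_of_mem (S := {T | S ⊆ T ∧ Cl F T})
    (t := ⋃ n ∈ (univ : Set ℕ), u n)
    (And.intro (subset_biUnion_of_mem (u := u) (mem_univ 0)) fun l hl => ?_))).trans
    (cB hc (cC hc countable_univ) fun n _ => u2 n)
  obtain ⟨n, -, hn⟩ := LU (monotone_nat_of_le_succ fun n => u1 n ▸ subset_union_left)
    univ_nonempty hl
  refine Subset.trans ?_ (subset_biUnion_of_mem (u := u) (mem_univ (n + 1)))
  rw [u1]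
  exact (subset_biUnion_of_mem (u := F) hn).trans subset_union_right

variable {X Γ : Type} [TopologicalSpace X] [CompactSpace X] {h : X → Γ → ℝ}

theorem apx (hc : Continuous h) (A : Set X) : ∃ D : List Γ → Set X, (∀ l, D l ⊆ A) ∧
    (∀ l, (D l).Countable) ∧ ∀ T : Set Γ, ∀ p ∈ closure A,
      ∃ q ∈ closure (⋃ l ∈ Ls T, D l), ∀ θ ∈ T, h q θ = h p θ := by
  have den : ∀ l : List Γ, ∃ D ⊆ A, D.Countable ∧ ∀ p ∈ closure A, {θ | θ ∈ l}.domRestrict (h p) ∈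
      closure ((fun q => {θ | θ ∈ l}.domRestrict (h q)) '' D) := by
    intro l
    have := (List.finite_toSet l).to_subtype
    obtain ⟨t, h1, h2, h3⟩ := (IsSeparable.of_separableSpace
      ((fun q => {θ | θ ∈ l}.domRestrict (h q)) '' A)).exists_countable_dense_subset
    choose g hg1 hg2 using h1
    have := h2.to_subtype
    refine ⟨range fun y : t => g y.2, ?_, countable_range _, fun p hp => ?_⟩
    · rintro _ ⟨y, rfl⟩; exact hg1 y.2
    · have h4 := mem_closure_image (f := fun q => {θ | θ ∈ l}.domRestrict (h q))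
        ((Pi.continuous_domRestrict _).comp hc).continuousAt hp
      refine closure_mono (s := t) (fun y hy => mem_image_of_mem _ (mem_range_self
        (f := fun y : t => g y.2) ⟨y, hy⟩) |> (hg2 hy ▸ ·)) ?_
      exact closure_minimal h3 isClosed_closure h4
  choose D D1 D2 D3 using den
  refine ⟨D, D1, D2, fun T p hp => ?_⟩
  by_contra hn
  obtain ⟨u, hu⟩ := (isClosed_closure (s := ⋃ l ∈ Ls T, D l)).isCompact.elim_finite_subfamily_closed
    (fun θ : T => {q | h q θ = h p θ}) (fun θ => isClosed_eq (by fun_prop) continuous_const)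
    (eq_empty_of_forall_notMem fun q hq => hn ⟨q, hq.1, fun θ hθ => mem_iInter.1 hq.2 ⟨θ, hθ⟩⟩)
  have c : Continuous fun q => {θ | θ ∈ u.toList.map (↑)}.domRestrict (h q) :=
    (Pi.continuous_domRestrict _).comp hc
  obtain ⟨q, q1, q2⟩ := closure_minimal (image_mono ((subset_biUnion_of_mem (u := D) (show
    u.toList.map (↑) ∈ Ls T by simp +contextual [Ls])).trans subset_closure))
    ((isClosed_closure.isCompact.image c).isClosed) (D3 _ p hp)
  exact eq_empty_iff_forall_notMem.1 hu q ⟨q1, mem_iInter₂.2 fun θ hθ =>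
    congrFun q2 ⟨θ, List.mem_map.2 ⟨θ, Finset.mem_toList.2 hθ, rfl⟩⟩⟩

omit [CompactSpace X] in
theorem van (hc : Continuous h) {C : Set X} {θ : Γ} (h1 : ∀ q ∈ C, h q θ = 0) {p : X}
    (hp : p ∈ closure C) : h p θ = 0 :=
  closure_minimal (t := {q | h q θ = 0}) h1 (isClosed_eq (by fun_prop) continuous_const) hp

theorem cnt1 (hc : Continuous h) (hs : ∀ x, {θ | h x θ ≠ 0}.Countable) {A : Set X} {p : X}
    (hp : p ∈ closure A) : ∃ C ⊆ A, C.Countable ∧ ∃ q ∈ closure C, h q = h p := by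
  obtain ⟨D, D1, D2, D3⟩ := apx hc A
  obtain ⟨cl, c1, c2, -, c4⟩ := fcl (F := fun l => ⋃ d ∈ D l, {θ | h d θ ≠ 0})
    fun l => (D2 l).biUnion fun d _ => hs d
  obtain ⟨q, q1, q2⟩ := D3 (cl {θ | h p θ ≠ 0}) p hp
  refine ⟨_, iUnion₂_subset fun l _ => D1 l, (Cardinal.le_aleph0_iff_set_countable.1
    (cL le_rfl (c4 _ _ le_rfl (cC le_rfl (hs p))))).biUnion fun l _ => D2 l, q, q1, funext fun θ => ?_⟩
  by_cases e : θ ∈ cl {θ | h p θ ≠ 0}
  · exact q2 θ e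
  · rw [not_not.1 fun k => e (c1 _ k)]
    refine van hc (fun d hd => not_not.1 fun k => e ?_) q1
    obtain ⟨l, l1, l2⟩ := mem_iUnion₂.1 hd
    exact c2 _ l l1 (mem_iUnion₂.2 ⟨d, l2, k⟩)

def Spl (X : Type) [TopologicalSpace X] : Prop :=
  ∀ A : Set X, ∃ (Γ : Type) (f : X → Γ → ℝ), Continuous f ∧ (∀ x, {θ | f x θ ≠ 0}.Countable) ∧
    ∀ x y, f x = f y → x ∈ A → y ∈ A

def Tight (X : Type) [TopologicalSpace X] : Prop :=
  ∀ A : Set X, ∀ p ∈ closure A, ∃ C ⊆ A, C.Countable ∧ p ∈ closure C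

theorem tight (hX : Spl X) : Tight X := by
  intro A p hp
  obtain ⟨Γ, f, f1, f2, f3⟩ := hX {p | ∃ C ⊆ A, C.Countable ∧ p ∈ closure C}
  obtain ⟨C, C1, C2, q, q1, q2⟩ := cnt1 f1 f2 hp
  exact f3 q p q2 ⟨C, C1, C2, q1⟩

theorem fre (hX : Spl X) {A : Set X} {p : X} (hp : p ∈ closure A) :
    ∃ s : ℕ → A, Tendsto (fun n => (s n).1) atTop (𝓝 p) := by
  obtain ⟨C, C1, C2, C3⟩ := tight hX A p hp
  obtain ⟨Γ, f, f1, f2, f3⟩ := hX {p}
  let T : Set Γ := ⋃ d ∈ insert p C, {θ | f d θ ≠ 0}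
  have := ((C2.insert p).biUnion fun d _ => f2 d : T.Countable).to_subtype
  have c : Continuous fun q => T.domRestrict (f q) := (Pi.continuous_domRestrict _).comp f1
  have : (comap (fun q => T.domRestrict (f q)) (𝓝 (T.domRestrict (f p))) ⊓ 𝓟 C).NeBot :=
    (mem_closure_iff_clusterPt.1 C3).neBot.mono
      (inf_le_inf_right _ (c.tendsto p).le_comap)
  obtain ⟨s, hs⟩ := exists_seq_tendsto
    (comap (fun q => T.domRestrict (f q)) (𝓝 (T.domRestrict (f p))) ⊓ 𝓟 C)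
  obtain ⟨s1, s2⟩ := tendsto_inf.1 hs
  rw [tendsto_comap_iff] at s1
  rw [tendsto_principal] at s2
  obtain ⟨N, hN⟩ := eventually_atTop.1 s2
  refine ⟨fun n => ⟨s (n + N), C1 (hN _ (Nat.le_add_left _ _))⟩, Tendsto.comp (g := s)
    (isCompact_univ.tendsto_nhds_of_unique_mapClusterPt (.of_forall fun _ => mem_univ _)
      fun z _ hz => (f3 p z (funext fun θ => ?_) rfl)) (tendsto_add_atTop_nat N)⟩
  by_cases e : θ ∈ T
  · exact (congrFun (eq_of_nhds_neBot ((hz.continuousAt_comp c.continuousAt).clusterPt.mono s1))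
      ⟨θ, e⟩).symm
  · have k : ∀ d ∈ insert p C, f d θ = 0 := fun d hd => not_not.1 fun k => e (mem_iUnion₂.2 ⟨d, hd, k⟩)
    rw [k p (Or.inl rfl), van f1 (fun d hd => k d (Or.inr hd))
      (mem_closure_iff_clusterPt.2 (hz.clusterPt.mono (le_principal_iff.2 s2)))]

def Sp (G : Set C(X, ℝ)) (S : Set X) : Prop := ∀ x ∈ S, ∀ y ∈ S, (∀ g ∈ G, g x = g y) → x = y

theorem mono [T2Space X] (hX : Spl X) (D : Set X) : ∃ H : Set C(X, ℝ), Sp H (closure D) ∧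
    ∀ c, ℵ₀ ≤ c → #D ≤ c → #H ≤ c := by
  choose s hs using fun p : closure D => fre hX p.2
  obtain ⟨j⟩ : Nonempty (closure D ↪ Set (D ⊕ ℕ)) := (Cardinal.le_def _ _).1
    ((Cardinal.mk_le_of_injective (f := s) fun x y e => Subtype.ext
      (tendsto_nhds_unique (hs x) (e ▸ hs y))).trans (by
        have k : ℵ₀ ≤ #(D ⊕ ℕ) := by simp
        rw [Cardinal.mk_set, ← Cardinal.power_self_eq k, ← Cardinal.power_def]
        exact (Cardinal.power_le_power_right (by simp)).trans (Cardinal.power_le_power_left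
          (Cardinal.aleph0_pos.trans_le k).ne' (Cardinal.mk_nat ▸ k))))
  choose Γ f f1 f2 f3 using fun i : D ⊕ ℕ => hX {x | ∃ e : x ∈ closure D, i ∈ j ⟨x, e⟩}
  let φ : (i : D ⊕ ℕ) → Γ i → C(X, ℝ) := fun i θ => ⟨fun x => f i x θ, (continuous_apply θ).comp (f1 i)⟩
  refine ⟨⋃ i, ⋃ d ∈ D, φ i '' {θ | f i d θ ≠ 0}, fun x hx y hy e => ?_, fun c hc hD =>
    cU hc (by simpa using Cardinal.add_le_of_le hc hD hc) fun i => cB hc hD fun d _ =>
      cC hc ((f2 i d).image _)⟩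
  have k : ∀ i, f i x = f i y := fun i => funext fun θ => by
    by_cases e' : ∃ d ∈ D, f i d θ ≠ 0
    · obtain ⟨d, d1, d2⟩ := e'
      exact e _ (mem_iUnion.2 ⟨i, mem_iUnion₂.2 ⟨d, d1, θ, d2, rfl⟩⟩)
    · push Not at e'
      rw [van (f1 i) e' hx, van (f1 i) e' hy]
  exact congrArg Subtype.val (j.injective (a₁ := ⟨x, hx⟩) (a₂ := ⟨y, hy⟩) (Set.ext fun i =>
    ⟨fun h => (f3 i x y (k i) ⟨hx, h⟩).2, fun h => (f3 i y x (k i).symm ⟨hy, h⟩).2⟩))

theorem dcn {G : Set C(X, ℝ)} {S : Set X} (hS : IsClosed S) (hG : Sp G S) {φ : X → ℝ}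
    (hφ : Continuous φ) : ∃ s ⊆ G, s.Countable ∧ ∀ x ∈ S, ∀ y ∈ S, (∀ g ∈ s, g x = g y) →
      φ x = φ y := by
  have := isCompact_iff_compactSpace.1 hS.isCompact
  obtain ⟨s, s1, s2⟩ := dcnt (K := S) (h := fun x (g : G) => g.1 x) (by fun_prop)
    (fun x y e => Subtype.ext (hG _ x.2 _ y.2 fun g hg => congrFun e ⟨g, hg⟩))
    (hφ.comp continuous_subtype_val)
  exact ⟨(↑) '' s, Subtype.coe_image_subset _ _, s1.image _, fun x hx y hy e =>
    s2 ⟨x, hx⟩ ⟨y, hy⟩ fun g hg => e _ ⟨g, hg, rfl⟩⟩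

end Pool.Agent.H.MP_e9bccb
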