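import Pool.Agent.H.MP_e9bccb.A

set_option autoImplicit false
open Set Filter Topology TopologicalSpace
open scoped Cardinal

namespace Pool.Agent.H.MP_e9bccb

variable {X W : Type} [TopologicalSpace X] [LinearOrder W] [WellFoundedLT W]

def Cor (S : Set X) : Prop :=
  ∃ G : Set C(X, ℝ), (∀ z ∈ S, {g ∈ G | g z ≠ 0}.Countable) ∧ Sp G S

theorem olub {s : Set W} (h : (upperBounds s).Nonempty) : ∃ δ, IsLUB s δ := by
  obtain ⟨a, a1, a2⟩ := (wellFounded_lt (α := W)).has_min _ h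
  exact ⟨a, a1, fun x hx => not_lt.1 (a2 x hx)⟩

theorem step [Nonempty W] (r : W → C(X, X)) (q : (a : W) → (∃ b, b < a) → C(X, X)) (M : W → Set X)
    {S : Set X} (h1 : ∀ a z, r a z ∈ M a) (h2 : ∀ a e z, q a e z ∈ M a) (h3 : ∀ a, Cor (M a))
    (h4 : ∀ x y a e, (∀ b < a, r b x = r b y) → q a e x = q a e y)
    (h5 : ∀ x ∈ S, ∀ y ∈ S, (∀ a, r a x = r a y) → x = y)
    (h6 : ∀ z ∈ S, {a | ∃ e, r a z ≠ q a e z}.Countable) : Cor S := by
  choose G G1 G2 using h3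
  obtain ⟨a0, -, h0⟩ := (wellFounded_lt (α := W)).has_min univ univ_nonempty
  refine ⟨(fun g => g.comp (r a0)) '' G a0 ∪ ⋃ a, ⋃ e, (fun g => g.comp (r a) - g.comp (q a e)) '' G a,
    fun z hz => (((G1 a0 _ (h1 a0 z)).image fun g => g.comp (r a0)).union ((h6 z hz).biUnion
      (t := fun a _ => ⋃ e, (fun g => g.comp (r a) - g.comp (q a e)) ''
        ({g ∈ G a | g (r a z) ≠ 0} ∪ {g ∈ G a | g (q a e z) ≠ 0})) fun a _ => countable_iUnion
          fun e => ((G1 a _ (h1 a z)).union (G1 a _ (h2 a e z))).image _)).mono ?_,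
    fun x hx y hy e => h5 x hx y hy fun a => ?_⟩
  · rintro _ ⟨⟨g, g1, rfl⟩ | hg, k⟩
    · exact Or.inl ⟨g, ⟨g1, k⟩, rfl⟩
    · obtain ⟨a, e, g, g1, rfl⟩ := mem_iUnion₂.1 hg
      have k' : g (r a z) - g (q a e z) ≠ 0 := k
      refine Or.inr (mem_iUnion₂.2 ⟨a, ⟨e, fun e' => k' (by rw [e', sub_self])⟩,
        mem_iUnion.2 ⟨e, g, ?_, rfl⟩⟩)
      by_contra hn
      simp only [mem_union, mem_ofPred_eq, not_or, not_and, not_not] at hn
      exact k' (by rw [hn.1 g1, hn.2 g1, sub_self])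
  · induction a using WellFoundedLT.induction with
    | ind a ih =>
      refine G2 a _ (h1 a x) _ (h1 a y) fun g hg => ?_
      by_cases k : ∃ b, b < a
      · have : g (r a x) - g (q a k x) = g (r a y) - g (q a k y) :=
          e _ (Or.inr (mem_iUnion₂.2 ⟨a, k, g, hg, rfl⟩))
        rw [h4 x y a k ih] at this
        exact sub_left_injective this
      · obtain rfl : a = a0 := le_antisymm (not_lt.1 fun h => k ⟨_, h⟩) (not_lt.1 (h0 a trivial))
        exact e _ (Or.inl ⟨g, hg, rfl⟩)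

variable [CompactSpace X]

theorem apx1 : ∃ D : List C(X, ℝ) → Set X, (∀ l, (D l).Countable) ∧ ∀ G : Set C(X, ℝ), ∀ p,
    ∃ q ∈ closure (⋃ l ∈ Ls G, D l), ∀ g ∈ G, g q = g p :=
  let ⟨D, _, D2, D3⟩ := apx (h := fun (x : X) (g : C(X, ℝ)) => g x) (by fun_prop) univ
  ⟨D, D2, fun G p => D3 G p (by simp)⟩

def bs (G : Set C(X, ℝ)) : Set X := ⋃ l ∈ Ls G, apx1.choose l

theorem bsm {G G' : Set C(X, ℝ)} (h : G ⊆ G') : bs G ⊆ bs G' := biUnion_subset_biUnion_left (Lm h)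

theorem bsc {G : Set C(X, ℝ)} {c : Cardinal} (hc : ℵ₀ ≤ c) (h : #G ≤ c) : #(bs G) ≤ c :=
  cB hc (cL hc h) fun l _ => cC hc (apx1.choose_spec.1 l)

noncomputable def rr (G : Set C(X, ℝ)) (p : X) : X := (apx1.choose_spec.2 G p).choose

theorem rr1 (G : Set C(X, ℝ)) (p : X) : rr G p ∈ closure (bs G) :=
  (apx1.choose_spec.2 G p).choose_spec.1

theorem rr2 {G : Set C(X, ℝ)} (p : X) : ∀ g ∈ G, g (rr G p) = g p :=
  (apx1.choose_spec.2 G p).choose_spec.2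

def Good (G : Set C(X, ℝ)) : Prop := Sp G (closure (bs G))

theorem rrc {G : Set C(X, ℝ)} (hG : Good G) : Continuous (rr G) := by
  have c : Continuous fun (x : X) (g : G) => g.1 x := by fun_prop
  refine continuous_iff_isClosed.2 fun F hF => ?_
  convert ((hF.inter (isClosed_closure (s := bs G))).isCompact.image c).isClosed.preimage c using 1
  ext p
  refine ⟨fun hp => ⟨_, ⟨hp, rr1 G p⟩, funext fun g => rr2 p _ g.2⟩, ?_⟩
  rintro ⟨z, z1, z2⟩
  exact mem_preimage.2 (hG _ z1.2 _ (rr1 G p) (fun g hg =>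
    (congrFun z2 ⟨g, hg⟩).trans (rr2 p g hg).symm) ▸ z1.1)

omit [WellFoundedLT W] in
theorem bsU (hX : Tight X) {G : W → Set C(X, ℝ)} (hG : Monotone G) {I : Set W} (hI : I.Nonempty)
    {z : X} (hz : z ∈ closure (bs (⋃ a ∈ I, G a))) : ∃ s ⊆ I, s.Countable ∧
      ∀ G', (∀ a ∈ s, G a ⊆ G') → z ∈ closure (bs G') := by
  obtain ⟨C, C1, C2, C3⟩ := hX _ z hz
  have : ∀ c ∈ C, ∃ a ∈ I, c ∈ bs (G a) := fun c hc => by
    obtain ⟨l, l1, l2⟩ := mem_iUnion₂.1 (C1 hc)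
    obtain ⟨a, a1, a2⟩ := LU hG hI l1
    exact ⟨a, a1, mem_iUnion₂.2 ⟨l, a2, l2⟩⟩
  choose k k1 k2 using this
  have := C2.to_subtype
  refine ⟨range fun c : C => k c c.2, by rintro _ ⟨c, rfl⟩; exact k1 _ _, countable_range _,
    fun G' h => closure_mono (fun c hc => bsm (h _ ⟨⟨c, hc⟩, rfl⟩) (k2 c hc)) C3⟩

omit [WellFoundedLT W] in
theorem goodU [Nonempty W] (hX : Tight X) {G : W → Set C(X, ℝ)} (hG : Monotone G)
    (hW : ∀ s : Set W, s.Countable → ∃ b, ∀ a ∈ s, a < b)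
    (h : ∀ a, Sp (⋃ a, G a) (closure (bs (G a)))) : Good (⋃ a, G a) := by
  intro x hx y hy
  rw [← biUnion_univ] at hx hy
  obtain ⟨s, -, s1, s2⟩ := bsU hX hG univ_nonempty hx
  obtain ⟨t, -, t1, t2⟩ := bsU hX hG univ_nonempty hy
  obtain ⟨b, hb⟩ := hW _ (s1.union t1)
  exact h b x (s2 _ fun a ha => hG (hb a (Or.inl ha)).le) y (t2 _ fun a ha => hG (hb a (Or.inr ha)).le)

theorem CL [Nonempty W] (hX : Tight X) {G : W → Set C(X, ℝ)} (hG : Monotone G) (h1 : ∀ a, Good (G a))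
    (h2 : ∀ a, (∃ b, b < a) → Good (⋃ b ∈ Iio a, G b)) (h3 : ∀ a, Cor (closure (bs (G a))))
    {S : Set X} (h4 : Sp (⋃ a, G a) S) : Cor S := by
  have m : ∀ a, ⋃ b ∈ Iio a, G b ⊆ G a := fun a => iUnion₂_subset fun b hb => hG (le_of_lt hb)
  refine step (fun a => ⟨_, rrc (h1 a)⟩) (fun a e => ⟨_, rrc (h2 a e)⟩) _ (fun a z => rr1 _ z)
    (fun a e z => closure_mono (bsm (m a)) (rr1 _ z)) h3 (fun x y a e k => h2 a e _ (rr1 _ x) _
      (rr1 _ y) fun g hg => ?_) (fun x hx y hy k => h4 x hx y hy fun g hg => ?_) fun z _ => ?_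
  · obtain ⟨b, b1, b2⟩ := mem_iUnion₂.1 hg
    exact (rr2 x g hg).trans ((rr2 x g b2).symm.trans ((congrArg g (k b b1)).trans
      ((rr2 y g b2).trans (rr2 y g hg).symm)))
  · obtain ⟨b, b2⟩ := mem_iUnion.1 hg
    rw [← rr2 x g b2, ← rr2 y g b2]
    exact congrArg g (k b)
  · by_contra hn
    let J := {a | ∃ _ : ∃ b, b < a, rr (G a) z ≠ rr (⋃ b ∈ Iio a, G b) z}
    let I := {b | (J ∩ Iic b).Countable}
    have k : ¬ (J ∩ I).Countable := fun k => by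
      rcases Iᶜ.eq_empty_or_nonempty with e | e
      · exact hn (k.mono fun a ha => And.intro ha
          (not_not.1 fun h => eq_empty_iff_forall_notMem.1 e a h))
      · obtain ⟨d, d1, d2⟩ := (wellFounded_lt (α := W)).has_min _ e
        refine d1 ((k.insert d).mono fun a ha => (le_iff_eq_or_lt.1 ha.2).imp_right fun e => ⟨ha.1, ?_⟩)
        exact not_not.1 fun h => d2 a h e
    obtain ⟨s, s1, s2, s3⟩ := bsU hX hG (I := I) (by
      by_contra e
      rw [not_nonempty_iff_eq_empty.1 e, inter_empty] at k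
      exact k countable_empty) (rr1 _ z)
    obtain ⟨a, ⟨⟨e, a1⟩, a2⟩, a3⟩ : ∃ a ∈ J ∩ I, a ∉ ⋃ b ∈ s, J ∩ Iic b := by
      by_contra hm
      push Not at hm
      exact k ((s2.biUnion fun b hb => s1 hb).mono hm)
    have a4 := s3 _ fun b hb => subset_biUnion_of_mem (u := G) (show b ∈ Iio a from
      not_le.1 fun h => a3 (mem_iUnion₂.2 ⟨b, hb, ⟨e, a1⟩, h⟩))
    have a5 : G a ⊆ ⋃ b ∈ I, G b := subset_biUnion_of_mem (u := G) a2
    exact a1 ((h1 a _ (rr1 _ z) _ (closure_mono (bsm (m a)) a4) fun g hg =>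
      (rr2 z g hg).trans (rr2 z g (a5 hg)).symm).trans (h2 a e _ a4 _ (rr1 _ z) fun g hg =>
        (rr2 z g (a5 (m a hg))).trans (rr2 z g hg).symm))

theorem rec2 {Z : Type} (F : W → Set Z → Set Z) :
    ∃ U : W → Set Z, ∀ a, U a = F a (⋃ b ∈ Iio a, U b) :=
  ⟨(wellFounded_lt (α := W)).fix fun a v => F a (⋃ b, ⋃ e : b < a, v b e),
    fun _ => WellFounded.fix_eq _ _ _⟩

end Pool.Agent.H.MP_e9bccb
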