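import Pool.Agent.H.MP_e9bccb.B

set_option autoImplicit false
open Set Filter Topology TopologicalSpace
open scoped Cardinal

namespace Pool.Agent.H.MP_e9bccb

open Pool.Agent.H.MP_d2b9e5 (Om Om1 Om2)
open Pool.Agent.H.MP_28dc43 (bdd)

theorem cR {Z ι : Type} {κ : Cardinal} (hκ : κ.IsRegular) {s : Set ι} (hι : #s < κ) {f : ι → Set Z}
    (hf : ∀ i ∈ s, #(f i) < κ) : #(⋃ i ∈ s, f i) < κ := by
  rw [biUnion_eq_iUnion]
  exact Cardinal.mk_iUnion_le_sum_mk.trans_lt (Cardinal.sum_lt_of_isRegular hκ hι fun i => hf i i.2)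

theorem wb {κ : Cardinal.{0}} (hκ : κ.IsRegular) {s : Set κ.ord.ToType} (hs : #s < κ) :
    ∃ b, ∀ a ∈ s, a < b := by
  by_contra hn
  push Not at hn
  refine absurd (cR hκ hs (f := fun a => insert a (Iio a)) fun a _ => Cardinal.mk_insert_le.trans_lt
    (Cardinal.add_lt_of_lt hκ.1 (Cardinal.mk_Iio_toType_ord_lt a)
      (Cardinal.one_lt_aleph0.trans_le hκ.1))) (not_lt.2 ?_)
  rw [eq_univ_of_forall (s := ⋃ a ∈ s, insert a (Iio a)) fun b => ?_, Cardinal.mk_univ,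
    Cardinal.mk_ord_toType]
  obtain ⟨a, ha, hb⟩ := hn b
  exact mem_iUnion₂.2 ⟨a, ha, hb.eq_or_lt⟩

theorem dist {Z : Type} (s : Set Z) : ∃ L : Cardinal → Set Z, (∀ c, #(L c) ≤ c) ∧
    ∀ x ∈ s, ∃ c0 < #s, ∀ c, c0 < c → x ∈ L c := by
  obtain ⟨e⟩ : Nonempty (s ≃ (#s).ord.ToType) := Cardinal.eq.1 (Cardinal.mk_ord_toType _).symm
  refine ⟨fun c => (↑) '' {x : s | (e x : Ordinal) < c.ord}, fun c => Cardinal.mk_image_le.trans
    ((Cardinal.mk_le_of_injective (f := fun x : {x : s | (e x : Ordinal) < c.ord} =>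
      Ordinal.ToType.mk ⟨_, x.2⟩) fun x y h => ?_).trans (Cardinal.mk_ord_toType c).le),
    fun x hx => ⟨(e ⟨x, hx⟩ : Ordinal).card, Cardinal.lt_ord.1 (e ⟨x, hx⟩).toOrd.2, fun c hc =>
      ⟨⟨x, hx⟩, Cardinal.lt_ord.2 hc, rfl⟩⟩⟩
  exact Subtype.ext (e.injective (Ordinal.ToType.mk.symm.injective (Subtype.ext
    (congrArg Subtype.val (Ordinal.ToType.mk.injective h) :))))

variable {X : Type} [TopologicalSpace X]

theorem spm {G G' : Set C(X, ℝ)} {S S' : Set X} (h : Sp G S) (h1 : G ⊆ G') (h2 : S' ⊆ S) :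
    Sp G' S' := fun x hx y hy e => h x (h2 hx) y (h2 hy) fun g hg => e g (h1 hg)

variable [CompactSpace X] [T2Space X]

theorem reg [Nonempty X] (hX : Spl X) {κ : Cardinal} (hκ : κ.IsRegular) (h0 : ℵ₀ < κ)
    (ih : ∀ G : Set C(X, ℝ), Good G → #G < κ → Cor (closure (bs G))) {G : Set C(X, ℝ)}
    (hG : Good G) (hc : #G ≤ κ) : Cor (closure (bs G)) := by
  obtain ⟨j⟩ : Nonempty (G ↪ κ.ord.ToType) := (Cardinal.le_def _ _).1
    (hc.trans (Cardinal.mk_ord_toType κ).ge)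
  choose H H1 H2 using mono hX
  have : ∀ G : Set C(X, ℝ), ∃ x y, ¬ Good G → x ∈ closure (bs G) ∧ y ∈ closure (bs G) ∧
      (∀ g ∈ G, g x = g y) ∧ x ≠ y := fun G => by
    by_cases e : Good G
    · exact ⟨Classical.arbitrary _, Classical.arbitrary _, fun h => absurd e h⟩
    · simp only [Good, Sp, not_forall] at e
      obtain ⟨x, x1, y, y1, e⟩ := e
      obtain ⟨e1, e2⟩ := e
      exact ⟨x, y, fun _ => ⟨x1, y1, e1, e2⟩⟩
  choose pa pb hp using this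
  obtain ⟨U, hU⟩ := rec2 (W := κ.ord.ToType) fun a (V : Set (X ⊕ C(X, ℝ))) => V ∪
    (Sum.inr '' ((↑) '' (j ⁻¹' {a}) ∪ H (Sum.inl ⁻¹' V ∪ bs (Sum.inr ⁻¹' V))) ∪
      Sum.inl '' {pa (Sum.inr ⁻¹' V), pb (Sum.inr ⁻¹' V)})
  let V := fun a => ⋃ b ∈ Iio a, U b
  have v1 : Monotone V := fun a b e => biUnion_subset_biUnion_left (Iio_subset_Iio e)
  have v2 : ∀ {a b}, a < b → U a ⊆ V b := fun e => subset_biUnion_of_mem (u := U) e
  have v3 : ∀ a, V a ⊆ U a := fun a => hU a ▸ subset_union_left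
  have b1 : ∀ a : κ.ord.ToType, ∃ b, a < b := fun a => (wb hκ (s := {a}) (by
    simpa using Cardinal.one_lt_aleph0.trans h0)).imp fun b h => h a rfl
  have sz : ∀ a, #(U a) < κ := fun a => by
    induction a using WellFoundedLT.induction with
    | ind a ih =>
      have k := le_max_left ℵ₀ #(V a)
      have k1 := fun {Z : Type} (f : Z → X ⊕ C(X, ℝ)) (hf : Function.Injective f) =>
        (Cardinal.mk_preimage_of_injective f (V a) hf).trans (le_max_right ℵ₀ _)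
      rw [hU]
      exact (c2 k (le_max_right _ _) (c2 k (Cardinal.mk_image_le.trans (c2 k (cC k
        (((countable_singleton a).preimage j.injective).image _)) (H2 _ _ k (c2 k
          (k1 _ Sum.inl_injective) (bsc k (k1 _ Sum.inr_injective)))))) (cC k
            ((toFinite _).countable.image _)))).trans_lt
        (max_lt h0 (cR hκ (Cardinal.mk_Iio_toType_ord_lt a) ih))
  let Gv := fun a => (Sum.inr ⁻¹' V a : Set C(X, ℝ))
  have g1 : Monotone Gv := fun a b e => preimage_mono (v1 e)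
  have g2 : ∀ a, #(Gv a) < κ := fun a => (Cardinal.mk_preimage_of_injective _ _
    Sum.inr_injective).trans_lt (cR hκ (Cardinal.mk_Iio_toType_ord_lt a) fun b _ => sz b)
  have g3 : ∀ {a b}, a < b → Sp (Gv b) (closure (Sum.inl ⁻¹' V a ∪ bs (Gv a))) := fun e =>
    spm (H1 _) (fun g hg => v2 e (hU _ ▸ Or.inr (Or.inl ⟨g, Or.inr hg, rfl⟩))) Subset.rfl
  let Bad := fun δ => (∀ b < δ, ∃ c, b < c ∧ c < δ) ∧ ¬ Good (Gv δ)
  have : ∀ δ, ∃ x y, Bad δ → x ∈ closure (bs (Gv δ)) ∧ y ∈ closure (bs (Gv δ)) ∧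
      (∀ g ∈ Gv δ, g x = g y) ∧ x ≠ y ∧ Sum.inl x ∈ U δ ∧ Sum.inl y ∈ U δ ∧ Sum.inl y ∉ V δ := by
    intro δ
    have k1 : Sum.inl (pa (Gv δ)) ∈ U δ := hU δ ▸ Or.inr (Or.inr ⟨_, Or.inl rfl, rfl⟩)
    have k2 : Sum.inl (pb (Gv δ)) ∈ U δ := hU δ ▸ Or.inr (Or.inr ⟨_, Or.inr rfl, rfl⟩)
    by_cases e : Sum.inl (pb (Gv δ)) ∈ V δ
    · refine ⟨pb (Gv δ), pa (Gv δ), fun h => ?_⟩
      obtain ⟨a1, a2, a3, a4⟩ := hp _ h.2
      refine ⟨a2, a1, fun g hg => (a3 g hg).symm, a4.symm, k2, k1, fun e' => a4 ?_⟩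
      obtain ⟨a, c1, c2⟩ := mem_iUnion₂.1 e
      obtain ⟨b, c3, c4⟩ := mem_iUnion₂.1 e'
      obtain ⟨c, c5, c6⟩ := h.1 _ (max_lt c1 c3)
      exact g3 c6 _ (subset_closure (Or.inl (v2 ((le_max_right _ _).trans_lt c5) c4))) _
        (subset_closure (Or.inl (v2 ((le_max_left _ _).trans_lt c5) c2))) a3
    · refine ⟨pa (Gv δ), pb (Gv δ), fun h => ?_⟩
      obtain ⟨a1, a2, a3, a4⟩ := hp _ h.2
      exact ⟨a1, a2, a3, a4, k1, k2, e⟩
  choose x y hxy using this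
  let col : κ.ord.ToType → Prop := (wellFounded_lt (α := κ.ord.ToType)).fix fun δ v =>
    ¬ ∃ η, ∃ e : η < δ, Bad η ∧ y η = x δ ∧ v η e
  have hcol : ∀ δ, col δ = ¬ ∃ η, ∃ _ : η < δ, Bad η ∧ y η = x δ ∧ col η :=
    fun δ => WellFounded.fix_eq _ _ _
  obtain ⟨Γ, f, f1, f2, f3⟩ := hX {z | ∃ η, Bad η ∧ y η = z ∧ col η}
  have nf : ∀ δ, Bad δ → f (x δ) ≠ f (y δ) := fun δ h e => by
    obtain ⟨-, -, -, a4, a5, a6, a7⟩ := hxy δ h
    by_cases k : col δ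
    · obtain ⟨η, c1, c2, c3⟩ := f3 _ _ e.symm ⟨δ, h, rfl, k⟩
      refine (hcol δ ▸ k :) ⟨η, lt_of_le_of_ne (not_lt.1 fun e => (hxy η c1).2.2.2.2.2.2
        (v2 e (c2 ▸ a5))) fun e => a4 (e ▸ c2.symm), c1, c2, c3⟩
    · obtain ⟨η, -, c⟩ := not_not.1 (hcol δ ▸ k :)
      obtain ⟨η, c1, c2, c3⟩ := f3 _ _ e ⟨η, c⟩
      obtain rfl : η = δ := le_antisymm (not_lt.1 fun e => (hxy η c1).2.2.2.2.2.2
        (v2 e (c2 ▸ a6))) (not_lt.1 fun e => a7 (v2 e (c2 ▸ (hxy η c1).2.2.2.2.2.1)))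
      exact k c3
  have : Nonempty κ.ord.ToType := (wb hκ (s := ∅) (by simpa using hκ.pos)).nonempty
  have gi : Good (⋃ a, Gv a) := goodU (tight hX) g1 (fun s hs => wb hκ ((cC le_rfl hs).trans_lt h0))
    fun a => (b1 a).elim fun b e => spm (g3 e) (subset_iUnion Gv b) (closure_mono subset_union_right)
  choose s s1 s2 s3 using fun θ => dcn isClosed_closure gi ((continuous_apply θ).comp f1)
  choose! k hk using fun g (e : ∃ a, g ∈ Gv a) => e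
  choose β hβ using fun a => wb hκ (s := {a} ∪ k '' ⋃ d ∈ bs (Gv a), ⋃ θ ∈ {θ | f d θ ≠ 0}, s θ)
    ((c2 (le_max_left ℵ₀ #(Gv a)) (cC (le_max_left _ _) (countable_singleton a))
      (Cardinal.mk_image_le.trans (cB (le_max_left _ _) (bsc (le_max_left _ _) (le_max_right _ _))
        fun d _ => cC (le_max_left _ _) ((f2 d).biUnion fun θ _ => s2 θ)))).trans_lt
          (max_lt h0 (g2 a)))
  let C := {δ | (∃ b, b < δ) ∧ ∀ a < δ, β a < δ}
  have c1 : ∀ δ ∈ C, Good (Gv δ) := fun δ hδ => by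
    have l : ∀ b < δ, ∃ c, b < c ∧ c < δ := fun b hb => ⟨_, hβ b b (Or.inl rfl), hδ.2 b hb⟩
    by_contra hn
    obtain ⟨a1, a2, a3, -⟩ := hxy δ ⟨l, hn⟩
    refine nf δ ⟨l, hn⟩ (funext fun θ => ?_)
    by_cases e : ∃ d ∈ bs (Gv δ), f d θ ≠ 0
    · obtain ⟨d, d1, d2⟩ := e
      obtain ⟨m, m1, m2⟩ := mem_iUnion₂.1 d1
      obtain ⟨a, a4, a5⟩ := LU g1 (I := Iio δ) hδ.1 (Lm (fun g hg => by
        obtain ⟨b, e1, e2⟩ := mem_iUnion₂.1 hg
        obtain ⟨c, e3, e4⟩ := l b e1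
        exact mem_iUnion₂.2 ⟨c, e4, v2 e3 e2⟩) m1)
      have m3 := closure_mono (bsm (subset_iUnion Gv δ))
      exact s3 θ _ (m3 a1) _ (m3 a2) fun g hg => a3 g (g1 ((hβ a _ (Or.inr ⟨g, mem_iUnion₂.2
        ⟨d, mem_iUnion₂.2 ⟨m, a5, m2⟩, mem_iUnion₂.2 ⟨θ, d2, hg⟩⟩, rfl⟩)).trans (hδ.2 a a4)).le
          (hk g (mem_iUnion.1 (s1 θ hg))))
    · push Not at e
      rw [van f1 e a1, van f1 e a2]
  have c2 : ∀ ξ, ∃ δ ∈ C, ξ < δ := fun ξ => by
    choose nx hn using fun a => wb hκ (s := {a} ∪ β '' Iio a) ((Cardinal.mk_union_le _ _).trans_lt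
      (Cardinal.add_lt_of_lt hκ.1 (by simpa using Cardinal.one_lt_aleph0.trans h0)
        (Cardinal.mk_image_le.trans_lt (Cardinal.mk_Iio_toType_ord_lt a))))
    let u : ℕ → κ.ord.ToType := fun n => nx^[n] ξ
    have u1 : ∀ n, u (n + 1) = nx (u n) := fun n => Function.iterate_succ_apply' _ _ _
    obtain ⟨δ, hδ⟩ := olub ((wb hκ ((cC le_rfl (countable_range u)).trans_lt h0)).imp
      fun b hb a ha => (hb a ha).le)
    have e : ξ < δ := (hn ξ ξ (Or.inl rfl)).trans_le (hδ.1 ⟨1, rfl⟩)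
    refine ⟨δ, ⟨⟨ξ, e⟩, fun ζ hζ => ?_⟩, e⟩
    obtain ⟨_, ⟨n, rfl⟩, e⟩ := (lt_isLUB_iff hδ).1 hζ
    exact (hn _ _ (Or.inr ⟨ζ, e, rfl⟩)).trans_le (hδ.1 ⟨n + 1, u1 n⟩)
  have : Nonempty C := (c2 (Classical.arbitrary _)).elim fun δ h => ⟨⟨δ, h.1⟩⟩
  refine CL (W := C) (tight hX) (G := fun c => Gv c) (fun a b e => g1 e) (fun c => c1 c c.2)
    (fun c ⟨b, hb⟩ => ?_) (fun c => ih _ (c1 c c.2) (g2 c)) (spm hG (fun g hg => ?_) Subset.rfl)
  · obtain ⟨δ, hδ⟩ := olub (s := (↑) '' Iio c) ⟨c.1, by rintro _ ⟨a, ha, rfl⟩; exact le_of_lt ha⟩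
    convert c1 δ ⟨b.2.1.imp fun a ha => ha.trans_le (hδ.1 ⟨b, hb, rfl⟩), fun a ha => ?_⟩ using 1
    · refine Subset.antisymm (iUnion₂_subset fun a ha => g1 (hδ.1 ⟨a, ha, rfl⟩)) fun g hg => ?_
      obtain ⟨a, e1, e2⟩ := mem_iUnion₂.1 hg
      obtain ⟨_, ⟨d, d1, rfl⟩, d2⟩ := (lt_isLUB_iff hδ).1 e1
      exact mem_iUnion₂.2 ⟨d, d1, v2 d2 e2⟩
    · obtain ⟨_, ⟨d, d1, rfl⟩, d2⟩ := (lt_isLUB_iff hδ).1 ha
      exact (d.2.2 a d2).trans_le (hδ.1 ⟨d, d1, rfl⟩)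
  · obtain ⟨δ, d1, d2⟩ := c2 (j ⟨g, hg⟩)
    exact mem_iUnion.2 ⟨⟨δ, d1⟩, v2 d2 (hU _ ▸ Or.inr (Or.inl ⟨g, Or.inl ⟨⟨g, hg⟩, rfl, rfl⟩, rfl⟩))⟩

theorem sing (hX : Spl X) {κ : Cardinal} (hκ : ¬ κ.IsRegular) (h0 : ℵ₀ < κ)
    (ih : ∀ G : Set C(X, ℝ), Good G → #G < κ → Cor (closure (bs G))) {G : Set C(X, ℝ)}
    (hG : Good G) (hc : #G ≤ κ) : Cor (closure (bs G)) := by
  obtain ⟨s, s1, s2⟩ := Order.exists_cof_eq κ.ord.ToType
  have s3 : #s < κ := by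
    rw [s2, Ordinal.cof_toType]
    exact not_le.1 fun e => hκ ⟨h0.le, e⟩
  have a1 : Cardinal.aleph 1 < κ := lt_of_le_of_ne (Cardinal.aleph_one_le_iff.2 h0)
    fun e => hκ (e ▸ Cardinal.isRegular_aleph_one)
  let k : s → Cardinal := fun j => max (max (Cardinal.aleph 1) #s) #(Iio j.1)
  have k1 : ∀ j, k j < κ := fun j => max_lt (max_lt a1 s3) (Cardinal.mk_Iio_toType_ord_lt _)
  have k2 : ∀ j, Cardinal.aleph 1 ≤ k j := fun j => (le_max_left _ _).trans (le_max_left _ _)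
  have k0 : ∀ j, ℵ₀ ≤ k j := fun j => (Cardinal.aleph0_le_aleph 1).trans (k2 j)
  have k3 : ∀ j, #s ≤ k j := fun j => (le_max_right _ _).trans (le_max_left _ _)
  have k4 : Monotone k := fun i j e => max_le_max le_rfl
    (Cardinal.mk_le_mk_of_subset (Iio_subset_Iio e))
  have : Nonempty κ.ord.ToType := Cardinal.mk_ne_zero_iff.1
    ((Cardinal.mk_ord_toType κ).symm ▸ (Cardinal.aleph0_pos.trans h0).ne')
  have : Nonempty s := (s1 (Classical.arbitrary _)).elim fun j h => ⟨⟨j, h.1⟩⟩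
  have k5 : ∀ c < κ, ∃ j, c < k j := fun c hc => by
    by_contra hn
    push Not at hn
    have e := (k0 _).trans (hn (Classical.arbitrary _))
    refine absurd (cU e ((k3 _).trans (hn (Classical.arbitrary _))) (f := fun j : s =>
      {j.1} ∪ Iio j.1) fun j => c2 e (cC e (countable_singleton _))
        ((le_max_right _ _).trans (hn j))) (not_le.2 ?_)
    rw [eq_univ_of_forall (s := ⋃ j : s, {j.1} ∪ Iio j.1) fun b => ?_, Cardinal.mk_univ,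
      Cardinal.mk_ord_toType]
    · exact hc
    obtain ⟨a, ha, hb⟩ := s1 b
    exact mem_iUnion.2 ⟨⟨a, ha⟩, hb.eq_or_lt⟩
  choose H H1 H2 using mono hX
  choose L L1 L2 using dist (Z := C(X, ℝ))
  let A : Set (s × C(X, ℝ)) → s → Set C(X, ℝ) := fun V j => ⋃ i ∈ Iic j, {g | (i, g) ∈ V}
  obtain ⟨U, hU⟩ := rec2 (W := Om) fun _ (V : Set (s × C(X, ℝ))) => V ∪ {p | p.2 ∈
    (L G (k p.1) ∪ H (bs (A V p.1))) ∪ ⋃ i, L (H (bs (⋃ j ∈ Iio i, A V j))) (k p.1)}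
  let V := fun a => ⋃ b ∈ Iio a, U b
  have v1 : Monotone V := fun a b e => biUnion_subset_biUnion_left (Iio_subset_Iio e)
  have v2 : ∀ {a b}, a < b → U a ⊆ V b := fun e => subset_biUnion_of_mem (u := U) e
  have A1 : ∀ {V V'}, V ⊆ V' → ∀ j, A V j ⊆ A V' j := fun e j => iUnion₂_mono fun i _ g hg => e hg
  have A2 : ∀ V, Monotone (A V) := fun V i j e => biUnion_subset_biUnion_left (Iic_subset_Iic.2 e)
  have A3 : ∀ V : Set (s × C(X, ℝ)), (∀ j, #{g | (j, g) ∈ V} ≤ k j) → ∀ j, #(A V j) ≤ k j :=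
    fun V h j => cB (k0 j) ((Cardinal.mk_set_le _).trans (k3 j)) fun i hi => (h i).trans (k4 hi)
  have sv : ∀ n, (∀ m < n, ∀ j, #{g | (j, g) ∈ U m} ≤ k j) → ∀ j, #{g | (j, g) ∈ V n} ≤ k j :=
    fun n h j => (Cardinal.mk_le_mk_of_subset (s := {g | (j, g) ∈ V n})
      (t := ⋃ m ∈ Iio n, {g | (j, g) ∈ U m}) fun g hg =>
      let ⟨m, m1, m2⟩ := mem_iUnion₂.1 (show (j, g) ∈ V n from hg)
      mem_iUnion₂.2 ⟨m, m1, m2⟩).trans (cB (k0 j) (cC (k0 j) (Om2 n)) fun m hm => h m hm j)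
  have sz : ∀ n j, #{g | (j, g) ∈ U n} ≤ k j := fun n => by
    induction n using WellFoundedLT.induction with
    | ind n ih =>
      intro j
      rw [hU]
      exact c2 (k0 j) (sv n ih j) (c2 (k0 j) (c2 (k0 j) (L1 _ _) (H2 _ _ (k0 j) (bsc (k0 j)
        (A3 _ (sv n ih) j)))) (cU (k0 j) (k3 j) fun i => L1 _ _))
  have s4 : ∀ n j, #(A (V n) j) ≤ k j := fun n => A3 _ (sv n fun m _ => sz m)
  have b1 : ∀ a : Om, ∃ c, a < c := fun a => (bdd (countable_singleton a)).imp fun c h => h a rfl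
  have : Nonempty Om := (bdd countable_empty).nonempty
  have g1 : ∀ j, Good (⋃ n, A (V n) j) := fun j => goodU (tight hX) (fun a b e => A1 (v1 e) j)
    (fun s => bdd) fun n => (b1 n).elim fun m e => spm (H1 _) (fun g hg => mem_iUnion.2 ⟨m,
      mem_iUnion₂.2 ⟨j, le_refl j, v2 e (hU n ▸ Or.inr (Or.inl (Or.inr hg)))⟩⟩) Subset.rfl
  refine CL (tight hX) (G := fun j => ⋃ n, A (V n) j) (fun a b e => iUnion_mono fun n => A2 _ e) g1
    (fun i ⟨b, hb⟩ => ?_) (fun j => ih _ (g1 j) ((cU (k0 j) ((Cardinal.mk_ord_toType _).le.trans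
      (k2 j)) fun n => s4 n j).trans_lt (k1 j))) (spm hG (fun g hg => ?_) Subset.rfl)
  · rw [show ⋃ j ∈ Iio i, ⋃ n, A (V n) j = ⋃ n, ⋃ j ∈ Iio i, A (V n) j by
      simp only [@iUnion_comm _ Om]]
    refine goodU (tight hX) (fun a b e => iUnion₂_mono fun j _ => A1 (v1 e) j) (fun s => bdd)
      fun n => (b1 n).elim fun m e => spm (H1 _) (fun g hg => ?_) Subset.rfl
    obtain ⟨c, c1, c2⟩ := L2 _ g hg
    obtain ⟨j, j1, j2⟩ : ∃ j < i, c < k j := by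
      by_contra hn
      push Not at hn
      have e := (k0 _).trans (hn b hb)
      exact absurd (H2 _ _ e (bsc e (cB e ((Cardinal.mk_set_le _).trans ((k3 _).trans (hn b hb)))
        fun j hj => (s4 n j).trans (hn j hj)))) (not_le.2 c1)
    exact mem_iUnion.2 ⟨m, mem_iUnion₂.2 ⟨j, j1, mem_iUnion₂.2 ⟨j, le_refl j, v2 e
      (hU n ▸ Or.inr (Or.inr (mem_iUnion.2 ⟨i, c2 _ j2⟩)))⟩⟩⟩
  · obtain ⟨c, c1, c2⟩ := L2 _ g hg
    obtain ⟨j, hj⟩ := k5 c (c1.trans_le hc)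
    obtain ⟨m, e⟩ := b1 (Classical.arbitrary _)
    exact mem_iUnion.2 ⟨j, mem_iUnion.2 ⟨m, mem_iUnion₂.2 ⟨j, le_refl j, v2 e
      (hU _ ▸ Or.inr (Or.inl (Or.inl (c2 _ hj))))⟩⟩⟩

theorem spU : Sp (univ : Set C(X, ℝ)) univ := fun x _ y _ e => by
  by_contra hn
  obtain ⟨f, f1, f2, -⟩ := exists_continuous_zero_one_of_isClosed (isClosed_singleton (x := x))
    (isClosed_singleton (x := y)) (disjoint_singleton.2 hn)
  exact zero_ne_one ((f1 rfl).symm.trans ((e f trivial).trans (f2 rfl)))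

theorem corson (hX : Spl X) : ∃ (Γ : Type) (h : X → Γ → ℝ), IsEmbedding h ∧
    ∀ x, {θ | h x θ ≠ 0}.Countable := by
  have key : Cor (univ : Set X) := by
    rcases isEmpty_or_nonempty X with e | e
    · exact ⟨∅, fun z => e.elim z, fun z => e.elim z⟩
    have : ∀ κ, ∀ G : Set C(X, ℝ), Good G → #G = κ → Cor (closure (bs G)) := fun κ => by
      induction κ using WellFoundedLT.induction with
      | ind κ ih =>
        intro G hG hc
        rcases le_or_gt κ ℵ₀ with h0 | h0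
        · exact ⟨G, fun z _ => (Cardinal.le_aleph0_iff_set_countable.1 (hc ▸ h0)).mono
            fun g hg => hg.1, hG⟩
        by_cases hκ : κ.IsRegular
        · exact reg hX hκ h0 (fun G a b => ih _ b G a rfl) hG hc.le
        · exact sing hX hκ h0 (fun G a b => ih _ b G a rfl) hG hc.le
    convert this _ univ (spm spU Subset.rfl (subset_univ _)) rfl
    exact (eq_univ_of_forall fun p => spU _ trivial _ trivial (rr2 p) ▸ rr1 univ p).symm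
  obtain ⟨G, G1, G2⟩ := key
  exact ⟨G, fun x g => g.1 x, (Continuous.isClosedEmbedding (by fun_prop) fun x y e =>
    G2 x trivial y trivial fun g hg => congrFun e ⟨g, hg⟩).isEmbedding, fun x =>
      ((G1 x trivial).preimage Subtype.val_injective).mono fun g hg => And.intro g.2 hg⟩

end Pool.Agent.H.MP_e9bccb
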