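import Pool.Agent.H.MP_e9bccb.C

set_option autoImplicit false
open Set Filter Topology TopologicalSpace
open scoped Cardinal

namespace Pool.Agent.H.MP_e9bccb

open Pool.Agent.H.MP_eb6644 (Y Yc Ys)

theorem ClU {Γ W : Type} [LinearOrder W] {F : List Γ → Set Γ} {T : W → Set Γ} (hT : Monotone T)
    (h : ∀ a, Cl F (T a)) {I : Set W} (hI : I.Nonempty) : Cl F (⋃ b ∈ I, T b) := fun l hl =>
  let ⟨a, a1, a2⟩ := LU hT hI hl
  (h a l a2).trans (subset_biUnion_of_mem (u := T) a1)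

theorem ind2 {Γ : Type} {F : List Γ → Set Γ} (hF : ∀ l, (F l).Countable) (P : Set Γ → Prop)
    (h0 : ∀ T, T.Countable → P T)
    (h1 : ∀ (W : Type) [LinearOrder W] [WellFoundedLT W] [Nonempty W] (T : W → Set Γ), Monotone T →
      (∀ a, Cl F (T a)) → (∀ a, P (T a)) → P (⋃ a, T a)) (T : Set Γ) (hT : Cl F T) : P T := by
  obtain ⟨cl, c1, c2, c3, c4⟩ := fcl hF
  obtain ⟨κ, hκ⟩ : ∃ κ, #T = κ := ⟨_, rfl⟩
  induction κ using WellFoundedLT.induction generalizing T with
  | ind κ ih =>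
    rcases le_or_gt κ ℵ₀ with e0 | e0
    · exact h0 T (Cardinal.le_aleph0_iff_set_countable.1 (hκ ▸ e0))
    obtain ⟨e⟩ : Nonempty (κ.ord.ToType ≃ T) :=
      Cardinal.eq.1 ((Cardinal.mk_ord_toType _).trans hκ.symm)
    have : Nonempty κ.ord.ToType := Cardinal.mk_ne_zero_iff.1
      ((Cardinal.mk_ord_toType κ).symm ▸ (Cardinal.aleph0_pos.trans e0).ne')
    convert h1 κ.ord.ToType (fun a => cl ((fun b => (e b).1) '' ({a} ∪ Iio a))) (fun a b k =>
      c3 _ _ ((image_mono ?_).trans (c1 _)) (c2 _)) (fun a => c2 _) fun a => ih _ ((c4 _ _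
        (le_max_left ℵ₀ #(Iio a)) (Cardinal.mk_image_le.trans (MP_e9bccb.c2 (le_max_left _ _)
          (cC (le_max_left _ _) (countable_singleton a)) (le_max_right _ _)))).trans_lt
            (max_lt e0 (Cardinal.mk_Iio_toType_ord_lt a))) _ (c2 _) rfl
    · refine Subset.antisymm (fun θ hθ => mem_iUnion.2 ⟨e.symm ⟨θ, hθ⟩, c1 _ ⟨_, Or.inl rfl, by simp⟩⟩)
        (iUnion_subset fun a => c3 _ _ ?_ hT)
      rintro _ ⟨b, -, rfl⟩
      exact (e b).2
    · rintro c (rfl | hc)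
      · exact k.eq_or_lt
      · exact Or.inr (lt_of_lt_of_le hc k)

variable {X Γ Z : Type} [TopologicalSpace X] [CompactSpace X] [TopologicalSpace Z] [T2Space Z]
  {h : X → Γ → ℝ} {π : X → Z}

theorem str (hc : Continuous h) (hi : Function.Injective h) (hs : ∀ x, {θ | h x θ ≠ 0}.Countable)
    (hπ : Continuous π) : ∃ (F : List Γ → Set Γ) (R : Set Γ → X → X), (∀ l, (F l).Countable) ∧
      ∀ T, Cl F T → (∀ x, h (R T x) = T.indicator (h x)) ∧
        ∀ x y, π x = π y → π (R T x) = π (R T y) := by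
  let g : X × X → Γ × Bool → ℝ := fun p θ => h (bif θ.2 then p.1 else p.2) θ.1
  have c : Continuous g := continuous_pi fun ⟨θ, b⟩ => by
    cases b <;> simp only [g, cond_true, cond_false] <;> fun_prop
  have cE : IsClosed {p : X × X | π p.1 = π p.2} := isClosed_eq (by fun_prop) (by fun_prop)
  obtain ⟨D, D1, D2, D3⟩ := apx c {p : X × X | π p.1 = π p.2}
  let F : List Γ → Set Γ := fun l => ⋃ b : List Bool, ⋃ d ∈ D (l.zip b),
    {θ | h d.1 θ ≠ 0} ∪ {θ | h d.2 θ ≠ 0}
  have key : ∀ T, Cl F T → ∀ x y, π x = π y → ∃ x' y', π x' = π y' ∧ h x' = T.indicator (h x) ∧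
      h y' = T.indicator (h y) := by
    intro T hT x y e
    obtain ⟨q, q1, q2⟩ := D3 (Prod.fst ⁻¹' T) (x, y) (subset_closure e)
    have k : ∀ b, ∀ θ ∉ T, g q (θ, b) = 0 := fun b θ hθ => van c (fun d hd => by
      obtain ⟨l, l1, l2⟩ := mem_iUnion₂.1 hd
      by_contra hn
      refine hθ (hT (l.map Prod.fst) (fun γ hγ => ?_) (mem_iUnion.2 ⟨l.map Prod.snd,
        mem_iUnion₂.2 ⟨d, by rwa [List.zip_map', List.map_id'], ?_⟩⟩))
      · obtain ⟨a, a1, rfl⟩ := List.mem_map.1 hγ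
        exact l1 a a1
      · cases b
        · exact Or.inr hn
        · exact Or.inl hn) q1
    refine ⟨q.1, q.2, closure_minimal (iUnion₂_subset fun l _ => D1 l) cE q1, funext fun θ => ?_,
      funext fun θ => ?_⟩ <;> by_cases e : θ ∈ T
    · rw [indicator_of_mem e]; exact q2 (θ, true) e
    · rw [indicator_of_notMem e]; exact k true θ e
    · rw [indicator_of_mem e]; exact q2 (θ, false) e
    · rw [indicator_of_notMem e]; exact k false θ e
  have : ∀ T x, ∃ x', Cl F T → h x' = T.indicator (h x) := fun T x => by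
    by_cases e : Cl F T
    · obtain ⟨x', -, -, k, -⟩ := key T e x x rfl
      exact ⟨x', fun _ => k⟩
    · exact ⟨x, fun k => absurd k e⟩
  choose R hR using this
  refine ⟨F, R, fun l => countable_iUnion fun b => (D2 _).biUnion fun d _ => (hs _).union (hs _),
    fun T hT => ⟨fun x => hR T x hT, fun x y e => ?_⟩⟩
  obtain ⟨x', y', a1, a2, a3⟩ := key T hT x y e
  rwa [hi ((hR T x hT).trans a2.symm), hi ((hR T y hT).trans a3.symm)]

theorem Rc (hc : Continuous h) (hi : Function.Injective h) {T : Set Γ} {r : X → X}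
    (hr : ∀ x, h (r x) = T.indicator (h x)) : Continuous r :=
  (hc.isClosedEmbedding hi).isInducing.continuous_iff.2 (continuous_pi fun θ => by
    by_cases e : θ ∈ T
    · simp only [Function.comp_apply, hr, indicator_of_mem e]
      fun_prop
    · simp only [Function.comp_apply, hr, indicator_of_notMem e]
      fun_prop)

omit [TopologicalSpace X] [CompactSpace X] in
theorem RY {T : Set Γ} {x y : X} (hr : h y = T.indicator (h x)) : y ∈ Y h T :=
  fun θ hθ => by rw [hr, indicator_of_notMem hθ]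

omit [TopologicalSpace X] [CompactSpace X] in
theorem RI (hi : Function.Injective h) {T : Set Γ} {x y : X} (hr : h y = T.indicator (h x))
    (hx : x ∈ Y h T) : y = x := hi (hr.trans (funext fun θ => by
  by_cases e : θ ∈ T
  · exact indicator_of_mem e _
  · rw [indicator_of_notMem e, hx θ e]))

omit [TopologicalSpace X] [CompactSpace X] in
theorem Ym {A B : Set Γ} (e : A ⊆ B) : Y h A ⊆ Y h B := fun _ hx θ hθ => hx θ fun h => hθ (e h)

theorem lim (hc : Continuous h) (hi : Function.Injective h) (hπ : Continuous π) {W : Type}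
    [LinearOrder W] {T : W → Set Γ} (hT : Monotone T) {I : Set W} (hI : I.Nonempty) {u v : W → X}
    {x y x' y' : X} (hu : ∀ a, h (u a) = (T a).indicator (h x))
    (hv : ∀ a, h (v a) = (T a).indicator (h y)) (hx : h x' = (⋃ b ∈ I, T b).indicator (h x))
    (hy : h y' = (⋃ b ∈ I, T b).indicator (h y)) (e : ∀ a ∈ I, π (u a) = π (v a)) :
    π x' = π y' := by
  have := hI.to_subtype
  have key : ∀ {u : W → X} {x x' : X}, (∀ a, h (u a) = (T a).indicator (h x)) →
      h x' = (⋃ b ∈ I, T b).indicator (h x) → Tendsto (fun b : I => π (u b)) atTop (𝓝 (π x')) := by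
    intro u x x' hu hx
    refine (hπ.tendsto _).comp ((hc.isClosedEmbedding hi).isInducing.tendsto_nhds_iff.2
      (tendsto_pi_nhds.2 fun θ => tendsto_const_nhds.congr' ?_))
    by_cases e : θ ∈ ⋃ b ∈ I, T b
    · obtain ⟨k, k1, k2⟩ := mem_iUnion₂.1 e
      refine (eventually_ge_atTop (⟨k, k1⟩ : I)).mono fun n hn => ?_
      simp only [Function.comp_apply, hu, hx, indicator_of_mem e, indicator_of_mem (hT hn k2)]
    · refine .of_forall fun n => ?_
      simp only [Function.comp_apply, hu, hx, indicator_of_notMem e,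
        indicator_of_notMem fun k => e (mem_iUnion₂.2 ⟨n.1, n.2, k⟩)]
  exact tendsto_nhds_unique (key hu hx) ((key hv hy).congr fun b => (e b b.2).symm)

theorem lev {W : Type} [LinearOrder W] {T : W → Set Γ} {θ : Γ} {a b : W} (h1 : θ ∈ T a)
    (h2 : θ ∉ ⋃ c ∈ Iio a, T c) (h3 : θ ∈ T b) (h4 : θ ∉ ⋃ c ∈ Iio b, T c) : a = b :=
  le_antisymm (not_lt.1 fun e => h2 (mem_iUnion₂.2 ⟨b, e, h3⟩))
    (not_lt.1 fun e => h4 (mem_iUnion₂.2 ⟨a, e, h1⟩))

omit [TopologicalSpace X] [CompactSpace X] in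
theorem dif {S T : Set Γ} (e : S ⊆ T) {x y z : X} (hy : h y = T.indicator (h x))
    (hz : h z = S.indicator (h x)) {θ : Γ} (k : h y θ ≠ h z θ) :
    θ ∈ T ∧ θ ∉ S ∧ h y θ - h z θ = h x θ := by
  rw [hy, hz] at k ⊢
  by_cases a : θ ∈ S
  · exact absurd (by rw [indicator_of_mem a, indicator_of_mem (e a)]) k
  by_cases b : θ ∈ T
  · exact ⟨b, a, by rw [indicator_of_mem b, indicator_of_notMem a, sub_zero]⟩
  · exact absurd (by rw [indicator_of_notMem a, indicator_of_notMem b]) k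

theorem base [CompactSpace Z] (hc : Continuous h) (hi : Function.Injective h) (hπ : Continuous π)
    {T : Set Γ} (hT : T.Countable) : ∃ G : Set C(Z, ℝ), G.Countable ∧ Sp G (π '' Y h T) := by
  have := Ys hc hi hT
  obtain ⟨G, G1, G2⟩ := isOpen_iUnion_countable (fun g : C(Z, ℝ) =>
    {p : Y h T × Y h T | g (π p.1) ≠ g (π p.2)}) fun g => isOpen_ne_fun (by fun_prop) (by fun_prop)
  refine ⟨G, G1, ?_⟩
  rintro _ ⟨x, hx, rfl⟩ _ ⟨y, hy, rfl⟩ e
  refine spU _ trivial _ trivial fun g _ => not_not.1 fun k => ?_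
  obtain ⟨f, f1, f2⟩ := mem_iUnion₂.1 (G2.symm ▸ mem_iUnion.2 ⟨g, k⟩ :
    (⟨x, hx⟩, ⟨y, hy⟩) ∈ ⋃ g ∈ G, {p : Y h T × Y h T | g (π p.1) ≠ g (π p.2)})
  exact f2 (e f f1)

theorem str2 (hc : Continuous h) (hi : Function.Injective h) (hs : ∀ x, {θ | h x θ ≠ 0}.Countable)
    (hπ : Continuous π) (hp : Function.Surjective π) :
    ∃ (F : List Γ → Set Γ) (R : Set Γ → X → X) (ρ : ∀ T, Cl F T → C(Z, Z)), (∀ l, (F l).Countable) ∧
      ∀ T hT, (∀ x, h (R T x) = T.indicator (h x)) ∧ ∀ x, ρ T hT (π x) = π (R T x) := by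
  obtain ⟨F, R, F1, hR⟩ := str hc hi hs hπ
  have k : ∀ T, Cl F T → ∀ x, π (R T (Function.surjInv hp (π x))) = π (R T x) := fun T hT x =>
    (hR T hT).2 _ _ (Function.surjInv_eq hp _)
  exact ⟨F, R, fun T hT => ⟨fun z => π (R T (Function.surjInv hp z)),
    (hπ.isClosedMap.isQuotientMap hπ hp).continuous_iff.2 ((hπ.comp (Rc hc hi (hR T hT).1)).congr
      fun x => (k T hT x).symm)⟩, F1, fun T hT => ⟨(hR T hT).1, k T hT⟩⟩

theorem corZ (hc : Continuous h) (hi : Function.Injective h) (hs : ∀ x, {θ | h x θ ≠ 0}.Countable)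
    (hπ : Continuous π) (hp : Function.Surjective π) : ∃ (Γ : Type) (h : Z → Γ → ℝ),
      IsEmbedding h ∧ ∀ x, {θ | h x θ ≠ 0}.Countable := by
  have : CompactSpace Z := ⟨hp.range_eq ▸ isCompact_range hπ⟩
  obtain ⟨F, R, ρ, F1, hR⟩ := str2 hc hi hs hπ hp
  obtain ⟨G, G1, G2⟩ := ind2 F1 (fun T => Cor (π '' Y h T)) (fun T hT => (base hc hi hπ hT).imp
    fun G hG => ⟨fun z _ => hG.1.mono fun g hg => hg.1, hG.2⟩) (fun W _ _ _ T m c P => by
      have mm : ∀ a, ⋃ b ∈ Iio a, T b ⊆ T a := fun a => iUnion₂_subset fun b hb => m (le_of_lt hb)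
      refine step (fun a => ρ _ (c a)) (fun a e => ρ _ (ClU m c (I := Iio a) e)) _
        (fun a => hp.forall.2 fun x => ((hR _ _).2 x).symm ▸ mem_image_of_mem π
          (RY ((hR _ (c a)).1 x)))
        (fun a e => hp.forall.2 fun x => ((hR _ _).2 x).symm ▸ mem_image_of_mem π
          (Ym (mm a) (RY ((hR _ (ClU m c e)).1 x)))) P (hp.forall₂.2 fun x y a e k => ?_) ?_ ?_
      · rw [(hR _ _).2, (hR _ _).2]
        exact lim hc hi hπ m e (fun a => (hR _ (c a)).1 x) (fun a => (hR _ (c a)).1 y)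
          ((hR _ (ClU m c e)).1 x) ((hR _ (ClU m c e)).1 y) fun b hb =>
            ((hR _ _).2 x).symm.trans ((k b hb).trans ((hR _ _).2 y))
      · rintro _ ⟨x, hx, rfl⟩ _ ⟨y, hy, rfl⟩ k
        have e := ClU m c univ_nonempty
        rw [← biUnion_univ] at hx hy
        rw [← RI hi ((hR _ e).1 x) hx, ← RI hi ((hR _ e).1 y) hy]
        exact lim hc hi hπ m univ_nonempty (fun a => (hR _ (c a)).1 x) (fun a => (hR _ (c a)).1 y)
          ((hR _ e).1 x) ((hR _ e).1 y) fun b _ =>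
            ((hR _ _).2 x).symm.trans ((k b).trans ((hR _ _).2 y))
      · rintro _ ⟨x, -, rfl⟩
        refine ((hs x).biUnion (t := fun θ _ => {a | θ ∈ T a ∧ θ ∉ ⋃ c ∈ Iio a, T c}) fun θ _ =>
          Subsingleton.countable fun a ha b hb => lev ha.1 ha.2 hb.1 hb.2).mono ?_
        rintro a ⟨e, k⟩
        rw [(hR _ _).2, (hR _ _).2] at k
        obtain ⟨θ, hθ⟩ := Function.ne_iff.1 fun e => k (congrArg π (hi e))
        obtain ⟨a1, a2, a3⟩ := dif (mm a) ((hR _ (c a)).1 x) ((hR _ (ClU m c e)).1 x) hθ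
        exact mem_iUnion₂.2 ⟨θ, fun e => sub_ne_zero.2 hθ (a3.trans e), a1, a2⟩) univ fun _ _ => subset_univ _
  have e : ∀ z, z ∈ π '' Y h univ := hp.forall.2 fun x => ⟨x, fun θ hθ => absurd trivial hθ, rfl⟩
  exact ⟨G, fun x g => g.1 x, (Continuous.isClosedEmbedding (by fun_prop) fun x y k =>
    G2 x (e x) y (e y) fun g hg => congrFun k ⟨g, hg⟩).isEmbedding, fun x =>
      ((G1 x (e x)).preimage Subtype.val_injective).mono fun g hg => And.intro g.2 hg⟩

end Pool.Agent.H.MP_e9bccb
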