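import Pool.Agent.H.MP_e9bccb.D

set_option autoImplicit false
open Set Filter Topology TopologicalSpace
open scoped Cardinal Ordinal

namespace Pool.Agent.H.MP_e9bccb

open Pool.Agent.H.MP_d2b9e5 (Om)
open Pool.Agent.H.MP_28dc43 (bdd)
open Pool.Agent.H.MP_eb6644 (Y Yc Ys)

theorem otp {W : Type} [LinearOrder W] [WellFoundedLT W] : ∃ o : Set W → Om, ∀ A B : Set W,
    B.Countable → A ⊆ B → ∀ b ∈ B, A ⊆ Iio b → o A ≠ o B := by
  classical
  have k : ∀ A : Set W, A.Countable → typeLT A < (Cardinal.aleph 1).ord := fun A hA =>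
    Cardinal.lt_ord.2 (by
      rw [Ordinal.card_type]
      exact (cC le_rfl hA).trans_lt Cardinal.aleph0_lt_aleph_one)
  refine ⟨fun A => if e : A.Countable then Ordinal.ToType.mk ⟨typeLT A, mem_Iio.2 (k A e)⟩ else
    (bdd countable_empty).choose, fun A B hB h1 b hb h2 e => ?_⟩
  simp only [dif_pos hB, dif_pos (hB.mono h1)] at e
  refine absurd (congrArg Subtype.val (Ordinal.ToType.mk.injective e)) (ne_of_lt
    (lt_of_le_of_lt (b := typeLT (Iio (⟨b, hb⟩ : B))) ?_ (Ordinal.typein_lt_type _ _)))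
  exact (RelEmbedding.ofMonotone (r := fun x y : A => x < y) (s := fun x y : Iio (⟨b, hb⟩ : B) => x < y)
    (fun x => ⟨⟨x.1, h1 x.2⟩, h2 x.2⟩) fun _ _ h => h).ordinal_type_le

theorem ucol (W : Type) : ∃ c : Set W → Set ℕ, ∀ A B : Set W, B.Countable → A ⊆ B → c A = c B →
    A = B := by
  classical
  obtain ⟨_, _⟩ := exists_wellFoundedLT W
  obtain ⟨o, ho⟩ := otp (W := W)
  obtain ⟨i1⟩ : Nonempty ((ℕ → Set ℕ × Prop) ↪ Set ℕ) := (Cardinal.le_def _ _).1 (by simp)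
  obtain ⟨i2⟩ : Nonempty (Om × Set ℕ ↪ Set ℕ) := (Cardinal.le_def _ _).1 (by
    simpa using Cardinal.mul_le_of_le Cardinal.aleph0_le_continuum
      Cardinal.aleph_one_le_continuum le_rfl)
  let P : Set W → Prop := fun I => ∃ c : Set W → Set ℕ, ∀ A B : Set W, B.Countable → B ⊆ I →
    A ⊆ B → c A = c B → A = B
  have st : ∀ I : Set W, (∀ t ∈ I, P (Iio t)) → P I := by
    intro I hI
    choose! c hc using hI
    by_cases e : ∃ s ⊆ I, s.Countable ∧ ∀ a ∈ I, ∃ t ∈ s, a ≤ t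
    · obtain ⟨s, s1, s2, s3⟩ := e
      rcases s.eq_empty_or_nonempty with rfl | e
      · exact ⟨fun _ => ∅, fun A B _ h1 h2 _ => Subset.antisymm h2 fun b hb =>
          (s3 b (h1 hb)).elim fun _ h => h.1.elim⟩
      obtain ⟨t, rfl⟩ := s2.exists_eq_range e
      refine ⟨fun A => i1 fun n => (c (t n) (A ∩ Iio (t n)), t n ∈ A), fun A B h0 h1 h2 h3 =>
        Subset.antisymm h2 fun b hb => ?_⟩
      obtain ⟨_, ⟨n, rfl⟩, hn⟩ := s3 b (h1 hb)
      obtain ⟨e1, e2⟩ := Prod.ext_iff.1 (congrFun (i1.injective h3) n)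
      rcases hn.eq_or_lt with rfl | hn
      · exact (show (t n ∈ A) = (t n ∈ B) from e2) ▸ hb
      · exact ((hc _ (s1 ⟨n, rfl⟩) _ _ (h0.mono inter_subset_left) inter_subset_right
          (inter_subset_inter_left _ h2) e1).ge ⟨hb, hn⟩).1
    · push Not at e
      have : ∀ A : Set W, A.Countable → A ⊆ I → ∃ t, (t ∈ I ∧ A ⊆ Iio t) ∧
          ∀ u, u ∈ I ∧ A ⊆ Iio u → ¬ u < t := fun A h1 h2 =>
        (wellFounded_lt (α := W)).has_min {t | t ∈ I ∧ A ⊆ Iio t} (e A h2 h1)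
      choose s s1 s2 using this
      refine ⟨fun A => if e : A.Countable ∧ A ⊆ I then i2 (o A, c (s A e.1 e.2) A) else ∅,
        fun A B h0 h1 h2 h3 => ?_⟩
      simp only [dif_pos (And.intro h0 h1), dif_pos (And.intro (h0.mono h2) (h2.trans h1))] at h3
      obtain ⟨e1, e2⟩ := Prod.ext_iff.1 (i2.injective h3)
      have e3 : s A (h0.mono h2) (h2.trans h1) = s B h0 h1 := le_antisymm (not_lt.1 (s2 _ _ _ _
        ⟨(s1 _ _ _).1, h2.trans (s1 _ _ _).2⟩)) (not_lt.1 (s2 _ _ _ _ ⟨(s1 _ _ _).1, fun b hb =>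
          not_le.1 fun k => ho A B h0 h2 b hb (fun a ha => lt_of_lt_of_le ((s1 _ _ _).2 ha) k) e1⟩))
      exact hc _ (s1 B h0 h1).1 A B h0 (s1 _ _ _).2 h2 (by rw [← e3] at e2 ⊢; exact e2)
  have : ∀ t, P (Iio t) := fun t => by
    induction t using WellFoundedLT.induction with
    | ind t ih => exact st _ ih
  obtain ⟨c, hc⟩ := st univ fun t _ => this t
  exact ⟨c, fun A B h1 => hc A B h1 (subset_univ _)⟩

variable {X Γ Λ : Type} [TopologicalSpace X] [CompactSpace X] [T2Space X]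

noncomputable def sg : C(ℝ, ℝ) := ⟨fun s => s / (1 + |s|), by
  refine continuous_id.div (by fun_prop) fun s => by positivity⟩

theorem sg1 (s : ℝ) : |sg s| ≤ 1 := by
  change |s / (1 + |s|)| ≤ 1
  rw [abs_div, abs_of_pos (show 0 < 1 + |s| by positivity), div_le_one (by positivity)]
  linarith

theorem sg2 (s : ℝ) : |sg s| ≤ |s| := by
  change |s / (1 + |s|)| ≤ |s|
  rw [abs_div, abs_of_pos (show 0 < 1 + |s| by positivity)]
  exact div_le_self (abs_nonneg s) (by linarith [abs_nonneg s])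

theorem sg3 : Function.Injective sg := fun s t (e : s / (1 + |s|) = t / (1 + |t|)) => by
  rw [div_eq_div_iff (by positivity) (by positivity)] at e
  rcases abs_cases s with a | a <;> rcases abs_cases t with b | b <;> rw [a.1, b.1] at e <;>
    nlinarith [a.2, b.2]

theorem thU {h : X → Γ → ℝ} (hc : Continuous h) (hi : Function.Injective h)
    (hs : ∀ x, {θ | h x θ ≠ 0}.Countable) (i : Λ → Γ)
    (hh : ∀ (T : Set Γ) x y, h y = T.indicator (h x) → (∀ γ, h y (i γ) = h x (i γ)) → y = x) :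
    ∃ Φ : List (Option Λ) × ℕ → C(X, ℝ), (∀ x y, (∀ l, Φ l x = Φ l y) → x = y) ∧
      (∀ l x, |Φ l x| ≤ 1) ∧ ∀ l x γ, some γ ∈ l.1 → |Φ l x| ≤ |h x (i γ)| := by
  classical
  obtain ⟨F, R, F1, hR⟩ := str hc hi hs continuous_id
  obtain ⟨Φ, p1, -, p2⟩ := ind2 F1 (fun T => ∃ Φ : List (Option Λ) × ℕ → C(X, ℝ),
    (∀ x ∈ Y h T, ∀ y ∈ Y h T, (∀ l, Φ l x = Φ l y) → x = y) ∧ Φ ([], 0) = 1 ∧
      (∀ l x, |Φ l x| ≤ 1) ∧ ∀ l x γ, some γ ∈ l.1 → |Φ l x| ≤ |h x (i γ)|) (fun T hT => by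
    obtain ⟨G, G1, G2⟩ := base hc hi continuous_id hT
    obtain ⟨g, hg⟩ := (G1.insert 0).exists_eq_range (insert_nonempty _ _)
    refine ⟨fun l => if l.1 = [] then (if l.2 = 0 then 1 else sg.comp (g (l.2 - 1))) else 0,
      fun x hx y hy e => G2 x ⟨x, hx, rfl⟩ y ⟨y, hy, rfl⟩ fun f hf => ?_, by simp,
      fun l x => ?_, fun l x γ e => by simp [List.ne_nil_of_mem e]⟩
    · obtain ⟨n, rfl⟩ : f ∈ range g := hg ▸ mem_insert_of_mem _ hf
      exact sg3 (by simpa using e ([], n + 1))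
    · dsimp only
      split_ifs <;> simp [sg1]) (fun W _ _ _ T m c P => by
    choose Ψ q1 q2 q3 q4 using P
    obtain ⟨a0, -, h0⟩ := (wellFounded_lt (α := W)).has_min univ univ_nonempty
    have : ∀ θ, ∃ a, ∀ b, θ ∈ T b → θ ∉ ⋃ c ∈ Iio b, T c → a = b := fun θ => by
      by_cases e : ∃ a, θ ∈ T a ∧ θ ∉ ⋃ c ∈ Iio a, T c
      · obtain ⟨a, a1, a2⟩ := e
        exact ⟨a, fun b => lev a1 a2⟩
      · exact ⟨a0, fun b b1 b2 => absurd ⟨b, b1, b2⟩ e⟩
    choose v hv using this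
    let r : W → C(X, X) := fun a => ⟨_, Rc hc hi (hR _ (c a)).1⟩
    let w : Λ → C(X, ℝ) := fun γ => sg.comp ⟨fun x => h x (i γ), by fun_prop⟩
    have r1 : ∀ a x θ, |h (r a x) θ| ≤ |h x θ| := fun a x θ => by
      rw [show h (r a x) = _ from (hR _ (c a)).1 x, indicator_apply]
      split_ifs <;> simp
    refine ⟨fun l => l.1.casesOn 1 fun o t => o.casesOn ((Ψ a0 (t, l.2)).comp (r a0)) fun γ =>
      w γ * (Ψ (v (i γ)) (t, l.2)).comp (r (v (i γ))), fun x hx y hy e => ?_, rfl, ?_, ?_⟩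
    · have mm : ∀ a, ⋃ b ∈ Iio a, T b ⊆ T a := fun a => iUnion₂_subset fun b hb => m (le_of_lt hb)
      have k : ∀ a, r a x = r a y := fun a => by
        induction a using WellFoundedLT.induction with
        | ind a ih =>
          refine q1 a _ (RY ((hR _ (c a)).1 x)) _ (RY ((hR _ (c a)).1 y)) fun l => ?_
          by_cases k : ∃ b, b < a
          swap
          · obtain rfl : a = a0 := le_antisymm (not_lt.1 fun h => k ⟨_, h⟩) (not_lt.1 (h0 a trivial))
            exact e (none :: l.1, l.2)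
          have e1 := ClU m c (I := Iio a) k
          have e2 := lim hc hi continuous_id m k (fun a => (hR _ (c a)).1 x)
            (fun a => (hR _ (c a)).1 y) ((hR _ e1).1 x) ((hR _ e1).1 y) ih
          have e3 : ∀ γ, h x (i γ) = h y (i γ) := fun γ => sg3 (by
            have e5 : sg (h x (i γ)) * Ψ (v (i γ)) ([], 0) (r (v (i γ)) x) =
              sg (h y (i γ)) * Ψ (v (i γ)) ([], 0) (r (v (i γ)) y) := e ([some γ], 0)
            simpa [q2] using e5)
          by_cases e4 : ∃ γ, i γ ∈ T a ∧ i γ ∉ ⋃ c ∈ Iio a, T c ∧ h x (i γ) ≠ 0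
          · obtain ⟨γ, a1, a2, a3⟩ := e4
            have e5 : sg (h x (i γ)) * Ψ (v (i γ)) l (r (v (i γ)) x) =
              sg (h y (i γ)) * Ψ (v (i γ)) l (r (v (i γ)) y) := e (some γ :: l.1, l.2)
            rw [← e3, hv _ a a1 a2] at e5
            exact mul_left_cancel₀ (fun k => a3 (sg3 (k.trans (by simp [sg])))) e5
          · have e5 : ∀ z, (∀ γ, h z (i γ) = h x (i γ)) → R (⋃ c ∈ Iio a, T c) z = r a z :=
              fun z hz => hh (⋃ c ∈ Iio a, T c) _ _ (by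
                rw [(hR _ e1).1, show h (r a z) = _ from (hR _ (c a)).1 z, indicator_indicator,
                  inter_eq_left.2 (mm a)]) fun γ => not_not.1 fun k => by
                obtain ⟨a1, a2, a3⟩ := dif (mm a) ((hR _ (c a)).1 z) ((hR _ e1).1 z) (Ne.symm k)
                exact e4 ⟨γ, a1, a2, fun e => sub_ne_zero.2 (Ne.symm k) (a3.trans ((hz γ).trans e))⟩
            exact congrArg (Ψ a l) ((e5 x fun _ => rfl).symm.trans (e2.trans
              (e5 y fun γ => (e3 γ).symm)))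
      have e := ClU m c univ_nonempty
      rw [← biUnion_univ] at hx hy
      rw [← RI hi ((hR _ e).1 x) hx, ← RI hi ((hR _ e).1 y) hy]
      exact lim hc hi continuous_id m univ_nonempty (fun a => (hR _ (c a)).1 x)
        (fun a => (hR _ (c a)).1 y) ((hR _ e).1 x) ((hR _ e).1 y) fun b _ => k b
    · rintro ⟨_ | ⟨_ | γ, t⟩, j⟩ x
      · simp
      · exact q3 _ _ _
      · exact (abs_mul _ _).trans_le (mul_le_one₀ (sg1 _) (abs_nonneg _) (q3 _ _ _))
    · rintro ⟨_ | ⟨_ | γ, t⟩, j⟩ x θ e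
      · simp at e
      · exact (q4 _ _ _ θ (by simpa using e)).trans (r1 _ _ _)
      · rcases List.mem_cons.1 e with e | e
        · obtain rfl := Option.some.inj e
          exact (abs_mul _ _).trans_le ((mul_le_of_le_one_right (abs_nonneg _) (q3 _ _ _)).trans
            (sg2 _))
        · exact (abs_mul _ _).trans_le ((mul_le_of_le_one_left (abs_nonneg _) (sg1 _)).trans
            ((q4 _ _ _ θ e).trans (r1 _ _ _)))) univ fun _ _ => subset_univ _
  exact ⟨Φ, fun x y => p1 x (fun θ hθ => absurd trivial hθ) y fun θ hθ => absurd trivial hθ, p2⟩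

theorem splU (Q : (Γ : Type) → (X → Γ → ℝ) → Prop)
    (hQ : ∀ Γ f, Q Γ f → ∀ x, {θ | f x θ ≠ 0}.Countable)
    (hX : ∀ A : Set X, ∃ (Γ : Type) (f : X → Γ → ℝ), Continuous f ∧ Q Γ f ∧
      ∀ x y, f x = f y → x ∈ A → y ∈ A) :
    ∃ (Γ : ℕ → Type) (f : ∀ n, X → Γ n → ℝ), (∀ n, Q _ (f n)) ∧
      ∃ Φ : List (Option (Σ n, Γ n)) × ℕ → C(X, ℝ), (∀ x y, (∀ l, Φ l x = Φ l y) → x = y) ∧
        (∀ l x, |Φ l x| ≤ 1) ∧ ∀ l x γ, some γ ∈ l.1 → |Φ l x| ≤ |f γ.1 x γ.2| := by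
  classical
  obtain ⟨Γ0, e, e1, e2⟩ := corson (X := X) fun A =>
    let ⟨Γ, f, f1, f2, f3⟩ := hX A
    ⟨Γ, f, f1, hQ Γ f f2, f3⟩
  obtain ⟨c, hc⟩ := ucol Γ0
  choose Γ f f1 f2 f3 using fun n => hX {x | n ∈ c {θ | e x θ ≠ 0}}
  refine ⟨Γ, f, f2, thU (h := fun x => Sum.elim (e x) fun γ : Σ n, Γ n => f γ.1 x γ.2)
    (continuous_pi ?_) (fun x y k => e1.injective (funext fun θ => congrFun k (Sum.inl θ)))
    (fun x => (((e2 x).image Sum.inl).union ((countable_iUnion fun n => (hQ _ _ (f2 n) x).image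
      (Sigma.mk n)).image Sum.inr)).mono ?_) Sum.inr fun T x y k1 k2 => ?_⟩
  · rintro (θ | θ)
    · exact (continuous_apply θ).comp e1.continuous
    · exact (continuous_apply θ.2).comp (f1 θ.1)
  · rintro (θ | θ) hθ
    · exact Or.inl ⟨θ, hθ, rfl⟩
    · exact Or.inr ⟨θ, mem_iUnion.2 ⟨θ.1, θ.2, hθ, rfl⟩, rfl⟩
  · have k3 : ∀ n, f n y = f n x := fun n => funext fun γ => k2 ⟨n, γ⟩
    have k4 : ∀ θ, e y θ ≠ 0 → e y θ = e x θ := fun θ k => by
      have := congrFun k1 (Sum.inl θ)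
      rw [indicator_apply] at this
      split_ifs at this
      · exact this
      · exact absurd this k
    have k5 := hc {θ | e y θ ≠ 0} {θ | e x θ ≠ 0} (e2 x) (fun θ k e => k ((k4 θ k).trans e))
      (Set.ext fun n => ⟨f3 n y x (k3 n), f3 n x y (k3 n).symm⟩)
    refine e1.injective (funext fun θ => ?_)
    by_cases k : e y θ = 0
    · rw [k, not_not.1 fun k' => (k5.ge k' :) k]
    · exact k4 θ k

end Pool.Agent.H.MP_e9bccb
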