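import Pool.Agent.H.MP_e9bccb.E

set_option autoImplicit false
open Set Filter Topology TopologicalSpace

namespace Pool.Agent.H.MP_e9bccb

variable {X Γ : Type}

def Sk (J : Set (Set (X × ℝ))) (f : X → Γ → ℝ) : Prop := ∃ N : ℕ → Set Γ, ∀ P ∈ J, ∀ γ, ∃ n,
  γ ∈ N n ∧ ∀ p ∈ P, 0 < p.2 → {θ ∈ N n | p.2 ≤ |f p.1 θ|}.Finite

variable {J : Set (Set (X × ℝ))} {f : X → Γ → ℝ}

theorem Skm {ι : Type} [Countable ι] [Nonempty ι] (N : ι → Set Γ) (h : ∀ P ∈ J, ∀ γ, ∃ n,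
    γ ∈ N n ∧ ∀ p ∈ P, 0 < p.2 → {θ ∈ N n | p.2 ≤ |f p.1 θ|}.Finite) : Sk J f := by
  obtain ⟨s, hs⟩ := exists_surjective_nat ι
  exact ⟨N ∘ s, fun P hP γ => hs.exists.1 (h P hP γ)⟩

theorem Skc (hJ : ∀ p, ∃ P ∈ J, p ∈ P) (hf : Sk J f) (x : X) : {θ | f x θ ≠ 0}.Countable := by
  obtain ⟨N, hN⟩ := hf
  refine (countable_iUnion fun k : ℕ => countable_iUnion fun n => countable_iUnion fun e :
    {θ ∈ N n | 1 / ((k : ℝ) + 1) ≤ |f x θ|}.Finite => e.countable).mono fun θ hθ => ?_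
  obtain ⟨k, hk⟩ := exists_nat_one_div_lt (abs_pos.2 hθ)
  obtain ⟨P, P1, P2⟩ := hJ (x, 1 / ((k : ℝ) + 1))
  obtain ⟨n, n1, n2⟩ := hN P P1 θ
  exact mem_iUnion.2 ⟨k, mem_iUnion₂.2 ⟨n, n2 _ P2 Nat.one_div_pos_of_nat, n1, hk.le⟩⟩

theorem SkL (hf : Sk J f) {Φ : List (Option Γ) × ℕ → X → ℝ}
    (h : ∀ l x γ, some γ ∈ l.1 → |Φ l x| ≤ |f x γ|) : Sk J fun x l => Φ l x := by
  classical
  obtain ⟨N, hN⟩ := hf
  refine Skm (fun c : List ℕ × ℕ × ℕ => {l | l.1.length ≤ c.2.1 ∧ l.2 = c.2.2 ∧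
    ∀ γ, some γ ∈ l.1 → ∃ n ∈ c.1, γ ∈ N n}) fun P hP l => ?_
  choose k k1 k2 using hN P hP
  refine ⟨(l.1.reduceOption.map k, l.1.length, l.2), ⟨le_rfl, rfl, fun γ e =>
    ⟨k γ, List.mem_map_of_mem (List.reduceOption_mem_iff.2 e), k1 γ⟩⟩, fun p hp h0 => ?_⟩
  let B : Set (Option Γ) := insert none (some '' ⋃ γ ∈ {γ | γ ∈ l.1.reduceOption},
    {θ ∈ N (k γ) | p.2 ≤ |f p.1 θ|})
  have : Finite B := (((List.finite_toSet _).biUnion fun γ _ => k2 γ p hp h0).image _).insert _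
  refine ((((List.finite_length_le B l.1.length).image (List.map (↑))).prod
    (finite_singleton l.2))).subset ?_
  rintro ⟨t, j⟩ ⟨⟨a1, a2, a3⟩, a4⟩
  have : ∀ o ∈ t, o ∈ B := by
    rintro (_ | γ) e
    · exact Or.inl rfl
    · obtain ⟨_, b1, b2⟩ := a3 γ e
      obtain ⟨θ, b3, rfl⟩ := List.mem_map.1 b1
      exact Or.inr ⟨γ, mem_iUnion₂.2 ⟨θ, b3, b2, le_trans a4 (h _ _ γ e)⟩, rfl⟩
  exact ⟨⟨t.attachWith _ this, by simpa using a1, by simp⟩, a2⟩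

variable [TopologicalSpace X] [CompactSpace X] [T2Space X]

theorem splS (hJ : ∀ p, ∃ P ∈ J, p ∈ P) (hX : ∀ A : Set X, ∃ (Γ : Type) (f : X → Γ → ℝ),
    Continuous f ∧ Sk J f ∧ ∀ x y, f x = f y → x ∈ A → y ∈ A) : ∃ (Γ : Type) (h : X → Γ → ℝ),
      Continuous h ∧ Function.Injective h ∧ (∀ x θ, |h x θ| ≤ 1) ∧ Sk J h := by
  obtain ⟨Γ, f, f1, Φ, p1, p2, p3⟩ := splU (fun _ f => Sk J f) (fun _ _ => Skc hJ) hX
  choose N hN using f1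
  refine ⟨_, fun x l => Φ l x, by fun_prop, fun x y e => p1 x y (congrFun e), fun x l => p2 l x,
    SkL (f := fun x γ => f γ.1 x γ.2) (Skm (fun c : ℕ × ℕ => Sigma.mk c.1 '' N c.1 c.2)
      fun P hP γ => ?_) p3⟩
  obtain ⟨n, n1, n2⟩ := hN γ.1 P hP γ.2
  refine ⟨(γ.1, n), ⟨γ.2, n1, rfl⟩, fun p hp h0 => ((n2 p hp h0).image (Sigma.mk γ.1)).subset ?_⟩
  rintro _ ⟨⟨θ, a1, rfl⟩, a2⟩
  exact ⟨θ, ⟨a1, a2⟩, rfl⟩

def Eb (X : Type) [TopologicalSpace X] : Prop := ∃ (Γ : Type) (e : X → Γ → ℝ), IsEmbedding e ∧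
  (∀ x γ, |e x γ| ≤ 1) ∧ ∀ x, ∀ ε : ℝ, 0 < ε → {γ | ε ≤ |e x γ|}.Finite

omit [T2Space X] in
theorem skE (hc : Continuous f) (hi : Function.Injective f) (hb : ∀ x θ, |f x θ| ≤ 1)
    (hf : Sk {univ} f) : Eb X := by
  obtain ⟨N, hN⟩ := hf
  choose c c1 c2 using hN univ rfl
  have k : ∀ x θ, |f x θ / (c θ + 1)| = |f x θ| / (c θ + 1) := fun x θ => by
    rw [abs_div, abs_of_pos (a := (c θ : ℝ) + 1) (Nat.cast_add_one_pos (c θ))]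
  refine ⟨Γ, fun x θ => f x θ / (c θ + 1), (Continuous.isClosedEmbedding (f := fun x θ =>
    f x θ / (c θ + 1)) (by fun_prop) fun x y e => hi (funext fun θ => (div_left_inj' (Nat.cast_add_one_pos (c θ)).ne').1
      (congrFun e θ))).isEmbedding, fun x θ => ?_, fun x ε h0 => ?_⟩
  · rw [k]
    exact (div_le_self (abs_nonneg _) (by simp)).trans (hb x θ)
  · obtain ⟨m, hm⟩ := exists_nat_gt (1 / ε)
    refine ((finite_Iio m).biUnion (t := fun n => ⋃ _ : n ∈ range c, {θ ∈ N n | ε ≤ |f x θ|})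
      fun n _ => finite_iUnion ?_).subset fun θ hθ => ?_
    · rintro ⟨θ, rfl⟩
      exact c2 θ (x, ε) trivial h0
    · rw [mem_ofPred_eq, k, le_div_iff₀ (Nat.cast_add_one_pos (c θ))] at hθ
      rw [div_lt_iff₀ h0] at hm
      have := hb x θ
      have : (0 : ℝ) ≤ c θ := by positivity
      refine mem_iUnion₂.2 ⟨c θ, ?_, mem_iUnion.2 ⟨⟨θ, rfl⟩, c1 θ, by nlinarith⟩⟩
      have : (c θ : ℝ) < m := by nlinarith
      exact_mod_cast this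

theorem ebl (hX : ∀ A : Set X, ∃ (Γ : Type) (f : X → Γ → ℝ), Continuous f ∧
    (∀ x, ∀ ε : ℝ, 0 < ε → {γ | ε ≤ |f x γ|}.Finite) ∧ ∀ x y, f x = f y → x ∈ A → y ∈ A) :
    Eb X := by
  obtain ⟨Γ, h, h1, h2, h3, h4⟩ := splS (J := {univ}) (fun _ => ⟨_, rfl, trivial⟩) fun A =>
    let ⟨Γ, f, f1, f2, f3⟩ := hX A
    ⟨Γ, f, f1, ⟨fun _ => univ, fun _ _ _ => ⟨0, trivial, fun p _ h0 => by simpa using f2 _ _ h0⟩⟩, f3⟩
  exact skE h1 h2 h3 h4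

end Pool.Agent.H.MP_e9bccb
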