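import Pool.Agent.H.MP_e9bccb.F

set_option autoImplicit false
open Set Filter Topology TopologicalSpace

namespace Pool.Agent.H.MP_e9bccb

variable {X Γ : Type} [TopologicalSpace X]

theorem locc (S : Set (Set X)) (h : ∀ s ∈ S, IsOpen s) : ∃ κ : X → Set X, (∀ x, x ∈ κ x) ∧
    (∀ x ∈ ⋃₀ S, κ x ∈ S) ∧ {x | ∀ᶠ y in 𝓝 x, κ y = κ x} ∈ residual X := by
  classical
  have wf : WellFounded (WellOrderingRel (α := Set X)) := IsWellFounded.wf
  have : ∀ x, ∃ k, x ∈ k ∧ (x ∈ ⋃₀ S → k ∈ S ∧ ∀ s ∈ S, x ∈ s → ¬ WellOrderingRel s k) ∧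
      (x ∉ ⋃₀ S → k = univ) := fun x => by
    by_cases e : x ∈ ⋃₀ S
    · obtain ⟨k, k1, k2⟩ := wf.has_min {s ∈ S | x ∈ s} e
      exact ⟨k, k1.2, fun _ => ⟨k1.1, fun s a b => k2 s ⟨a, b⟩⟩, fun k => absurd e k⟩
    · exact ⟨univ, trivial, fun k => absurd k e, fun _ => rfl⟩
  choose κ k1 k2 k3 using this
  refine ⟨κ, k1, fun x hx => (k2 x hx).1, residual_of_dense_open (isOpen_iff_mem_nhds.2 fun x hx =>
    (eventually_eventually_nhds.2 hx).mp (hx.mono fun y e k => k.mono fun z e' => e'.trans e.symm))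
      (dense_iff_inter_open.2 fun U hU ⟨x, hx⟩ => ?_)⟩
  by_cases e : {s ∈ S | (U ∩ s).Nonempty}.Nonempty
  · obtain ⟨m, ⟨m1, y, hy⟩, m2⟩ := wf.has_min _ e
    have : ∀ z ∈ U ∩ m, κ z = m := fun z hz =>
      let ⟨a, b⟩ := k2 z ⟨m, m1, hz.2⟩
      ((trichotomous_of WellOrderingRel (κ z) m).resolve_left (m2 _ ⟨a, z, hz.1, k1 z⟩)).resolve_right
        (b m m1 hz.2)
    exact ⟨y, hy.1, mem_of_superset ((hU.inter (h m m1)).mem_nhds hy) fun z hz =>
      (this z hz).trans (this y hy).symm⟩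
  · have : ∀ z ∈ U, κ z = univ := fun z hz => k3 z fun ⟨s, a, b⟩ => e ⟨s, a, z, hz, b⟩
    exact ⟨x, hx, mem_of_superset (hU.mem_nhds hx) fun z hz => (this z hz).trans (this x hx).symm⟩

theorem dmet [CompactSpace X] [T2Space X] {h : X → Γ → ℝ} (hc : Continuous h)
    (hi : Function.Injective h) (hs : Sk (range singleton) h) :
    ∃ D : Set X, Dense D ∧ MetrizableSpace D := by
  classical
  obtain ⟨N, hN⟩ := hs
  choose κ k1 k2 k3 using fun c : ℕ × ℕ => locc {s | IsOpen s ∧ ∀ x ∈ s, ∀ y ∈ s, ∀ θ ∈ N c.1,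
    |h x θ - h y θ| ≤ 2 * (1 / ((c.2 : ℝ) + 1))} fun s hs => hs.1
  let C : ℕ × ℕ × ℕ → Set X := fun c => {x | ∀ t : Finset Γ, (∀ θ ∈ t, θ ∈ N c.1) →
    (∀ θ ∈ t, 1 / ((c.2.1 : ℝ) + 1) < |h x θ|) → t.card ≤ c.2.2}
  have cC : ∀ c, IsClosed (C c) := fun c => by
    simp only [C]
    rw [ofPred_forall]
    refine isClosed_iInter fun t => isClosed_imp isOpen_const (isClosed_imp ?_ isClosed_const)
    simp only [ofPred_forall]
    exact isOpen_biInter_finset fun θ _ => isOpen_lt continuous_const (by fun_prop)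
  let D := (⋂ c, interior (C c) ∪ (C c)ᶜ) ∩ ⋂ c, {x | ∀ᶠ y in 𝓝 x, κ c y = κ c x}
  refine ⟨D, dense_of_mem_residual (inter_mem (countable_iInter_mem.2 fun c =>
    residual_of_dense_open (isOpen_interior.union (cC c).isOpen_compl) fun x => by
      rw [closure_union, closure_compl]
      exact (em _).imp_left (subset_closure ·)) (countable_iInter_mem.2 k3)), ?_⟩
  letI : TopologicalSpace (Set X) := ⊥
  have : DiscreteTopology (Set X) := ⟨rfl⟩
  have : IsInducing fun (x : D) c => κ c x := isInducing_iff_nhds.2 fun x => le_antisymm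
    (tendsto_iff_comap.1 (tendsto_pi_nhds.2 fun c => tendsto_const_nhds.congr'
      ((continuous_subtype_val.tendsto x).eventually ((mem_iInter.1 x.2.2 c).mono fun _ => Eq.symm))))
    (tendsto_id'.1 <| (((hc.isClosedEmbedding hi).isInducing.comp
      IsInducing.subtypeVal).tendsto_nhds_iff (f := id)).2 (tendsto_pi_nhds.2 fun γ => Metric.tendsto_nhds.2 fun ε h0 => by
        obtain ⟨k, hk⟩ := exists_nat_one_div_lt (half_pos h0)
        have h1 : (0 : ℝ) < 1 / ((k : ℝ) + 1) := Nat.one_div_pos_of_nat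
        obtain ⟨n, n1, n2⟩ := hN _ ⟨(x.1, 1 / ((k : ℝ) + 1)), rfl⟩ γ
        obtain ⟨t, ht⟩ := ((n2 _ rfl h1).subset (t := {θ ∈ N n | 1 / ((k : ℝ) + 1) < |h x θ|})
          fun θ hθ => And.intro hθ.1 hθ.2.le).exists_finset_coe
        have ht : ∀ θ, θ ∈ t ↔ θ ∈ N n ∧ 1 / ((k : ℝ) + 1) < |h x θ| := Set.ext_iff.1 ht
        have e : x.1 ∈ interior (C (n, k, t.card)) := (mem_iInter.1 x.2.1 _).resolve_right
          (not_not.2 fun s s1 s2 => Finset.card_le_card fun θ hθ => (ht θ).2 ⟨s1 θ hθ, s2 θ hθ⟩)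
        let s := interior (C (n, k, t.card)) ∩ ⋂ θ ∈ t, {y | 1 / ((k : ℝ) + 1) < |h y θ| ∧
          |h y θ - h x θ| < 1 / ((k : ℝ) + 1)}
        have s1 : ∀ y ∈ s, ∀ θ ∈ N n, θ ∉ t → |h y θ| ≤ 1 / ((k : ℝ) + 1) := fun y hy θ a b =>
          not_lt.1 fun e => by
            have := interior_subset hy.1 (insert θ t) (Finset.forall_mem_insert _ _ _ |>.2
              ⟨a, fun θ hθ => ((ht θ).1 hθ).1⟩) (Finset.forall_mem_insert _ _ _ |>.2
                ⟨e, fun θ hθ => (mem_iInter₂.1 hy.2 θ hθ).1⟩)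
            simp [Finset.card_insert_of_notMem b] at this
        have s2 := k2 (n, k) x ⟨s, ⟨isOpen_interior.inter (isOpen_biInter_finset fun θ _ =>
          IsOpen.and (isOpen_lt continuous_const (by fun_prop)) (isOpen_lt (by fun_prop)
            continuous_const)), fun y hy z hz θ hθ => by
          by_cases b : θ ∈ t
          · linarith [abs_sub_le (h y θ) (h x θ) (h z θ), abs_sub_comm (h x θ) (h z θ),
              (mem_iInter₂.1 hy.2 θ b).2, (mem_iInter₂.1 hz.2 θ b).2]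
          · linarith [abs_sub (h y θ) (h z θ), s1 y hy θ hθ b, s1 z hz θ hθ b]⟩,
          e, mem_iInter₂.2 fun θ hθ => ⟨((ht θ).1 hθ).2, by simpa using h1⟩⟩
        refine mem_of_superset (preimage_mem_comap ((continuous_apply (n, k)).tendsto _
          (mem_nhds_discrete.2 (mem_singleton _)))) fun y hy => ?_
        have hy : κ (n, k) y = κ (n, k) x := hy
        have := s2.2 y (hy ▸ k1 _ _) x (k1 _ _) γ n1
        exact (Real.dist_eq _ _).trans_lt (by dsimp at this ⊢; linarith)))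
  have := this.pseudoMetrizableSpace
  infer_instance

end Pool.Agent.H.MP_e9bccb
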