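import Pool.Agent.H.MP_e9bccb.I

set_option autoImplicit false
open Set Filter Topology TopologicalSpace

namespace Pool.Agent.H.MP_e9bccb

variable {Z Z' ι : Type} [TopologicalSpace Z] [TopologicalSpace Z'] {A : Set Z}

def LS (A : Set Z) : Prop := ∃ N : ℕ → Set Z, ∀ z ∈ A, ∀ G : Filter Z,
  (∀ n, z ∈ N n → (G ⊓ 𝓟 (N n)).NeBot) → ∃ w ∈ A, ClusterPt w G

theorem LSm [Countable ι] (N : ι → Set Z) (h : ∀ z ∈ A, ∀ G : Filter Z,
    (∀ n, z ∈ N n → (G ⊓ 𝓟 (N n)).NeBot) → ∃ w ∈ A, ClusterPt w G) : LS A := by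
  obtain ⟨s, hs⟩ := exists_surjective_nat (Option ι)
  refine ⟨fun n => (s n).elim ∅ N, fun z hz G k => h z hz G fun i hi => ?_⟩
  obtain ⟨n, hn⟩ := hs (some i)
  have := k n
  simp only [hn, Option.elim_some] at this
  exact this hi

omit [TopologicalSpace Z] in
theorem fip {N : ι → Set Z} {z : Z} {G : Filter Z} (h : ∀ s : Finset ι, z ∈ ⋂ i ∈ s, N i →
    (G ⊓ 𝓟 (⋂ i ∈ s, N i)).NeBot) : ∃ U : Ultrafilter Z, ↑U ≤ G ∧ ∀ i, z ∈ N i → N i ∈ U := by
  have : (G ⊓ ⨅ i, ⨅ _ : z ∈ N i, 𝓟 (N i)).NeBot := inf_neBot_iff.2 fun s hs t ht => by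
    obtain ⟨I, I1, I2, I3⟩ := mem_biInf_principal.1 ht
    lift I to Finset ι using I1
    exact inf_neBot_iff.1 (h I (mem_iInter₂.2 I2)) hs I3
  obtain ⟨U, hU⟩ := Ultrafilter.exists_le (G ⊓ ⨅ i, ⨅ _ : z ∈ N i, 𝓟 (N i))
  exact ⟨U, hU.trans inf_le_left, fun i hi => le_principal_iff.1 (hU.trans (inf_le_right.trans
    (iInf₂_le i hi)))⟩

theorem ofU [Countable ι] (N : ι → Set Z) (h : ∀ z ∈ A, ∀ U : Ultrafilter Z,
    (∀ i, z ∈ N i → N i ∈ U) → ∃ w ∈ A, ↑U ≤ 𝓝 w) : LS A :=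
  LSm (fun s : Finset ι => ⋂ i ∈ s, N i) fun z hz _ k =>
    let ⟨U, U1, U2⟩ := fip k
    (h z hz U U2).imp fun _ => And.imp_right fun e => (ClusterPt.of_le_nhds e).mono U1

theorem toU (h : LS A) : ∃ N : ℕ → Set Z, ∀ z ∈ A, ∀ U : Ultrafilter Z,
    (∀ i, z ∈ N i → N i ∈ U) → ∃ w ∈ A, ↑U ≤ 𝓝 w :=
  h.imp fun _ hN z hz U k => (hN z hz U fun n hn => (inf_of_le_left (le_principal_iff.2
    (k n hn))).symm ▸ U.neBot).imp fun _ => And.imp_right Ultrafilter.clusterPt_iff.1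

theorem LS.img (h : LS A) {f : Z → Z'} (hf : ContinuousOn f A) : LS (f '' A) := by
  obtain ⟨N, hN⟩ := h
  refine ⟨fun n => f '' (A ∩ N n), ?_⟩
  rintro _ ⟨z, hz, rfl⟩ G k
  obtain ⟨w, w1, w2⟩ := hN z hz (comap f G ⊓ 𝓟 A) fun n hn => by
    have := k n ⟨z, ⟨hz, hn⟩, rfl⟩
    rwa [← map_principal, ← Filter.push_pull', map_neBot_iff, ← inf_principal, ← inf_assoc] at this
  refine ⟨f w, ⟨w, w1, rfl⟩, (w2.neBot.map f).mono (le_inf (le_trans (map_mono ?_) (hf w w1)) ?_)⟩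
  · exact inf_le_inf_left _ inf_le_right
  · exact (map_mono (inf_le_right.trans inf_le_left)).trans map_comap_le

theorem LS.pi [Countable ι] (h : LS A) : LS (univ.pi fun _ : ι => A) := by
  obtain ⟨N, hN⟩ := toU h
  refine ofU (fun c : ι × ℕ => {F | F c.1 ∈ N c.2}) fun F hF U k => ?_
  choose w w1 w2 using fun i => hN _ (hF i trivial) (U.map fun F : ι → Z => F i) fun n => k (i, n)
  exact ⟨w, fun i _ => w1 i, tendsto_id'.1 (tendsto_pi_nhds.2 w2)⟩

theorem LS.cls (h : LS A) {C : Set Z} (hC : IsClosed C) : LS (A ∩ C) := by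
  obtain ⟨N, hN⟩ := h
  refine ⟨fun n => C ∩ N n, fun z hz G k => ?_⟩
  obtain ⟨w, w1, w2⟩ := hN z hz.1 (G ⊓ 𝓟 C) fun n hn => by
    rw [inf_assoc, inf_principal]
    exact k n ⟨hz.2, hn⟩
  exact ⟨w, ⟨w1, hC.closure_subset (w2.mem_closure_of_mem _ (mem_inf_of_right (mem_principal_self C)))⟩,
    w2.mono inf_le_left⟩

theorem LS.un [Countable ι] {B : ι → Set Z} (h : ∀ i, LS (B i)) : LS (⋃ i, B i) := by
  choose N hN using h
  refine LSm (fun c : ι × ℕ => N c.1 c.2) fun z hz G k => ?_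
  obtain ⟨i, hi⟩ := mem_iUnion.1 hz
  exact (hN i z hi G fun n => k (i, n)).imp fun w => And.imp_left fun e => mem_iUnion.2 ⟨i, e⟩

theorem LS.cpt (h : IsCompact A) : LS A := ⟨fun _ => A, fun _ hz G k =>
  have := k 0 hz
  (h (f := G ⊓ 𝓟 A) inf_le_right).imp fun _ => And.imp_right fun e => e.mono inf_le_left⟩

theorem LS.pre {e : Z → Z'} (he : IsInducing e) (h : LS (range e)) : LS (univ : Set Z) := by
  obtain ⟨N, hN⟩ := h
  refine ⟨fun n => e ⁻¹' N n, fun z _ G k => ?_⟩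
  obtain ⟨_, ⟨w, rfl⟩, w2⟩ := hN _ ⟨z, rfl⟩ (map e G) fun n hn => by
    rw [← Filter.push_pull, map_neBot_iff, comap_principal]
    exact k n hn
  exact ⟨w, trivial, he.mapClusterPt_iff.1 w2⟩

theorem LS.clo [RegularSpace Z] (h : LS (univ : Set Z)) : ∃ N : ℕ → Set Z, (∀ n, IsClosed (N n)) ∧
    ∀ z, ∀ U : Ultrafilter Z, (∀ i, z ∈ N i → N i ∈ U) →
      ∃ w, (∀ i, z ∈ N i → w ∈ N i) ∧ ↑U ≤ 𝓝 w := by
  obtain ⟨N, hN⟩ := h
  refine ⟨fun n => closure (N n), fun _ => isClosed_closure, fun z U k => ?_⟩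
  obtain ⟨w, -, hw⟩ := hN z trivial (U.1.bind 𝓝) fun n hn => inf_neBot_iff.2 fun s hs t ht => by
    obtain ⟨x, x1, x2⟩ := U.nonempty_of_mem (inter_mem (mem_bind'.1 hs) (k n (subset_closure hn)))
    exact (mem_closure_iff_nhds.1 x2 s x1).mono (inter_subset_inter_right _ ht)
  have : ↑U ≤ 𝓝 w := (closed_nhds_basis w).ge_iff.2 fun C hC => by_contra fun e => by
    have := clusterPt_iff_nonempty.1 hw hC.1 (V := Cᶜ) (mem_bind'.2 (mem_of_superset
      (U.compl_mem_iff_notMem.2 e) fun x hx => hC.2.isOpen_compl.mem_nhds hx))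
    simp at this
  exact ⟨w, fun i hi => isClosed_closure.mem_of_tendsto (f := id) this (k i hi), this⟩

def GN (Z : Type) [TopologicalSpace Z] : Prop := ∃ N : ℕ → Set Z, ∀ z, ∃ K, IsCompact K ∧ z ∈ K ∧
  ∀ U, IsOpen U → K ⊆ U → ∃ n, K ⊆ N n ∧ N n ⊆ U

theorem GN.ls (h : GN Z) : LS (univ : Set Z) := by
  obtain ⟨N, hN⟩ := h
  refine ⟨N, fun z _ G k => ?_⟩
  obtain ⟨K, k1, k2, k3⟩ := hN z
  by_contra e
  obtain ⟨s, s1, t, t1, e⟩ := Filter.disjoint_iff.1 (k1.disjoint_nhdsSet_left.2 fun w _ =>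
    disjoint_iff.2 (not_neBot.1 fun a : (𝓝 w ⊓ G).NeBot => e ⟨w, trivial, a⟩))
  obtain ⟨U, U1, U2, U3⟩ := mem_nhdsSet_iff_exists.1 s1
  obtain ⟨n, n1, n2⟩ := k3 U U1 U2
  exact (inf_neBot_iff.1 (k n (n1 k2)) t1 (n2.trans U3)).not_disjoint e.symm

theorem LS.gn [RegularSpace Z] (h : LS (univ : Set Z)) : GN Z := by
  obtain ⟨N, N1, hN⟩ := h.clo
  obtain ⟨s, hs⟩ := exists_surjective_nat (Finset ℕ)
  refine ⟨fun n => ⋂ i ∈ s n, N i, fun z => ⟨⋂ i, ⋂ _ : z ∈ N i, N i,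
    isCompact_iff_ultrafilter_le_nhds'.2 fun U e => (hN z U fun i hi => mem_of_superset e
      (iInter₂_subset i hi)).imp fun w => And.imp_left mem_iInter₂.2, mem_iInter₂.2 fun _ => id,
        fun V V1 V2 => by_contra fun e => ?_⟩⟩
  obtain ⟨U, U1, U2⟩ := fip (N := N) (z := z) (G := 𝓟 Vᶜ) fun t ht => by
    obtain ⟨n, rfl⟩ := hs t
    rw [inf_principal, principal_neBot_iff, inter_comm]
    exact inter_compl_nonempty_iff.2 fun k => e ⟨n, subset_iInter₂ fun i hi =>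
      iInter₂_subset i (mem_iInter₂.1 ht i hi), k⟩
  obtain ⟨w, w1, w2⟩ := hN z U U2
  exact U.compl_notMem_iff.2 (w2 (V1.mem_nhds (V2 (mem_iInter₂.2 w1)))) (le_principal_iff.1 U1)

def PM (Z : Type) [TopologicalSpace Z] : Prop :=
  ∃ (W M : Type) (_ : TopologicalSpace W) (_ : TopologicalSpace M), T35Space W ∧
    MetrizableSpace M ∧ SeparableSpace M ∧ ∃ (p : W → M) (q : W → Z), IsProperMap p ∧
      p.Surjective ∧ Continuous q ∧ q.Surjective

theorem PM.ls (h : PM Z) : LS (univ : Set Z) := by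
  obtain ⟨W, M, _, _, -, _, _, p, q, p1, -, q1, q2⟩ := h
  let := metrizableSpaceMetric M
  have := UniformSpace.secondCountable_of_separable M
  rw [← q2.range_eq, ← image_univ]
  refine (ofU (fun s : countableBasis M => p ⁻¹' s) fun z _ U k => ?_).img q1.continuousOn
  exact (p1.ultrafilter_le_nhds_of_tendsto (y := p z) ((isBasis_countableBasis
    M).nhds_hasBasis.tendsto_right_iff.2 fun s hs => k ⟨s, hs.1⟩ hs.2)).imp fun w e => ⟨trivial, e.2⟩

theorem LS.pm [T35Space Z] (h : LS (univ : Set Z)) : PM Z := by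
  classical
  obtain ⟨N, N1, hN⟩ := h.clo
  let c : Z → ℕ → Bool := fun z n => decide (z ∈ N n)
  refine ⟨{a : Z × range c // ∀ n, a.2.1 n = true → a.1 ∈ N n}, range c, _, _, inferInstance,
    inferInstance, inferInstance, fun a => a.1.2, fun a => a.1.1,
    isProperMap_iff_ultrafilter_of_t2.2 ⟨by fun_prop, ?_⟩, ?_, by fun_prop,
    fun z => ⟨⟨(z, ⟨_, z, rfl⟩), fun n => of_decide_eq_true⟩, rfl⟩⟩
  · rintro U ⟨_, z, rfl⟩ e
    obtain ⟨w, w1, w2⟩ := hN z (U.map fun a => a.1.1) fun n hn => Ultrafilter.mem_map.2 <|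
      Ultrafilter.mem_coe.1 <| mem_of_superset ((((continuous_apply n).comp continuous_subtype_val).tendsto _).comp e
        (mem_nhds_discrete.2 (mem_singleton _))) fun a ha => by
          exact a.2 n (Eq.trans ha (decide_eq_true hn))
    exact ⟨⟨(w, ⟨_, z, rfl⟩), fun n hn => w1 n (of_decide_eq_true hn)⟩, tendsto_id'.1
      (tendsto_subtype_rng.2 (Tendsto.prodMk_nhds w2 e))⟩
  · rintro ⟨_, z, rfl⟩
    exact ⟨⟨(z, ⟨_, z, rfl⟩), fun n => of_decide_eq_true⟩, rfl⟩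

theorem uni {s : Set Z} {F : ℕ → Z → ℝ} {f : Z → ℝ} (hc : ∀ n, ContinuousOn (F n) s)
    (h : ∀ n, ∀ a ∈ s, Dist.dist (F n a) (f a) ≤ 1 / ((n : ℝ) + 1)) : ContinuousOn f s :=
  TendstoUniformlyOn.continuousOn (p := atTop) (Metric.tendstoUniformlyOn_iff.2 fun _ h0 =>
    (tendsto_one_div_add_atTop_nhds_zero_nat.eventually_lt_const h0).mono fun n hn a ha =>
      ((dist_comm _ _).trans_le (h n a ha)).trans_lt hn) (.of_forall hc)

theorem lsC [CompactSpace Z] {A : Set (Z → ℝ)} (hA : LS A) (hc : ∀ f ∈ A, Continuous f)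
    (hs : ∀ x y, (∀ f ∈ A, f x = f y) → x = y) : LS {f : Z → ℝ | Continuous f} := by
  let u : Set (Z → ℝ) → Set (Z → ℝ) := fun B =>
    (fun F : Fin 3 → Z → ℝ => F 0 * F 1 + F 2) '' univ.pi fun _ => B
  have u1 : ∀ B : Set (Z → ℝ), ∀ a ∈ B, ∀ b ∈ B, ∀ c ∈ B, a * b + c ∈ u B := fun B a ha b hb c hc =>
    ⟨![a, b, c], fun i _ => by fin_cases i <;> assumption, rfl⟩
  let B : ℕ → Set (Z → ℝ) := fun n => u^[n] (⋃ o : Option ℕ, o.elim A fun m =>
    (fun c _ => c) '' Icc (-(m : ℝ)) m)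
  have b1 : ∀ n, B (n + 1) = u (B n) := fun n => Function.iterate_succ_apply' _ _ _
  have b2 : ∀ n, LS (B n) ∧ (∀ f ∈ B n, Continuous f) ∧ ∀ c : ℝ, (fun _ => c) ∈ B n := fun n => by
    induction n with
    | zero =>
      refine ⟨LS.un fun o => ?_, fun f hf => ?_, fun c => ?_⟩
      · cases o
        · exact hA
        · exact LS.cpt (isCompact_Icc.image (by fun_prop))
      · obtain ⟨_ | m, hm⟩ := mem_iUnion.1 hf
        · exact hc f hm
        · obtain ⟨c, -, rfl⟩ := hm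
          exact continuous_const
      · obtain ⟨m, hm⟩ := exists_nat_ge |c|
        exact mem_iUnion.2 ⟨some m, c, abs_le.1 hm, rfl⟩
    | succ n ih =>
      rw [b1]
      refine ⟨ih.1.pi.img (by fun_prop), ?_, fun c => ?_⟩
      · rintro _ ⟨F, hF, rfl⟩
        exact ((ih.2.1 _ (hF 0 trivial)).mul (ih.2.1 _ (hF 1 trivial))).add (ih.2.1 _ (hF 2 trivial))
      · convert u1 _ _ (ih.2.2 0) _ (ih.2.2 0) _ (ih.2.2 c) using 1
        ext; simp
  have b3 : Monotone B := monotone_nat_of_le_succ fun n f hf => by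
    rw [b1]
    convert u1 _ _ ((b2 n).2.2 0) _ ((b2 n).2.2 0) _ hf using 1
    ext; simp
  have b4 : ∀ a ∈ ⋃ n, B n, ∀ b ∈ ⋃ n, B n, a * b ∈ ⋃ n, B n ∧ a + b ∈ ⋃ n, B n := by
    simp only [mem_iUnion]
    rintro a ⟨n, ha⟩ b ⟨m, hb⟩
    have ha := b3 (le_max_left n m) ha
    have hb := b3 (le_max_right n m) hb
    refine ⟨⟨max n m + 1, ?_⟩, max n m + 1, ?_⟩ <;> rw [b1]
    · convert u1 _ _ ha _ hb _ ((b2 _).2.2 0) using 1
      ext; simp
    · convert u1 _ _ ha _ ((b2 _).2.2 1) _ hb using 1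
      ext; simp
  let S : Subalgebra ℝ C(Z, ℝ) :=
    { carrier := {f | ⇑f ∈ ⋃ n, B n}
      mul_mem' := fun ha hb => (b4 _ ha _ hb).1
      add_mem' := fun ha hb => (b4 _ ha _ hb).2
      algebraMap_mem' := fun c => mem_iUnion.2 ⟨0, by
        convert (b2 0).2.2 c using 1
        ext; simp⟩ }
  have sS : S.SeparatesPoints := fun x y e => by
    obtain ⟨f, hf⟩ := not_forall.1 (mt (hs x y) e)
    obtain ⟨f1, f2⟩ := Classical.not_imp.1 hf
    exact ⟨f, ⟨⟨f, hc f f1⟩, mem_iUnion.2 ⟨0, mem_iUnion.2 ⟨none, f1⟩⟩, rfl⟩, f2⟩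
  let D : Set (ℕ → Z → ℝ) := {F | ∀ n m, n ≤ m → ∀ x, Dist.dist (F n x) (F m x) ≤ 1 / ((n : ℝ) + 1)}
  have d1 : ∀ F ∈ D, ∀ x, Tendsto (F · x) atTop (𝓝 (limUnder atTop (F · x))) := fun F hF x =>
    (cauchySeq_of_le_tendsto_0' _ (hF · · · x) tendsto_one_div_add_atTop_nhds_zero_nat).tendsto_limUnder
  have d2 : ∀ F ∈ D, ∀ n x, Dist.dist (F n x) (limUnder atTop (F · x)) ≤ 1 / ((n : ℝ) + 1) :=
    fun F hF n x => le_of_tendsto (tendsto_const_nhds.dist (d1 F hF x))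
      ((eventually_ge_atTop n).mono fun m hm => hF n m hm x)
  convert (((LS.un fun n => (b2 n).1).pi (ι := ℕ)).cls (C := D) (by
    simp only [D, ofPred_forall]
    exact isClosed_iInter fun n => isClosed_iInter fun m => isClosed_iInter fun _ =>
      isClosed_iInter fun x => isClosed_le (by fun_prop) continuous_const)).img
    (f := fun F x => limUnder atTop (F · x)) (continuousOn_pi.2 fun x => uni (F := fun n F => F n x)
      (fun n => by fun_prop) fun n F hF => d2 F hF.2 n x) using 1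
  refine Subset.antisymm (fun f hf => ?_) ?_
  · choose g hg using fun n : ℕ => ContinuousMap.exists_mem_subalgebra_near_continuous_of_separatesPoints
      S sS f hf _ (half_pos (Nat.one_div_pos_of_nat (n := n)))
    refine ⟨fun n => (g n).1, ⟨fun n _ => (g n).2, fun n m e x => ?_⟩, funext fun x =>
      Tendsto.limUnder_eq (tendsto_iff_norm_sub_tendsto_zero.2 (squeeze_zero (fun _ => norm_nonneg _)
        (fun n => (hg n x).le.trans (half_le_self Nat.one_div_pos_of_nat.le))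
          tendsto_one_div_add_atTop_nhds_zero_nat))⟩
    have := hg n x
    have := hg m x
    have := Nat.one_div_le_one_div (α := ℝ) e
    have := dist_triangle_right ((g n).1 x) ((g m).1 x) (f x)
    simp only [dist_eq_norm] at *
    linarith
  · rintro _ ⟨F, hF, rfl⟩
    refine continuousOn_univ.1 (uni (F := F) (fun n => ?_) fun n x _ => d2 F hF.2 n x)
    obtain ⟨k, hk⟩ := mem_iUnion.1 (hF.1 n trivial)
    exact ((b2 k).2.1 _ hk).continuousOn

end Pool.Agent.H.MP_e9bccb
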