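import Pool.Agent.H.MP_e9bccb.J
import Pool.Agent.H.MP_5e5cb0.A

set_option autoImplicit false
open Set Filter Topology TopologicalSpace

namespace Pool.Agent.H.MP_e9bccb

variable {X Γ Z : Type} [TopologicalSpace X] [TopologicalSpace Z]

def Gu (X : Type) [TopologicalSpace X] : Prop := LS {f : X → ℝ | Continuous f}

theorem gu : Gu X ↔ LS (univ : Set {g : X → ℝ // Continuous g}) :=
  ⟨fun h => LS.pre IsInducing.subtypeVal (Subtype.range_val_subtype.symm ▸ h), fun h => by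
    have := h.img continuous_subtype_val.continuousOn
    rwa [image_univ, Subtype.range_val_subtype] at this⟩

variable [CompactSpace X] [T2Space X] {h : X → Γ → ℝ}

theorem guC (hX : Gu X) : ∃ (Γ : Type) (e : X → Γ → ℝ), IsEmbedding e ∧
    ∀ x, {θ | e x θ ≠ 0}.Countable := by
  classical
  obtain ⟨N, hN⟩ := hX
  have : ∀ (F : Finset X) n, ∃ D : Set C(X, ℝ), D.Countable ∧ (∀ φ ∈ D, ⇑φ ∈ N n) ∧
      ∀ g ∈ N n, Continuous g → ∀ t : X → Set ℝ, (∀ y ∈ F, t y ∈ 𝓝 (g y)) →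
        ∃ φ ∈ D, ∀ y ∈ F, φ y ∈ t y := fun F n => by
    obtain ⟨s, s1, s2, s3⟩ := (IsSeparable.of_separableSpace ((fun (φ : C(X, ℝ)) (y : F) => φ y) ''
      {φ | ⇑φ ∈ N n})).exists_countable_dense_subset
    choose w w1 w2 using fun x : s => s1 x.2
    have := s2.to_subtype
    refine ⟨range w, countable_range _, forall_mem_range.2 w1, fun g g1 g2 t ht => ?_⟩
    obtain ⟨v, v1, v2⟩ := mem_closure_iff_nhds.1 (s3 ⟨⟨g, g2⟩, g1, rfl⟩) _
      (set_pi_mem_nhds finite_univ fun (y : F) _ => ht y y.2)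
    exact ⟨w ⟨v, v2⟩, ⟨_, rfl⟩, fun y hy => mem_of_eq_of_mem (congrFun (w2 ⟨v, v2⟩) ⟨y, hy⟩)
      (v1 ⟨y, hy⟩ trivial)⟩
  choose D D1 D2 D3 using this
  refine MP_5e5cb0.corson (h := fun F => ⋃ n, D F n) (fun F => countable_iUnion (D1 F))
    fun S a ha b hb e => spU a trivial b trivial fun g _ => ?_
  obtain ⟨w, w1, w2⟩ := hN g g.continuous (Filter.pi (fun y => if y ∈ S then 𝓝 (g y) else ⊤) ⊓
    𝓟 {f | f a = f b}) fun n hn => by
      rw [inf_assoc, inf_principal]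
      refine inf_neBot_iff.2 fun s hs u hu => ?_
      obtain ⟨I, t, t1, t2⟩ := mem_pi'.1 hs
      obtain ⟨φ, a1, a2⟩ := D3 (I.filter (· ∈ S)) n g hn g.continuous t fun y hy => by
        simpa [(Finset.mem_filter.1 hy).2] using t1 y
      refine ⟨φ, t2 fun y hy => ?_, hu ⟨e φ (mem_iUnion₂.2 ⟨_, fun y hy => (Finset.mem_filter.1 hy).2,
        mem_iUnion.2 ⟨n, a1⟩⟩), D2 _ _ φ a1⟩⟩
      by_cases k : y ∈ S
      · exact a2 y (Finset.mem_filter.2 ⟨hy, k⟩)
      · have := t1 y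
        rw [if_neg k] at this
        exact (mem_top.1 this).ge trivial
  have k : EqOn w g (closure S) := EqOn.closure (fun y hy => eq_of_nhds_neBot
    ((w2.neBot.map fun f => f y).mono (le_inf ((map_mono inf_le_left).trans
      ((continuous_apply y).tendsto w)) ((map_mono (inf_le_right.trans inf_le_left)).trans
        ((tendsto_eval_pi _ y).trans_eq (if_pos hy)))))) w1 g.continuous
  rw [← k ha, ← k hb]
  exact (isClosed_eq (continuous_apply a) (continuous_apply b)).closure_subset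
    (w2.mem_closure_of_mem _ (mem_inf_of_right (mem_principal_self _)))

theorem disc (hc : Continuous h) (hi : Function.Injective h) (hs : ∀ x, {θ | h x θ ≠ 0}.Countable)
    (hb : ∀ x θ, |h x θ| ≤ 1) : ∃ c : Γ → ℝ, (∀ θ, 0 < c θ) ∧ ∀ g : X → ℝ, Continuous g → g ≠ 0 →
      ∃ U ∈ 𝓝 g, {θ | (fun x => c θ * h x θ) ∈ U}.Finite := by
  classical
  obtain ⟨F, R, F1, hR⟩ := str hc hi hs continuous_id
  simpa using ind2 F1 (fun T => ∃ c : Γ → ℝ, (∀ θ, 0 < c θ) ∧ ∀ g : X → ℝ, Continuous g → g ≠ 0 →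
    ∃ U ∈ 𝓝 g, {θ ∈ T | (fun x => c θ * h x θ) ∈ U}.Finite) (fun T hT => by
      obtain ⟨f, hf⟩ := countable_iff_exists_injOn.1 hT
      refine ⟨fun θ => 1 / ((f θ : ℝ) + 1), fun _ => Nat.one_div_pos_of_nat, fun g _ g2 => ?_⟩
      obtain ⟨x, hx⟩ := Function.ne_iff.1 g2
      obtain ⟨k, hk⟩ := exists_nat_one_div_lt (abs_pos.2 hx)
      refine ⟨_, (isOpen_lt continuous_const (by fun_prop : Continuous fun f : X → ℝ =>
        |f x|)).mem_nhds hk, (finite_Iio k).of_injOn (f := f) (fun θ hθ => mem_Iio.2 (not_le.1 fun e => ?_))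
          (hf.mono fun _ e => e.1)⟩
      refine hθ.2.not_ge ((abs_mul _ _).trans_le ((mul_le_of_le_one_right (abs_nonneg _)
        (hb x θ)).trans ?_))
      rw [abs_of_pos Nat.one_div_pos_of_nat]
      exact Nat.one_div_le_one_div e) (fun W _ _ _ T m c P => by
      choose C q1 q2 using P
      have : ∀ θ, ∃ a, ∀ b, θ ∈ T b → θ ∉ ⋃ c ∈ Iio b, T c → a = b := fun θ => by
        by_cases e : ∃ a, θ ∈ T a ∧ θ ∉ ⋃ c ∈ Iio a, T c
        · obtain ⟨a, a1, a2⟩ := e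
          exact ⟨a, fun b => lev a1 a2⟩
        · exact ⟨Classical.arbitrary W, fun b b1 b2 => absurd ⟨b, b1, b2⟩ e⟩
      choose v hv using this
      refine ⟨fun θ => C (v θ) θ, fun θ => q1 _ θ, fun g g1 g2 => ?_⟩
      have z : ∀ I : Set W, I.Nonempty → (∀ a ∈ I, ∀ x, g (R (T a) x) = 0) → ∀ x,
          g (R (⋃ b ∈ I, T b) x) = 0 := fun I e k x => by
        obtain ⟨a, ha⟩ := id e
        rw [lim hc hi g1 m e (fun a => (hR _ (c a)).1 x) (fun b => (hR _ (c b)).1 (R (T a) x))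
          ((hR _ (ClU m c e)).1 x) ((hR _ (ClU m c e)).1 _) fun b hb =>
            (k b hb _).trans (k b hb _).symm, RI hi ((hR _ (ClU m c e)).1 _)
              (Ym (subset_biUnion_of_mem (u := T) ha) (RY ((hR _ (c a)).1 x)))]
        exact k a ha x
      have o : ∀ x y, g x ≠ g y → {f : X → ℝ | f x ≠ f y} ∈ 𝓝 g := fun x y e =>
        (isOpen_ne_fun (continuous_apply x) (by fun_prop)).mem_nhds e
      by_cases e : {a | ∃ x, g (R (T a) x) ≠ 0}.Nonempty
      · obtain ⟨δ, ⟨x, hx⟩, hδ⟩ := (wellFounded_lt (α := W)).has_min _ e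
        obtain ⟨U, U1, U2⟩ := q2 δ g g1 g2
        obtain ⟨V, V1, V2⟩ : ∃ V ∈ 𝓝 g, ∀ θ ∈ ⋃ b ∈ Iio δ, T b,
            (fun x => C (v θ) θ * h x θ) ∉ V := by
          by_cases k : (Iio δ).Nonempty
          · refine ⟨_, o (R (T δ) x) (R (⋃ b ∈ Iio δ, T b) x) (by
              rwa [z _ k fun a ha y => not_not.1 fun e => hδ a ⟨y, e⟩ ha]), fun θ hθ e => e ?_⟩
            simp only [(hR _ (c δ)).1, (hR _ (ClU m c k)).1, indicator_of_mem hθ, indicator_of_mem
              ((iUnion₂_subset fun b hb => m (le_of_lt hb) : ⋃ b ∈ Iio δ, T b ⊆ T δ) hθ)]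
          · exact ⟨univ, univ_mem, fun θ hθ => (mem_iUnion₂.1 hθ).elim fun b hb => absurd ⟨b, hb.1⟩ k⟩
        refine ⟨_, inter_mem U1 (inter_mem V1 ((isOpen_ne_fun (continuous_apply (R (T δ) x))
          continuous_const).mem_nhds hx)), U2.subset fun θ ⟨_, a1, a2, a3⟩ => ?_⟩
        have a4 : θ ∈ T δ := by_contra fun e => a3 (by
          simp only [(hR _ (c δ)).1, indicator_of_notMem e, mul_zero])
        exact ⟨a4, hv θ δ a4 (fun e => V2 θ e a2) ▸ a1⟩
      · obtain ⟨x, hx⟩ := Function.ne_iff.1 g2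
        refine ⟨_, o x (R (⋃ b ∈ univ, T b) x) (by
          rwa [z _ univ_nonempty fun a _ y => not_not.1 fun k => e ⟨a, y, k⟩]),
          finite_empty.subset fun θ ⟨a1, a2⟩ => a2 ?_⟩
        rw [← biUnion_univ] at a1
        simp only [(hR _ (ClU m c univ_nonempty)).1, indicator_of_mem a1]) univ
          fun _ _ => subset_univ _

theorem guS (hX : Gu X) : ∃ (Γ : Type) (h : X → Γ → ℝ), Continuous h ∧ Function.Injective h ∧
    Sk (range singleton) h := by
  obtain ⟨Γ, e, e1, e2⟩ := guC hX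
  have := e1.continuous
  obtain ⟨c, c1, c2⟩ := disc (h := fun x θ => sg (e x θ)) (by fun_prop) (fun x y k => e1.injective
    (funext fun θ => sg3 (congrFun k θ))) (fun x => (e2 x).mono fun θ k e' => k
      (abs_nonpos_iff.1 ((sg2 _).trans_eq (abs_eq_zero.2 e')))) fun _ _ => sg1 _
  obtain ⟨N, hN⟩ := hX
  refine ⟨Γ, fun x θ => c θ * sg (e x θ), by fun_prop, fun x y k => e1.injective
    (funext fun θ => sg3 (mul_left_cancel₀ (c1 θ).ne' (congrFun k θ))),
    fun n => {θ | (fun x => c θ * sg (e x θ)) ∈ N n}, ?_⟩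
  rintro _ ⟨p, rfl⟩ γ
  by_contra hn
  push Not at hn
  obtain ⟨g, g1, g2⟩ := hN (fun x => c γ * sg (e x γ)) (show Continuous _ by fun_prop)
    (map (fun θ x => c θ * sg (e x θ)) cofinite ⊓ 𝓟 {f | 0 < p.2 ∧ p.2 ≤ |f p.1|}) fun n k => by
      obtain ⟨_, rfl, a1, a2⟩ := hn n k
      rw [inf_assoc, inf_principal, ← Filter.push_pull, map_neBot_iff, comap_principal]
      exact cofinite_inf_principal_neBot_iff.2 (a2.mono fun θ hθ => ⟨⟨a1, hθ.2⟩, hθ.1⟩)
  have := (isClosed_const.and (isClosed_le continuous_const (by fun_prop))).closure_subset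
    (g2.mem_closure_of_mem _ (mem_inf_of_right (mem_principal_self _)))
  obtain ⟨U, U1, U2⟩ := c2 g g1 fun k => this.1.not_ge (by simpa [k] using this.2)
  simpa using clusterPt_iff_nonempty.1 g2 U1 (mem_inf_of_left (s := Uᶜ) U2.compl_mem_cofinite)

omit [T2Space X] in
theorem skG (hc : Continuous h) (hi : Function.Injective h) (hs : Sk (range singleton) h) :
    Gu X := by
  obtain ⟨N, hN⟩ := hs
  refine lsC (A := insert 0 (range fun θ x => h x θ)) (ofU (fun o : Option (Option ℕ) => o.elim {0}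
    fun n => (fun θ x => h x θ) '' n.elim univ N) ?_) ?_ fun x y k => hi (funext fun θ => k _ (Or.inr ⟨θ, rfl⟩))
  · rintro _ (rfl | ⟨γ, rfl⟩) U k
    · exact ⟨0, Or.inl rfl, (le_pure_iff.2 (k none rfl)).trans (pure_le_nhds _)⟩
    rcases U.le_cofinite_or_eq_pure with e | ⟨a, rfl⟩
    · refine ⟨0, Or.inl rfl, tendsto_id'.1 (tendsto_pi_nhds.2 fun x => Metric.tendsto_nhds.2
        fun ε h0 => ?_)⟩
      obtain ⟨n, n1, n2⟩ := hN _ ⟨(x, ε), rfl⟩ γ
      refine mem_of_superset (inter_mem (k (some (some n)) ⟨γ, n1, rfl⟩) (e ((n2 _ rfl h0).image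
        fun θ x => h x θ).compl_mem_cofinite)) ?_
      rintro _ ⟨⟨θ, a1, rfl⟩, a2⟩
      simpa using not_le.1 fun e => a2 ⟨θ, ⟨a1, e⟩, rfl⟩
    · exact ⟨a, Or.inr (image_subset_range _ _ (k (some none) ⟨γ, trivial, rfl⟩)), pure_le_nhds a⟩
  · rintro _ (rfl | ⟨γ, rfl⟩)
    · exact continuous_const
    · fun_prop

theorem splG (hX : ∀ A : Set X, ∃ (Y : Type) (_ : TopologicalSpace Y), CompactSpace Y ∧ T2Space Y ∧
    Gu Y ∧ ∃ f : X → Y, Continuous f ∧ f ⁻¹' (f '' A) = A) : ∃ (Γ : Type) (h : X → Γ → ℝ),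
      Continuous h ∧ Function.Injective h ∧ Sk (range singleton) h := by
  obtain ⟨Γ, h, h1, h2, -, h3⟩ := splS (X := X) (J := range singleton)
    (fun p => ⟨_, ⟨p, rfl⟩, rfl⟩) fun A => by
      obtain ⟨Y, _, _, _, hY, f, f1, f2⟩ := hX A
      obtain ⟨Γ, e, e1, e2, N, hN⟩ := guS hY
      refine ⟨Γ, e ∘ f, e1.comp f1, ⟨N, ?_⟩, fun x y k hx => f2.le ⟨x, hx, e2 k⟩⟩
      rintro _ ⟨p, rfl⟩ γ
      exact (hN _ ⟨(f p.1, p.2), rfl⟩ γ).imp fun n => And.imp_right fun k q hq => hq ▸ k _ rfl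
  exact ⟨Γ, h, h1, h2, h3⟩

omit [T2Space X] in
theorem skP (hc : Continuous h) (hi : Function.Injective h) (hs : Sk (range singleton) h) :
    Gu (X × X) := by
  obtain ⟨N, hN⟩ := hs
  refine skG (h := fun (p : X × X) (θ : Γ × Bool) => h (bif θ.2 then p.1 else p.2) θ.1)
    (continuous_pi fun ⟨θ, b⟩ => by cases b <;> simp only [cond_true, cond_false] <;> fun_prop)
    (fun x y e => Prod.ext (hi (funext fun θ => congrFun e (θ, true)))
      (hi (funext fun θ => congrFun e (θ, false))))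
    (Skm (fun c : ℕ × Bool => N c.1 ×ˢ {c.2}) ?_)
  rintro _ ⟨p, rfl⟩ γ
  obtain ⟨n, n1, n2⟩ := hN _ ⟨(bif γ.2 then p.1.1 else p.1.2, p.2), rfl⟩ γ.1
  refine ⟨(n, γ.2), ⟨n1, rfl⟩, ?_⟩
  rintro _ rfl h0
  refine ((n2 _ rfl h0).prod (finite_singleton γ.2)).subset ?_
  rintro ⟨θ, b⟩ ⟨⟨a1, rfl⟩, a2⟩
  exact ⟨⟨a1, a2⟩, rfl⟩

omit [T2Space X] in
theorem Gu.img [T2Space Z] (hX : Gu X) {π : X → Z} (hπ : Continuous π)
    (hp : Function.Surjective π) : Gu Z := by
  have k := Function.surjInv_eq hp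
  unfold Gu
  convert (LS.cls hX (C := {f | ∀ x, f (Function.surjInv hp (π x)) = f x}) (by
    rw [ofPred_forall]
    exact isClosed_iInter fun x => isClosed_eq (by fun_prop) (by fun_prop))).img
      (f := fun f z => f (Function.surjInv hp z)) (by fun_prop) using 1
  refine Subset.antisymm (fun g hg => ⟨g ∘ π, ⟨Continuous.comp hg hπ, fun x => by simp [k]⟩,
    funext fun z => by simp [k]⟩) ?_
  rintro _ ⟨f, ⟨f1, f2⟩, rfl⟩
  exact (hπ.isClosedMap.isQuotientMap hπ hp).continuous_iff.2 (Continuous.congr f1 fun x =>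
    (f2 x).symm)

omit [T2Space X] in
theorem guE {E : Type} [NormedAddCommGroup E] [NormedSpace ℝ E] {e : X → WeakSpace ℝ E}
    (hc : Continuous e) (hi : Function.Injective e) : Gu X := by
  refine lsC (A := (fun (φ : WeakDual ℝ E) x => φ ((toWeakSpace ℝ E).symm (e x))) '' _)
    (LS.cpt ((WeakDual.isCompact_closedBall 0 1).image (continuous_pi fun x =>
      WeakDual.eval_continuous _))) ?_ fun x y k => hi ((toWeakSpace ℝ E).symm.injective ?_)
  · rintro _ ⟨φ, -, rfl⟩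
    exact (WeakBilin.eval_continuous (topDualPairing ℝ E).flip φ).comp hc
  · obtain ⟨φ, a1, a2⟩ := exists_dual_vector'' ℝ
      ((toWeakSpace ℝ E).symm (e x) - (toWeakSpace ℝ E).symm (e y))
    have := k _ ⟨StrongDual.toWeakDual φ, by simpa using a1, rfl⟩
    rw [map_sub, show φ _ = φ _ from this, sub_self] at a2
    exact sub_eq_zero.1 (norm_eq_zero.1 a2.symm)

end Pool.Agent.H.MP_e9bccb
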