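import Pool.Agent.H.MP_e9bccb.F

set_option autoImplicit false
open Set Filter Topology TopologicalSpace
open scoped Cardinal

namespace Pool.Agent.H.MP_e9bccb

open Pool.Agent.H.MP_d2b9e5 (Om Om2)
open Pool.Agent.H.MP_28dc43 (bdd)
open Pool.Agent.H.MP_eb6644 (rec1)

variable {K X Γ : Type} [TopologicalSpace K] [CompactSpace K] [T2Space K] {h : K → Γ → ℝ}

theorem flat (hc : Continuous h) (hs : ∀ x, ∀ ε : ℝ, 0 < ε → {γ | ε ≤ |h x γ|}.Finite) {ε : ℝ}
    (h0 : 0 < ε) {O : Set K} (hO : IsOpen O) (hn : O.Nonempty) : ∃ V ⊆ O, IsOpen V ∧ V.Nonempty ∧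
      ∃ t : Finset Γ, ∀ w ∈ V, ∀ θ ∉ t, |h w θ| ≤ ε := by
  classical
  obtain ⟨x, x1, x2⟩ := (dense_iUnion_interior_of_closed (f := fun m : ℕ => {x | ∀ t : Finset Γ,
    (∀ θ ∈ t, ε < |h x θ|) → t.card ≤ m}) (fun m => by
      rw [ofPred_forall]
      refine isClosed_iInter fun t => isClosed_imp ?_ isClosed_const
      simp only [ofPred_forall]
      exact isOpen_biInter_finset fun θ _ => isOpen_lt continuous_const (by fun_prop))
    (eq_univ_of_forall fun x => mem_iUnion.2 ⟨(hs x ε h0).toFinset.card, fun t ht =>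
      Finset.card_le_card fun θ hθ => (hs x ε h0).mem_toFinset.2 (ht θ hθ).le⟩)).inter_open_nonempty
    O hO hn
  obtain ⟨m, hm⟩ := mem_iUnion.1 x2
  let S := {k | ∃ w ∈ O ∩ interior {x | ∀ t : Finset Γ, (∀ θ ∈ t, ε < |h x θ|) → t.card ≤ m},
    ∃ t : Finset Γ, (∀ θ ∈ t, ε < |h w θ|) ∧ t.card = k}
  have b : BddAbove S := ⟨m, fun k ⟨w, w1, t, t1, t2⟩ => t2 ▸ interior_subset w1.2 t t1⟩
  obtain ⟨w, w1, t, t1, t2⟩ := Nat.sSup_mem (s := S) ⟨0, x, ⟨x1, hm⟩, ∅, by simp, rfl⟩ b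
  refine ⟨_ ∩ ⋂ θ ∈ t, {y | ε < |h y θ|}, inter_subset_left.trans inter_subset_left,
    (hO.inter isOpen_interior).inter (isOpen_biInter_finset fun θ _ => isOpen_lt continuous_const
      (by fun_prop)), ⟨w, w1, mem_iInter₂.2 t1⟩, t, fun y hy θ hθ => not_lt.1 fun e => ?_⟩
  have := le_csSup b ⟨y, hy.1, insert θ t, (Finset.forall_mem_insert _ _ _).2
    ⟨e, mem_iInter₂.1 hy.2⟩, rfl⟩
  rw [← t2, Finset.card_insert_of_notMem hθ] at this
  omega

theorem ps0 [TopologicalSpace X] {e : X → K} (he : Continuous e) (hd : DenseRange e)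
    (pc : ∀ f : X → ℝ, Continuous f → ∃ M : ℝ, ∀ x, |f x| ≤ M) (hc : Continuous h)
    (hs : ∀ x, ∀ ε : ℝ, 0 < ε → {γ | ε ≤ |h x γ|}.Finite) {z : K} (hz : h z = 0) :
    ∃ x, h (e x) = 0 := by
  classical
  by_contra hn
  push Not at hn
  choose V v1 v2 v3 t v4 using fun (n : ℕ) (T : Finset Γ) => flat hc hs
    (Nat.one_div_pos_of_nat (n := n)) (O := ⋂ θ ∈ T, {y | |h y θ| < 1 / ((n : ℝ) + 1)})
    (isOpen_biInter_finset fun θ _ => isOpen_lt (by fun_prop) continuous_const)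
    ⟨z, mem_iInter₂.2 fun θ _ => by simpa [hz] using Nat.cast_add_one_pos n⟩
  let T : ℕ → Finset Γ := fun n => n.rec ∅ fun n T => T ∪ t n T
  have m : Monotone T := monotone_nat_of_le_succ fun n => Finset.subset_union_left
  have k : ∀ θ, ∀ᶠ n in atTop, ∀ w ∈ V n (T n), |h w θ| ≤ 1 / ((n : ℝ) + 1) := fun θ => by
    by_cases a : ∃ n, θ ∈ t n (T n)
    · obtain ⟨n, hn⟩ := a
      exact (eventually_ge_atTop (n + 1)).mono fun k hk w hw => le_of_lt (mem_iInter₂.1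
        (v1 k _ hw) θ (m hk (Finset.mem_union_right _ hn)))
    · exact .of_forall fun n w hw => v4 n _ w hw θ fun b => a ⟨n, b⟩
  choose x hx using fun n => hd.exists_mem_open (v2 n (T n)) (v3 n _)
  choose φ p1 p2 p3 using fun n => exists_continuous_zero_one_of_isClosed (v2 n (T n)).isClosed_compl
    (isClosed_singleton (x := e (x n))) (disjoint_singleton_right.2 (not_not.2 (hx n)))
  have lf : LocallyFinite fun n : ℕ => Function.support fun y => (n : ℝ) * φ n (e y) := fun y => by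
    obtain ⟨θ, hθ⟩ := Function.ne_iff.1 (hn y)
    obtain ⟨c, c1, c2⟩ := exists_between (abs_pos.2 hθ)
    refine ⟨_, (isOpen_lt continuous_const (by fun_prop : Continuous fun y =>
      |h (e y) θ|)).mem_nhds c2, ?_⟩
    have := (k θ).and (tendsto_one_div_add_atTop_nhds_zero_nat.eventually_lt_const c1)
    rw [← Nat.cofinite_eq_atTop] at this
    refine Finite.subset this fun n ⟨w, w1, w2⟩ a => lt_asymm w2 ((a.1 _ ?_).trans_lt a.2)
    exact by_contra fun b => w1 (by simp [p1 n b])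
  obtain ⟨M, hM⟩ := pc _ (continuous_finsum (fun n => by fun_prop) lf)
  obtain ⟨n, hn⟩ := exists_nat_gt M
  refine hn.not_ge (le_trans ?_ ((le_abs_self _).trans (hM (x n))))
  simpa [p2 n rfl] using single_le_finsum n (lf.point_finite (x n)) fun j =>
    mul_nonneg j.cast_nonneg (p3 j _).1

def EM (G : Set C(K, ℝ)) : Prop := ∀ z, ∀ ε : ℝ, 0 < ε → {g ∈ G | ε ≤ |g z|}.Finite

theorem ps [TopologicalSpace X] {e : X → K} (he : Continuous e) (hd : DenseRange e)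
    (pc : ∀ f : X → ℝ, Continuous f → ∃ M : ℝ, ∀ x, |f x| ≤ M) {G : Set C(K, ℝ)} (hG : EM G)
    (z : K) : ∃ x ∈ range e, ∀ g ∈ G, g x = g z := by
  obtain ⟨x, hx⟩ := ps0 (h := fun w (g : G) => g.1 w - g.1 z) he hd pc (by fun_prop) (fun x ε h0 =>
    (((hG x _ (half_pos h0)).union (hG z _ (half_pos h0))).preimage
      Subtype.val_injective.injOn).subset fun g hg => by_contra fun k => by
        simp only [mem_preimage, mem_union, mem_ofPred_eq, g.2, true_and, not_or, not_le] at k hg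
        linarith [abs_sub (g.1 x) (g.1 z)]) (z := z) (funext fun g => sub_self _)
  exact ⟨_, ⟨x, rfl⟩, fun g hg => sub_eq_zero.1 (congrFun hx ⟨g, hg⟩)⟩

omit [CompactSpace K] [T2Space K] in
theorem emU {G : ℕ → Set C(K, ℝ)} (hG : ∀ n, EM (G n)) : ∃ G', EM G' ∧ ∀ x y,
    (∀ g ∈ G', g x = g y) → ∀ n, ∀ g ∈ G n, g x = g y := by
  refine ⟨⋃ n : ℕ, (fun g => (1 / ((n : ℝ) + 1)) • sg.comp g) '' G n, fun z ε h0 => ?_,
    fun x y k n g hg => sg3 (mul_left_cancel₀ (Nat.one_div_pos_of_nat (n := n)).ne'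
      (k _ (mem_iUnion.2 ⟨n, g, hg, rfl⟩)))⟩
  obtain ⟨m, hm⟩ := exists_nat_one_div_lt h0
  refine ((finite_Iio m).biUnion fun n _ => (hG n z ε h0).image fun g =>
    (1 / ((n : ℝ) + 1)) • sg.comp g).subset fun g ⟨g1, g2⟩ => ?_
  obtain ⟨n, g, hg, rfl⟩ := mem_iUnion.1 g1
  have g3 : ε ≤ |1 / ((n : ℝ) + 1) * sg (g z)| := g2
  have p : (0 : ℝ) < 1 / ((n : ℝ) + 1) := Nat.one_div_pos_of_nat
  rw [abs_mul, abs_of_pos p] at g3
  refine mem_iUnion₂.2 ⟨n, mem_Iio.2 (not_le.1 fun e => hm.not_ge (g3.trans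
    ((mul_le_of_le_one_right p.le (sg1 _)).trans (Nat.one_div_le_one_div e)))), g,
      ⟨hg, g3.trans ((mul_le_of_le_one_left (abs_nonneg _) ?_).trans (sg2 _))⟩, rfl⟩
  simpa using Nat.one_div_le_one_div (α := ℝ) (Nat.zero_le n)

def Cp (U : Ultrafilter X) (c : Cardinal) : Prop :=
  ∀ ι : Type, #ι ≤ c → ∀ s : ι → Set X, (∀ i, s i ∈ U) → ⋂ i, s i ∈ U

theorem Cp.pow {U : Ultrafilter X} {c : Cardinal} (hU : Cp U c) : Cp U (2 ^ c) := by
  classical
  intro ι hι s hs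
  obtain ⟨j⟩ : Nonempty (ι ↪ Set c.out) := (Cardinal.le_def _ _).1 (by simpa using hι)
  by_contra hn
  rw [← Ultrafilter.compl_mem_iff_notMem, compl_iInter] at hn
  have : Nonempty ι := ⟨(mem_iUnion.1 (U.nonempty_of_mem hn).some_mem).choose⟩
  choose! t ht using fun x (e : x ∈ ⋃ i, (s i)ᶜ) => mem_iUnion.1 e
  have := inter_mem hn (hU c.out (by simp) (fun k => {x | k ∈ j (t x) ↔ {x | k ∈ j (t x)} ∈ U})
    fun k => by
      by_cases e : {x | k ∈ j (t x)} ∈ U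
      · simpa [e] using e
      · exact mem_of_superset (Ultrafilter.compl_mem_iff_notMem.2 e) fun x hx => iff_of_false hx e)
  obtain ⟨x, -, x2⟩ := U.nonempty_of_mem this
  obtain ⟨y, ⟨y1, y2⟩, y3⟩ := U.nonempty_of_mem (inter_mem this (hs (t x)))
  exact ht y y1 (j.injective (Set.ext fun k => (mem_iInter.1 x2 k).trans
    (mem_iInter.1 y2 k).symm) ▸ y3)

omit [CompactSpace K] in
theorem clc2 {C : Set K} (hC : C.Countable) : #(closure C) ≤ 2 ^ (2 : Cardinal) ^ ℵ₀ := by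
  refine (Cardinal.mk_le_of_injective (f := fun z : closure C => (comap ((↑) : C → K) (𝓝 z.1)).sets)
    fun z w e => Subtype.ext (by_contra fun k => ?_)).trans ?_
  · have := disjoint_comap (m := ((↑) : C → K)) (disjoint_nhds_nhds.2 k)
    rw [← Filter.filter_eq e, disjoint_self] at this
    exact (mem_closure_iff_comap_neBot.1 z.2).ne this
  · rw [Cardinal.mk_set, Cardinal.mk_set]
    exact Cardinal.power_le_power_left two_ne_zero (Cardinal.power_le_power_left two_ne_zero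
      (cC le_rfl hC))

omit [CompactSpace K] [T2Space K] in
theorem ulim (hK : Tight K) {U : Ultrafilter X} (hU : Cp U ℵ₀) (g : X → C(K, ℝ)) :
    ∃ φ : C(K, ℝ), ∀ z, {i | g i z = φ z} ∈ U := by
  have : ∀ z, ∃ r, {i | g i z = r} ∈ U := fun z => by_contra fun e => by
    obtain ⟨i, hi⟩ := U.nonempty_of_mem (hU.pow ℝ (by simp [Cardinal.mk_real]) (fun r => {i | g i z = r}ᶜ)
      fun r => Ultrafilter.compl_mem_iff_notMem.2 fun k => e ⟨r, k⟩)
    exact mem_iInter.1 hi _ rfl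
  choose φ hφ using this
  refine ⟨⟨φ, continuous_iff_isClosed.2 fun T hT => isClosed_of_closure_subset fun z hz => ?_⟩, hφ⟩
  obtain ⟨C, C1, C2, C3⟩ := hK _ z hz
  obtain ⟨i, i1, i2⟩ := U.nonempty_of_mem (inter_mem (hφ z) (hU C (cC le_rfl C2) _ fun c => hφ c))
  exact mem_of_eq_of_mem (s := T) (Eq.symm i1) (closure_minimal (t := g i ⁻¹' T) (fun c hc =>
    mem_of_eq_of_mem (s := T) (mem_iInter.1 i2 ⟨c, hc⟩) (C1 hc)) (hT.preimage (g i).continuous) C3)

omit [CompactSpace K] [T2Space K] in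
theorem ult {S : Set K} (h1 : ∀ G : Set C(K, ℝ), EM G → ∀ z, ∃ x ∈ S, ∀ g ∈ G, g x = g z)
    (h2 : ∀ A : Set K, ∃ G : Set C(K, ℝ), EM G ∧ ∀ x ∈ S, ∀ y ∈ S, (∀ g ∈ G, g x = g y) →
      x ∈ A → y ∈ A) (z : K) : ∃ U : Ultrafilter K, Cp U ℵ₀ ∧ ∀ A, A ∈ U ↔ ∃ G : Set C(K, ℝ), EM G ∧
      ∀ x ∈ S, (∀ g ∈ G, g x = g z) → x ∈ A := by
    let F := Filter.ofCountableInter {A | ∃ G : Set C(K, ℝ), EM G ∧
      ∀ x ∈ S, (∀ g ∈ G, g x = g z) → x ∈ A} (fun T T1 T2 => by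
        obtain ⟨s, hs⟩ := (T1.insert univ).exists_eq_range (insert_nonempty _ _)
        choose G g1 g2 using fun n => ((hs.ge ⟨n, rfl⟩).elim (fun e => ⟨∅, fun _ _ _ => by simp,
          fun _ _ _ => e ▸ trivial⟩) fun e => T2 e : ∃ G : Set C(K, ℝ), EM G ∧
            ∀ x ∈ S, (∀ g ∈ G, g x = g z) → x ∈ s n)
        obtain ⟨G', a1, a2⟩ := emU g1
        refine ⟨G', a1, fun x hx e t ht => ?_⟩
        obtain ⟨n, rfl⟩ := hs.le (Or.inr ht)
        exact g2 n x hx (a2 x z e n)) fun s t ⟨G, g1, g2⟩ e => ⟨G, g1, fun x a b => e (g2 x a b)⟩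
    refine ⟨Ultrafilter.ofComplNotMemIff F fun A => ⟨fun e => ?_, fun e k => ?_⟩,
      fun ι hι s hs => ?_, fun _ => Iff.rfl⟩
    · obtain ⟨G, g1, g2⟩ := h2 A
      obtain ⟨x, x1, x2⟩ := h1 G g1 z
      by_cases k : x ∈ A
      · exact ⟨G, g1, fun y a b => g2 x x1 y a (fun g hg => (x2 g hg).trans (b g hg).symm) k⟩
      · exact absurd ⟨G, g1, fun y a b c => k (g2 y a x x1
          (fun g hg => (b g hg).trans (x2 g hg).symm) c)⟩ e
    · obtain ⟨G, g1, g2⟩ := inter_mem e k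
      obtain ⟨x, x1, x2⟩ := h1 G g1 z
      exact (g2 x x1 x2).2 (g2 x x1 x2).1
    · have := Cardinal.mk_le_aleph0_iff.1 hι
      exact (countable_iInter_mem (l := F)).2 hs

variable {S : Set K} {U : K → Ultrafilter K} (U1 : ∀ z, Cp (U z) ℵ₀)
  (U2 : ∀ z A, A ∈ U z ↔ ∃ G : Set C(K, ℝ), EM G ∧ ∀ x ∈ S, (∀ g ∈ G, g x = g z) → x ∈ A)
include U2

theorem usp (z w : K) (e : z ≠ w) : ∃ B ∈ U z, z ∈ B ∧ Bᶜ ∈ U w := by
    obtain ⟨g, hg⟩ := not_forall.1 fun k => e (spU z trivial w trivial fun g _ => k g)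
    have : EM {g} := fun _ _ _ => (finite_singleton g).subset fun _ e => e.1
    exact ⟨{x | g x = g z}, (U2 _ _).2 ⟨_, this, fun x _ e => e g rfl⟩, rfl,
      (U2 _ _).2 ⟨_, this, fun x _ e k => hg (Eq.trans (Eq.symm k) (e g rfl))⟩⟩

include U1

theorem tiK : Tight K := fun A p hp => by_contra fun hn => by
    classical
    have : ∀ V : Set (K × C(K, ℝ)), ∃ w : K × C(K, ℝ), V.Countable →
        ((∃ C ⊆ A, C.Countable ∧ w.1 ∈ closure C) ∧ w.2 p = 0) ∧ ∀ v ∈ V,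
          (∃ C ⊆ A, C.Countable ∧ v.1 ∈ closure C) ∧ v.2 p = 0 → v.2 w.1 = 0 ∧ w.2 v.1 = 1 :=
        fun V => by
      by_cases e : V.Countable
      swap
      · exact ⟨(p, 0), fun k => absurd k e⟩
      have := e.to_subtype
      obtain ⟨C, C1, C2, q, q1, q2⟩ := cnt1 (h := fun x (v : V) => v.1.2 x)
        (continuous_pi fun v => v.1.2.continuous) (fun _ => to_countable _) hp
      let V' := {v ∈ V | ∃ C ⊆ A, C.Countable ∧ v.1 ∈ closure C}
      have := (e.mono (sep_subset _ _) : V'.Countable).to_subtype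
      choose D D1 D2 D3 using fun v : V' => v.2.2
      obtain ⟨g, g1, g2, -⟩ := exists_continuous_zero_one_of_isClosed (isClosed_singleton (x := p))
        (isClosed_closure (s := ⋃ v, D v)) (disjoint_singleton_left.2 fun k => hn ⟨_,
          iUnion_subset D1, countable_iUnion D2, k⟩)
      refine ⟨(q, g), fun _ => ⟨⟨⟨C, C1, C2, q1⟩, g1 rfl⟩, fun v hv k => ⟨?_, ?_⟩⟩⟩
      · exact (congrFun q2 ⟨v, hv⟩).trans k.2
      · exact g2 (closure_mono (subset_iUnion D ⟨v, hv, k.1⟩) (D3 _))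
    choose w hw using this
    obtain ⟨V, V1, V2⟩ := rec1 (fun _ V => {w V}) fun _ _ _ => countable_singleton _
    let y : Om → K × C(K, ℝ) := fun ξ => w (⋃ ζ ∈ Iio ξ, V ζ)
    have y1 : ∀ a b, a < b → (y a).2 (y b).1 = 0 ∧ (y b).2 (y a).1 = 1 := fun a b e =>
      (hw _ (V1 b)).2 _ (mem_iUnion₂.2 ⟨a, e, V2 a ▸ rfl⟩) (hw _ (V1 a)).1
    have : Nonempty Om := ⟨(bdd countable_empty).choose⟩
    obtain ⟨q, hq⟩ := exists_clusterPt_of_compactSpace (map (fun a => (y a).1) atTop)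
    let A' := ⋃ a, closure ((fun a => (y a).1) '' Iio a)
    choose B B1 _ B2 using fun z : A' => usp U2 z q fun e => by
      obtain ⟨a, ha⟩ := mem_iUnion.1 z.2
      obtain ⟨b, hb⟩ := bdd (countable_singleton a)
      have e1 : (y a).2 z = 1 := closure_minimal (t := {x | (y a).2 x = 1})
        (image_subset_iff.2 fun b hb => (y1 b a hb).2) (isClosed_eq (by fun_prop) continuous_const) ha
      have e2 : (y a).2 q = 0 := (isClosed_eq (by fun_prop) continuous_const).closure_subset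
        (hq.mem_closure_of_mem {x | (y a).2 x = 0} ((eventually_ge_atTop b).mono fun c hc =>
          (y1 a c ((hb a rfl).trans_le hc)).1))
      rw [e, e2] at e1
      exact zero_ne_one e1
    obtain ⟨G, g1, g2⟩ := (U2 _ _).1 ((U1 q).pow.pow A' (cU (Cardinal.aleph0_le_continuum.trans
      (Cardinal.cantor _).le) (by
        simpa using Cardinal.aleph_one_le_continuum.trans (Cardinal.cantor _).le)
          fun a => clc2 ((Om2 a).image _)) _ B2)
    obtain ⟨C, C1, C2, z, z1, z2⟩ := cnt1 (h := fun x (g : G) => g.1 x) (by fun_prop)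
      (Skc (J := {univ}) (fun _ => ⟨_, rfl, trivial⟩) ⟨fun _ => univ, fun _ _ _ => ⟨0, trivial,
        fun p _ h0 => ((g1 p.1 p.2 h0).preimage Subtype.val_injective.injOn).subset
          fun g hg => ⟨g.2, hg.2⟩⟩⟩) (hq.mem_closure_of_mem _ range_mem_map)
    choose! i hi using fun c (hc : c ∈ C) => C1 hc
    obtain ⟨b, hb⟩ := bdd (C2.image i)
    have z3 : z ∈ A' := mem_iUnion.2 ⟨b, closure_mono (t := _ '' _)
      (fun c hc => ⟨i c, hb _ ⟨c, hc, rfl⟩, hi c hc⟩) z1⟩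
    exact Ultrafilter.compl_mem_iff_notMem.1 ((U2 _ _).2 ⟨G, g1, fun x hx e => mem_iInter.1 (g2 x hx
      fun g hg => (e g hg).trans (congrFun z2 ⟨g, hg⟩)) ⟨z, z3⟩⟩) (B1 ⟨z, z3⟩)

theorem pcS : S = univ := by
  classical
  refine eq_univ_of_forall fun p => by_contra fun hp => ?_
  have hS : S ∈ U p := (U2 _ _).2 ⟨∅, fun _ _ _ => by simp, fun _ e _ => e⟩
  obtain ⟨κ, k1, k2⟩ := (wellFounded_lt (α := Cardinal)).has_min {c | ¬ Cp (U p) c} ⟨#K, fun e => by
    obtain ⟨x, hx⟩ := (U p).nonempty_of_mem (e K le_rfl (fun x => {x}ᶜ) fun x => by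
      by_cases k : x = p
      · exact mem_of_superset hS fun y hy e => hp (k ▸ (show y = x from e) ▸ hy)
      · obtain ⟨B, -, b1, b2⟩ := usp U2 x p k
        exact mem_of_superset b2 (compl_subset_compl.2 (singleton_subset_iff.2 b1)))
    exact mem_iInter.1 hx x rfl⟩
  simp only [mem_ofPred_eq, Cp, not_forall] at k1
  obtain ⟨ι, hι, s, hs, hn⟩ := k1
  obtain ⟨_, _, ho⟩ := Cardinal.exists_ord_eq_type_lt ι
  have b : ∀ i, s i ∩ ⋂ j : Iio i, s j ∈ U p := fun i => inter_mem (hs i) (not_not.1 (fun e =>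
    k2 _ e ((Cardinal.mk_Iio_lt i ho).trans_le hι)) _ le_rfl _ fun j => hs _)
  choose G g1 g2 using fun i => (U2 _ _).1 (b i)
  have b' : ∀ i x, x ∈ s i ∩ ⋂ j : Iio i, s j → ∀ j ≤ i, x ∈ s j := fun i x e j hj =>
    hj.eq_or_lt.elim (· ▸ e.1) fun k => mem_iInter.1 e.2 ⟨j, k⟩
  rw [← Ultrafilter.compl_mem_iff_notMem, compl_iInter] at hn
  have : Nonempty ι := ⟨(mem_iUnion.1 ((U p).nonempty_of_mem hn).some_mem).choose⟩
  choose! t ht using fun x (e : x ∈ ⋃ i, (s i)ᶜ) => mem_iUnion.1 e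
  have c : Cp ((U p).map t) ℵ₀ := fun ι hι s hs => by
    rw [Ultrafilter.mem_map, preimage_iInter]
    exact U1 p ι hι _ hs
  obtain ⟨x, ⟨x1, x2⟩, x3⟩ := (U p).nonempty_of_mem (inter_mem (inter_mem hn hS) ((U2 _ {x | ∀ φ ∈
    {φ : C(K, ℝ) | ∃ g : ι → C(K, ℝ), {i | g i ∈ G i} ∈ (U p).map t ∧ ∀ z,
      {i | g i z = φ z} ∈ (U p).map t}, φ x = φ p}).2 ⟨_, fun z ε h0 => by_contra fun e => by
        let j := Set.Infinite.natEmbedding _ e
        choose g a1 a2 using fun n => (j n).2.1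
        have : ∀ c : ℕ × ℕ, ∃ w, (j c.1).1 w = (j c.2).1 w → c.1 = c.2 := fun c =>
          by_contra fun k => by
            push Not at k
            exact (k z).2 (j.injective (Subtype.ext (ContinuousMap.ext fun w => (k w).1)))
        choose w hw using this
        obtain ⟨i, i1, i2, i3⟩ := Ultrafilter.nonempty_of_mem (inter_mem (c ℕ (by simp) _ a1)
          (inter_mem (c ℕ (by simp) _ fun n => a2 n z) (c (ℕ × ℕ × ℕ) (by simp) _
            fun n => a2 n.1 (w n.2))))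
        simp only [mem_iInter, mem_ofPred_eq] at i1 i2 i3
        exact infinite_of_injective_forall_mem (f := fun n => g n i) (fun a b k => hw (a, b)
          ((i3 (a, a, b)).symm.trans ((DFunLike.congr_fun k _).trans (i3 (b, a, b)))))
          (fun n => And.intro (i1 n) (i2 n ▸ (j n).2.2)) (g1 i z ε h0),
        fun _ _ e => e⟩))
  have : ∀ i, ∃ g : C(K, ℝ), t x ≤ i → g ∈ G i ∧ g x ≠ g p := fun i => by
    by_cases e : t x ≤ i
    · obtain ⟨g, hg⟩ := not_forall.1 fun k => ht x x1 (b' i x (g2 i x x2 k) _ e)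
      exact ⟨g, fun _ => Classical.not_imp.1 hg⟩
    · exact ⟨0, fun k => absurd k e⟩
  choose g hg using this
  obtain ⟨φ, hφ⟩ := ulim (tiK U1 U2) c g
  have e : Ici (t x) ∈ (U p).map t := Ultrafilter.mem_map.2 <| Ultrafilter.mem_coe.1 <|
    mem_of_superset (inter_mem hn (b (t x))) fun y hy =>
    le_of_not_ge fun k => ht y hy.1 (b' _ y hy.2 _ k)
  obtain ⟨i, i1, i2, i3⟩ := Ultrafilter.nonempty_of_mem (inter_mem e (inter_mem (hφ x) (hφ p)))
  exact (hg i i1).2 (Eq.trans i2 ((x3 φ ⟨g, mem_of_superset e fun i hi => (hg i hi).1, hφ⟩).trans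
    (Eq.symm i3)))

end Pool.Agent.H.MP_e9bccb
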