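import Pool.Agent.H.MP_e9bccb.K
import Pool.Agent.H.MP_e9bccb.L
import Pool.Agent.H.MP_8a2df8_gt.A

set_option autoImplicit false
open Set Filter Topology TopologicalSpace

namespace Pool.Agent.H.MP_e9bccb

open Pool.Agent.H.MP_eb6644 (Y)
open Pool.Agent.H.MP_526336 (dcnt)

variable {X Γ : Type} [TopologicalSpace X] [CompactSpace X] [T2Space X] {h : X → Γ → ℝ}

theorem inv (hc : Continuous h) (hi : Function.Injective h) (hs : ∀ x, {θ | h x θ ≠ 0}.Countable)
    {B : ℕ → Set (X → ℝ)} (b1 : ∀ n, IsCompact (B n)) (b2 : ∀ n, ∀ g ∈ B n, Continuous g) :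
    ∃ (F : List Γ → Set Γ) (R : Set Γ → X → X), (∀ l, (F l).Countable) ∧ ∀ T, Cl F T →
      (∀ x, h (R T x) = T.indicator (h x)) ∧ ∀ n, ∀ g ∈ B n, g ∘ R T ∈ B n := by
  obtain ⟨F, R, F1, hR⟩ := str hc hi hs continuous_id
  obtain ⟨D, -, D2, D3⟩ := apx hc univ
  have := fun n => isCompact_iff_compactSpace.1 (b1 n)
  choose E _ E2 E3 using fun n => apx (h := fun (g : B n) x => g.1 x) (by fun_prop) univ
  choose d d1 d2 using fun n (g : B n) => dcnt hc hi (b2 n g g.2)
  refine ⟨fun l => F l ∪ ((⋃ x ∈ D l, {θ | h x θ ≠ 0}) ∪ ⋃ n,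
    ⋃ m ∈ Ls (⋃ l' ∈ Ls {γ | γ ∈ l}, D l'), ⋃ g ∈ E n m, d n g), R, fun l => (F1 l).union
      (((D2 l).biUnion fun x _ => hs x).union (countable_iUnion fun n => Countable.biUnion ?_
        fun m _ => (E2 n m).biUnion fun g _ => d1 n g)), fun T hT => ?_⟩
  · have k : ∀ {Z : Type} {s : Set Z}, s.Countable → (Ls s).Countable := fun e =>
      Cardinal.le_aleph0_iff_set_countable.1 (cL le_rfl (cC le_rfl e))
    exact k ((k (List.finite_toSet l).countable).biUnion fun l' _ => D2 l')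
  have r := (hR T fun l hl => subset_union_left.trans (hT l hl)).1
  refine ⟨r, fun n g hg => ?_⟩
  obtain ⟨u, u1, u2⟩ := E3 n (⋃ l ∈ Ls T, D l) ⟨g, hg⟩ (by simp)
  have k : ∀ m ∈ Ls (⋃ l ∈ Ls T, D l), ∃ l ∈ Ls T, m ∈ Ls (⋃ l' ∈ Ls {γ | γ ∈ l}, D l') := by
    intro m hm
    induction m with
    | nil => exact ⟨[], by simp [Ls], by simp [Ls]⟩
    | cons x m ih =>
      obtain ⟨l, l1, l2⟩ := ih fun y hy => hm y (List.mem_cons_of_mem _ hy)
      obtain ⟨l', a1, a2⟩ := mem_iUnion₂.1 (hm x List.mem_cons_self)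
      refine ⟨l' ++ l, fun γ e => (List.mem_append.1 e).elim (a1 γ) (l1 γ), fun y hy => ?_⟩
      rcases List.mem_cons.1 hy with rfl | e
      · exact mem_iUnion₂.2 ⟨l', fun γ e => List.mem_append_left _ e, a2⟩
      · exact biUnion_subset_biUnion_left (Lm fun γ e => List.mem_append_right _ e) (l2 y e)
  convert u.2 using 1
  funext x
  obtain ⟨q, q1, q2⟩ := D3 T x (by simp)
  have e : R T x = q := hi (funext fun θ => by
    rw [r]
    by_cases e : θ ∈ T
    · rw [indicator_of_mem e, q2 θ e]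
    · rw [indicator_of_notMem e]
      refine (van hc (fun y hy => not_not.1 fun k => e ?_) q1).symm
      obtain ⟨l, l1, l2⟩ := mem_iUnion₂.1 hy
      exact hT l l1 (Or.inr (Or.inl (mem_iUnion₂.2 ⟨y, l2, k⟩))))
  refine ((EqOn.closure u2 (b2 n _ u.2) (b2 n g hg)) (e ▸ q1)).symm.trans (closure_minimal
    (t := {u : B n | u.1 (R T x) = u.1 x}) (fun v hv => ?_) (isClosed_eq ((continuous_apply _).comp
      continuous_subtype_val) ((continuous_apply _).comp continuous_subtype_val)) u1)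
  obtain ⟨m, m1, m2⟩ := mem_iUnion₂.1 hv
  obtain ⟨l, l1, l2⟩ := k m m1
  exact d2 n v _ _ fun θ hθ => by
    rw [r, indicator_of_mem (hT l l1 (Or.inr (Or.inr (mem_iUnion.2 ⟨n, mem_iUnion₂.2
      ⟨m, l2, mem_iUnion₂.2 ⟨v, m2, hθ⟩⟩⟩))))]

theorem al {B : ℕ → Set (X → ℝ)} (b1 : ∀ n, IsCompact (B n)) (b2 : ∀ n, ∀ g ∈ B n, Continuous g)
    (b3 : ∀ x y, (∀ n, ∀ g ∈ B n, g x = g y) → x = y) : Eb X := by
  classical
  obtain ⟨Γ, h, e1, hs⟩ := guC (X := X) (lsC (LS.un fun n => LS.cpt (b1 n)) (fun f hf =>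
    (mem_iUnion.1 hf).elim fun n => b2 n f) fun x y k => b3 x y fun n g hg =>
      k g (mem_iUnion.2 ⟨n, hg⟩))
  have hc := e1.continuous
  have hi := e1.injective
  obtain ⟨F, R, F1, hR⟩ := inv hc hi hs b1 b2
  let C : ℕ → ℕ → Set (X → ℝ) := fun n k => (fun A => image2 (· - ·) A A)^[k] (B n)
  have c0 : ∀ n k, C n (k + 1) = image2 (· - ·) (C n k) (C n k) := fun n k =>
    Function.iterate_succ_apply' _ _ _
  have c1 : ∀ n k, IsCompact (C n k) ∧ ∀ g ∈ C n k, Continuous g ∧ ∀ T, Cl F T →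
      g ∘ R T ∈ C n k := fun n k => by
    induction k with
    | zero => exact ⟨b1 n, fun g hg => ⟨b2 n g hg, fun T hT => (hR T hT).2 n g hg⟩⟩
    | succ k ih =>
      rw [c0]
      refine ⟨image_prod (f := fun a b : X → ℝ => a - b) ▸ (ih.1.prod ih.1).image (by fun_prop), ?_⟩
      rintro _ ⟨a, ha, b, hb, rfl⟩
      exact ⟨(ih.2 a ha).1.sub (ih.2 b hb).1, fun T hT => ⟨_, (ih.2 a ha).2 T hT, _,
        (ih.2 b hb).2 T hT, rfl⟩⟩
  let ρ : ∀ T, Cl F T → C(X, X) := fun T hT => ⟨_, Rc hc hi (hR T hT).1⟩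
  have rr : ∀ {S T} (_ : Cl F S) (_ : Cl F T), S ⊆ T → ∀ x, R S (R T x) = R S x ∧
      R T (R S x) = R S x := fun a b e x => ⟨hi (by
    rw [(hR _ a).1, (hR _ a).1, (hR _ b).1, indicator_indicator, inter_eq_left.2 e]),
    RI hi ((hR _ b).1 _) (Ym e (RY ((hR _ a).1 x)))⟩
  obtain ⟨G, -, G1, G2⟩ := ind2 F1 (fun T => ∃ G : ℕ × ℕ × ℕ → Set C(X, ℝ),
    (∀ c, ∀ g ∈ G c, ⇑g ∈ C c.1 c.2.1) ∧ (∀ c, EM (G c)) ∧ Sp (⋃ l, G l) (Y h T)) (fun T hT => by
      have := MP_eb6644.Ys hc hi hT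
      obtain ⟨G, G1, G2⟩ := isOpen_iUnion_countable (fun g : Σ n, B n =>
        {p : Y h T × Y h T | g.2.1 p.1 ≠ g.2.1 p.2}) fun g => by
          have := b2 _ _ g.2.2
          exact isOpen_ne_fun (by fun_prop) (by fun_prop)
      obtain ⟨f, hf⟩ := countable_iff_exists_injOn.1 G1
      let φ : (Σ n, B n) → C(X, ℝ) := fun g => ⟨g.2.1, b2 _ _ g.2.2⟩
      refine ⟨fun c => φ '' {g ∈ G | (g.1, 0, f g) = c}, ?_, fun c z ε _ =>
        ((Subsingleton.finite fun a ha b hb => hf ha.1 hb.1 (congrArg (·.2.2)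
          (ha.2.trans hb.2.symm))).image φ).subset fun _ e => e.1, fun x hx y hy e =>
            b3 x y fun n g hg => not_not.1 fun k => ?_⟩
      · rintro _ _ ⟨g, ⟨-, rfl⟩, rfl⟩
        exact g.2.2
      · obtain ⟨u, u1, u2⟩ := mem_iUnion₂.1 (G2.symm ▸ mem_iUnion.2 ⟨⟨n, g, hg⟩, k⟩ :
          (⟨x, hx⟩, ⟨y, hy⟩) ∈ ⋃ g ∈ G, {p : Y h T × Y h T | g.2.1 p.1 ≠ g.2.1 p.2})
        exact u2 (e (φ u) (mem_iUnion.2 ⟨_, u, ⟨u1, rfl⟩, rfl⟩))) (fun W _ _ _ T m c P => by
      choose G G0 G1 G2 using P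
      have mm : ∀ a, ⋃ b ∈ Iio a, T b ⊆ T a := fun a => iUnion₂_subset fun b hb => m (le_of_lt hb)
      obtain ⟨a0, -, h0⟩ := (wellFounded_lt (α := W)).has_min univ univ_nonempty
      let u : (a : W) → (Iio a).Nonempty → C(X, ℝ) → C(X, ℝ) := fun a e g =>
        g.comp (ρ _ (c a)) - g.comp (ρ _ (ClU m c e))
      have u1 : ∀ n k j a e, ∀ g ∈ G a (n, k, j), ⇑(u a e g) ∈ C n (k + 1) := fun n k j a e g hg =>
        c0 n k ▸ ⟨_, ((c1 n k).2 _ (G0 a _ g hg)).2 _ (c a), _,
          ((c1 n k).2 _ (G0 a _ g hg)).2 _ (ClU m c e), rfl⟩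
      refine ⟨fun l => (fun g => g.comp (ρ _ (c a0))) '' G a0 l ∪ l.2.1.casesOn ∅ fun k =>
        ⋃ a, ⋃ e, u a e '' G a (l.1, k, l.2.2), ?_, ?_, ?_⟩
      · rintro ⟨n, k, j⟩ _ (⟨g, hg, rfl⟩ | hg)
        · exact ((c1 n k).2 _ (G0 _ _ g hg)).2 _ (c a0)
        · cases k
          · exact hg.elim
          · obtain ⟨a, e, g, g1, rfl⟩ := mem_iUnion₂.1 hg
            exact u1 _ _ _ a e g g1
      · rintro ⟨n, _ | k, j⟩ x ε e0
        · exact ((G1 a0 _ (ρ _ (c a0) x) ε e0).image fun g => g.comp (ρ _ (c a0))).subset (by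
            rintro _ ⟨⟨g, hg, rfl⟩ | hg, k⟩
            · exact ⟨g, ⟨hg, k⟩, rfl⟩
            · exact hg.elim)
        let I := {a | ∃ e, ∃ g ∈ G a (n, k, j), ε ≤ |u a e g x|}
        have hI : I.Finite := by_contra fun hn => by
          let J := {b | (I ∩ Iic b).Finite}
          have hJ : (I ∩ J).Infinite := fun e => by
            obtain ⟨b, b1, b2⟩ := (wellFounded_lt (α := W)).has_min (I \ J) (by
              rw [nonempty_iff_ne_empty, Ne, sdiff_eq_empty]
              exact fun k => hn (e.subset (subset_inter le_rfl k)))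
            exact b1.2 ((e.insert b).subset fun a ha => (le_iff_eq_or_lt.1 ha.2).imp id fun k =>
              And.intro ha.1 (by_contra fun k' => b2 a ⟨ha.1, k'⟩ k))
          have := cofinite_inf_principal_neBot_iff.2 hJ
          obtain ⟨U, hU⟩ := Ultrafilter.exists_le (cofinite ⊓ 𝓟 (I ∩ J))
          have U1 : I ∩ J ∈ U := le_principal_iff.1 (hU.trans inf_le_right)
          have : ∀ a, ∃ w : X → ℝ, a ∈ I → ∃ e, ∃ g ∈ G a (n, k, j), ε ≤ |u a e g x| ∧
              w = u a e g := fun a => by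
            by_cases e : a ∈ I
            · obtain ⟨e, g, g1, g2⟩ := e
              exact ⟨_, fun _ => ⟨e, g, g1, g2, rfl⟩⟩
            · exact ⟨0, fun k => absurd k e⟩
          choose w hw using this
          obtain ⟨v, v1, v2⟩ := isCompact_iff_ultrafilter_le_nhds'.1 (c1 n (k + 1)).1 (U.map w)
            (Ultrafilter.mem_map.2 (Ultrafilter.mem_coe.1 (mem_of_superset U1 fun a ha =>
              let ⟨e, g, g1, _, g3⟩ := hw a ha.1
              mem_of_eq_of_mem (s := C n (k + 1)) g3 (u1 _ _ _ a e g g1))))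
          have v3 := ((c1 _ _).2 v v1).1
          have v4 : ∀ C : Set (X → ℝ), IsClosed C → (∀ᶠ a in U, w a ∈ C) → v ∈ C := fun C hC =>
            hC.mem_of_tendsto (f := w) v2
          obtain ⟨b, hb⟩ := hJ.nonempty
          have eJ := ClU m c (I := J) ⟨b, hb.2⟩
          have v5 : ∀ b ∈ J, ∀ y, v (R (T b) y) = 0 := fun b hb y => v4 {f | f (R (T b) y) = 0}
            (isClosed_eq (by fun_prop) continuous_const) (mem_of_superset (inter_mem U1
              ((hU.trans inf_le_left) (Finite.compl_mem_cofinite hb))) fun a ha => by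
              obtain ⟨e, g, -, -, g3⟩ := hw a ha.1.1
              have k : b < a := not_le.1 fun k => ha.2 ⟨ha.1.1, k⟩
              change w a _ = 0
              rw [g3]
              exact sub_eq_zero.2 (congrArg g (((rr (c b) (c a) (m k.le) y).2).trans
                (rr (c b) (ClU m c e) (subset_biUnion_of_mem (u := T) k) y).2.symm)))
          have v6 : v (R (⋃ b ∈ J, T b) x) = v x := v4 {f | f (R (⋃ b ∈ J, T b) x) = f x}
            (isClosed_eq (by fun_prop) (by fun_prop)) (mem_of_superset U1 fun a ha => by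
              obtain ⟨e, g, -, -, g3⟩ := hw a ha.1
              have k := subset_biUnion_of_mem (u := T) ha.2
              change w a _ = w a _
              rw [g3]
              exact congrArg₂ (fun s t => g s - g t) (rr (c a) eJ k x).1
                (rr (ClU m c e) eJ ((mm a).trans k) x).1)
          have v7 : ε ≤ |v x| := v4 {f | ε ≤ |f x|} (isClosed_le continuous_const (by fun_prop))
            (mem_of_superset U1 fun a ha => by
              obtain ⟨e, g, -, g2, g3⟩ := hw a ha.1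
              exact g2.trans_eq (congrArg (|· x|) g3.symm))
          rw [← v6, lim hc hi v3 m ⟨b, hb.2⟩ (fun a => (hR _ (c a)).1 x)
            (fun a => (hR _ (c a)).1 (R (T b) x)) ((hR _ eJ).1 x) ((hR _ eJ).1 _) fun a ha =>
              (v5 a ha _).trans (v5 a ha _).symm,
            (rr (c b) eJ (subset_biUnion_of_mem (u := T) hb.2) x).2, v5 b hb.2, abs_zero] at v7
          exact e0.not_ge v7
        refine (((G1 a0 (n, k + 1, j) (ρ _ (c a0) x) ε e0).image fun g => g.comp (ρ _ (c a0))).union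
          (hI.biUnion fun a _ => finite_iUnion fun e => ((G1 a (n, k, j) (ρ _ (c a) x) _
            (half_pos e0)).union (G1 a (n, k, j) (ρ _ (ClU m c e) x) _ (half_pos e0))).image
              (u a e))).subset ?_
        rintro _ ⟨⟨g, hg, rfl⟩ | hg, k⟩
        · exact Or.inl ⟨g, ⟨hg, k⟩, rfl⟩
        obtain ⟨a, e, g, g1, rfl⟩ := mem_iUnion₂.1 hg
        refine Or.inr (mem_iUnion₂.2 ⟨a, ⟨e, g, g1, k⟩, mem_iUnion.2 ⟨e, g, by_contra fun hn => ?_,
          rfl⟩⟩)
        simp only [mem_union, mem_ofPred_eq, g1, true_and, not_or, not_le] at hn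
        have k : ε ≤ |g (ρ _ (c a) x) - g (ρ _ (ClU m c e) x)| := k
        linarith [abs_sub (g (ρ _ (c a) x)) (g (ρ _ (ClU m c e) x))]
      · intro x hx y hy k
        have k1 : ∀ a, R (T a) x = R (T a) y := fun a => by
          induction a using WellFoundedLT.induction with
          | ind a ih =>
            refine G2 a _ (RY ((hR _ (c a)).1 x)) _ (RY ((hR _ (c a)).1 y)) fun g hg => ?_
            obtain ⟨l, hl⟩ := mem_iUnion.1 hg
            by_cases e : (Iio a).Nonempty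
            · have e2 := lim hc hi continuous_id m e (fun a => (hR _ (c a)).1 x)
                (fun a => (hR _ (c a)).1 y) ((hR _ (ClU m c e)).1 x) ((hR _ (ClU m c e)).1 y) ih
              exact sub_left_injective ((k (u a e g) (mem_iUnion.2 ⟨(l.1, l.2.1 + 1, l.2.2), Or.inr
                (mem_iUnion₂.2 ⟨a, e, g, hl, rfl⟩)⟩)).trans (congrArg (fun z => g _ - g z) e2.symm))
            · obtain rfl : a = a0 :=
                le_antisymm (not_lt.1 fun h => e ⟨_, h⟩) (not_lt.1 (h0 a trivial))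
              exact k _ (mem_iUnion.2 ⟨l, Or.inl ⟨g, hl, rfl⟩⟩)
        have e := ClU m c univ_nonempty
        rw [← biUnion_univ] at hx hy
        rw [← RI hi ((hR _ e).1 x) hx, ← RI hi ((hR _ e).1 y) hy]
        exact lim hc hi continuous_id m univ_nonempty (fun a => (hR _ (c a)).1 x)
          (fun a => (hR _ (c a)).1 y) ((hR _ e).1 x) ((hR _ e).1 y) fun b _ => k1 b) univ
            fun _ _ => subset_univ _
  have e : ∀ z, z ∈ Y h univ := fun x θ hθ => absurd trivial hθ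
  exact skE (f := fun z (g : ⋃ l, G l) => sg (g.1 z)) (by fun_prop) (fun x y k => G2 x (e x) y (e y)
    fun g hg => sg3 (congrFun k ⟨g, hg⟩)) (fun _ _ => sg1 _) (Skm (fun l => {g | g.1 ∈ G l})
      fun P _ g => (mem_iUnion.1 g.2).imp fun l hl => ⟨hl, fun p _ h0 => ((G1 l p.1 _ h0).preimage
        Subtype.val_injective.injOn).subset fun g hg => And.intro hg.1 (hg.2.trans (sg2 _))⟩)

omit [CompactSpace X] [T2Space X] in
theorem gro (hX : ∀ a : ℕ → X, ∃ x, MapClusterPt x atTop a) {B : ℕ → Set (X → ℝ)}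
    (b0 : ∀ n, (B n).Nonempty) (b1 : ∀ n, IsCompact (B n)) (b2 : ∀ n, ∀ g ∈ B n, ∀ C : Set X,
      C.Countable → ∃ f, Continuous f ∧ EqOn g f C) (U : Ultrafilter X) :
    ∃ x, ∀ n, ∀ g ∈ B n, Tendsto g U (𝓝 (g x)) := by
  classical
  have := fun n => isCompact_iff_compactSpace.1 (b1 n)
  let j : X → MP_8a2df8_gt.Cp (ℕ × ∀ n, B n) := fun x => ⟨fun p => (p.2 p.1).1 x,
    continuous_prod_of_discrete_left.2 fun n =>
      show Continuous fun q : ∀ n, B n => (q n).1 x from (continuous_apply x).comp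
        (continuous_subtype_val.comp (continuous_apply n))⟩
  have := MP_8a2df8_gt.prod_compact (X := ℕ) (fun Z A hA => MP_8a2df8_gt.finish
    (MP_8a2df8_gt.cluster hA) fun g hg => by
      obtain ⟨s, s1, s2⟩ := mem_closure_iff_seq_limit.1 hg
      choose a a1 a2 using s1
      obtain ⟨z, hz⟩ := MP_8a2df8_gt.cluster hA a a1
      exact ⟨z, eq_of_nhds_neBot ((hz.continuousAt_comp (f := fun f : Z => f.1.1)
        (by fun_prop)).clusterPt.mono (s2.congr fun n => (a2 n).symm))⟩) (range j) univ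
    (MP_8a2df8_gt.acc_of_cluster fun s _ => by
      choose a ha using fun n => (s n).2
      obtain ⟨x, hx⟩ := hX a
      obtain ⟨V, V1, V2⟩ := mapClusterPt_iff_ultrafilter.1 hx
      refine ⟨⟨j x, x, rfl⟩, mapClusterPt_iff_ultrafilter.2 ⟨V, V1, tendsto_subtype_rng.2
        (tendsto_subtype_rng.2 (tendsto_pi_nhds.2 fun p => ?_))⟩⟩
      obtain ⟨f, f1, f2⟩ := b2 _ _ (p.2 p.1).2 _ ((countable_range a).insert x)
      refine (f2 (Or.inl rfl)).symm ▸ ((f1.tendsto x).comp V2).congr fun n => ?_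
      rw [← ha n]
      exact (f2 (Or.inr ⟨n, rfl⟩)).symm)
  obtain ⟨⟨_, x, rfl⟩, -, e⟩ := isCompact_iff_ultrafilter_le_nhds'.1 this
    (U.map (rangeFactorization j)) (by rw [closure_univ]; exact univ_mem)
  refine ⟨x, fun n g hg => ?_⟩
  simpa [j] using tendsto_pi_nhds.1 (tendsto_subtype_rng.1 (tendsto_subtype_rng.1
    (show Tendsto (rangeFactorization j) U _ from e))) (n, Function.update
      (fun n => ⟨_, (b0 n).some_mem⟩) n ⟨g, hg⟩)

omit [CompactSpace X] [T2Space X] in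
theorem bnd {Z : Type} [TopologicalSpace Z] {e : X → Z → ℝ} (he : Continuous e)
    (hc : ∀ x, Continuous (e x)) {A : Set X}
    (hA : ∀ f : X → ℝ, Continuous f → ∃ C : ℝ, ∀ x ∈ A, |f x| ≤ C) : IsCompact (closure (e '' A)) ∧
      ∀ g ∈ closure (e '' A), ∀ C : Set Z, C.Countable → ∃ f, Continuous f ∧ EqOn g f C := by
  choose M hM using fun z => hA _ ((continuous_apply z).comp he)
  refine ⟨(isCompact_univ_pi fun z => isCompact_Icc (a := -M z) (b := M z)).closure_of_subset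
    (image_subset_iff.2 fun x hx z _ => abs_le.1 (hM z x hx)), fun g hg C hC => by_contra fun hn => ?_⟩
  have := hC.to_subtype
  let := metrizableSpaceMetric (C → ℝ)
  have c : Continuous fun f : Z → ℝ => Dist.dist (C.domRestrict f) (C.domRestrict g) :=
    (Pi.continuous_domRestrict _).dist continuous_const
  have p : ∀ x, 0 < Dist.dist (C.domRestrict (e x)) (C.domRestrict g) := fun x => dist_pos.2 fun k =>
    hn ⟨_, hc x, fun z hz => (congrFun k ⟨z, hz⟩).symm⟩
  obtain ⟨m, hm⟩ := hA _ ((c.comp he).inv₀ fun x => (p x).ne')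
  have := closure_minimal (t := {f | 1 ≤ m * Dist.dist (C.domRestrict f) (C.domRestrict g)})
    (image_subset_iff.2 fun x hx => (inv_le_iff_one_le_mul₀ (p x)).1 ((le_abs_self _).trans
      (hm x hx))) (isClosed_le continuous_const (continuous_const.mul c)) hg
  norm_num at this

end Pool.Agent.H.MP_e9bccb
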