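import Pool.Agent.H.MP_e9bccb.K

set_option autoImplicit false
open Set Filter Topology TopologicalSpace

namespace Pool.Agent.H.MP_e9bccb

open Pool.Agent.H.MP_eb6644 (Y)
open Pool.Agent.H.MP_526336 (dcnt)

variable {X Γ Λ : Type}

def FL (A : Λ → Filter Λ) : List Λ → Filter (List Λ)
  | [] => pure []
  | a :: l => map₂ List.cons (A a) (FL A l)

def CB (A : Λ → Filter Λ) : Prop := ∃ N : ℕ → Set Λ, ∀ a, ∀ U ∈ A a, ∃ n, a ∈ N n ∧ N n ⊆ U

theorem CB.fl {A : Λ → Filter Λ} (h : CB A) : CB (FL A) := by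
  obtain ⟨N, hN⟩ := h
  obtain ⟨s, hs⟩ := exists_surjective_nat (List ℕ)
  refine ⟨fun n => {l | List.Forall₂ (fun i a => a ∈ N i) (s n) l}, fun l U hU => (hs.exists
    (p := fun c => l ∈ {l | List.Forall₂ (fun i a => a ∈ N i) c l} ∧
      {l | List.Forall₂ (fun i a => a ∈ N i) c l} ⊆ U)).1 ?_⟩
  induction l generalizing U with
  | nil => exact ⟨[], .nil, fun l hl => List.forall₂_nil_left_iff.1 hl ▸ hU⟩
  | cons a l ih =>
    obtain ⟨V, V1, W, W1, e⟩ := mem_map₂_iff.1 hU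
    obtain ⟨n, n1, n2⟩ := hN a V V1
    obtain ⟨c, c1, c2⟩ := ih W W1
    refine ⟨n :: c, .cons n1 c1, fun l' hl => ?_⟩
    obtain ⟨b, t, b1, b2, rfl⟩ := List.forall₂_cons_left_iff.1 hl
    exact e ⟨b, n2 b1, t, c2 b2, rfl⟩

theorem fin2 {α β γ : Type} {A : Filter α} {B : Filter β} {p : α → Prop} {q : α → β → Prop}
    (f : α → β → γ) {r : γ → Prop} (hr : ∀ a b, r (f a b) → p a ∧ q a b)
    (h1 : ∃ U ∈ A, {a ∈ U | p a}.Finite) (h2 : ∀ a, ∃ V ∈ B, {b ∈ V | q a b}.Finite) :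
    ∃ U ∈ map₂ f A B, {c ∈ U | r c}.Finite := by
  obtain ⟨U, U1, U2⟩ := h1
  choose V V1 V2 using h2
  refine ⟨_, image2_mem_map₂ U1 ((biInter_mem U2).2 fun a _ => V1 a), (U2.biUnion fun a _ =>
    (V2 a).image (f a)).subset ?_⟩
  rintro _ ⟨⟨a, a1, b, b1, rfl⟩, k⟩
  have := And.intro a1 (hr a b k).1
  exact mem_iUnion₂.2 ⟨a, this, b, ⟨mem_iInter₂.1 b1 a this, (hr a b k).2⟩, rfl⟩

variable [TopologicalSpace X] [CompactSpace X] [T2Space X] {h : X → Γ → ℝ}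

theorem shr {V : Λ → Set X} (h1 : ∀ i, IsOpen (V i)) (h2 : ∀ i, closure (V i) ⊆ ⋃ j, V j) :
    ∃ S : Λ → Set C(X, ℝ), (∀ i, (S i).Countable ∧ ∀ g ∈ S i, ∀ p, g p ≠ 0 → p ∈ V i) ∧
      ∀ i, ∀ p ∈ V i, ∃ j, ∃ g ∈ S j, g p ≠ 0 := by
  classical
  have : ∀ p : ⋃ j, V j, ∃ j, ∃ g : C(X, ℝ), g p ≠ 0 ∧ ∀ q, g q ≠ 0 → q ∈ V j := fun p => by
    obtain ⟨j, hj⟩ := mem_iUnion.1 p.2
    obtain ⟨g, g1, g2, -⟩ := exists_continuous_zero_one_of_isClosed (h1 j).isClosed_compl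
      (isClosed_singleton (x := p.1)) (disjoint_singleton_right.2 (not_not.2 hj))
    exact ⟨j, g, by simp [g2 rfl], fun q k => by_contra fun e => k (g1 e)⟩
  choose j g g1 g2 using this
  choose t ht using fun i => isClosed_closure.isCompact.elim_finite_subcover (s := closure (V i))
    (fun p => {q | g p q ≠ 0}) (fun p => isOpen_ne_fun (g p).continuous continuous_const)
    fun q hq => mem_iUnion.2 ⟨⟨q, h2 i hq⟩, g1 _⟩
  obtain ⟨S, S1, S2⟩ := ind2 (F := fun l => ⋃ i ∈ {i | i ∈ l}, j '' t i) (fun l =>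
    (List.finite_toSet l).countable.biUnion fun i _ => (t i).countable_toSet.image j)
    (fun T => Cl (fun l => ⋃ i ∈ {i | i ∈ l}, j '' t i) T → ∃ S : Λ → Set C(X, ℝ),
      (∀ i, (S i).Countable ∧ ∀ g ∈ S i, ∀ p, g p ≠ 0 → p ∈ V i) ∧
        ∀ i ∈ T, ∀ p ∈ V i, ∃ j ∈ T, ∃ g ∈ S j, g p ≠ 0) (fun T hT c =>
      ⟨fun i => g '' {p ∈ ⋃ i ∈ T, (t i : Set _) | j p = i}, fun i => ⟨(((hT.biUnion fun i _ =>
        (t i).countable_toSet).mono (sep_subset _ _)).image g), by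
          rintro _ ⟨p, ⟨-, rfl⟩, rfl⟩
          exact g2 p⟩, fun i hi q hq => by
        obtain ⟨p, p1, p2⟩ := mem_iUnion₂.1 (ht i (subset_closure hq))
        exact ⟨j p, c [i] (by simpa [Ls] using hi) (mem_iUnion₂.2 ⟨i, by simp, p, p1, rfl⟩), g p,
          ⟨p, ⟨mem_iUnion₂.2 ⟨i, hi, p1⟩, rfl⟩, rfl⟩, p2⟩⟩) (fun W _ _ _ T m c P _ => by
      choose S S1 S2 using fun a => P a (c a)
      have : ∀ θ, ∃ a, ∀ b, θ ∈ T b → θ ∉ ⋃ c ∈ Iio b, T c → a = b := fun θ => by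
        by_cases e : ∃ a, θ ∈ T a ∧ θ ∉ ⋃ c ∈ Iio a, T c
        · obtain ⟨a, a1, a2⟩ := e
          exact ⟨a, fun b => lev a1 a2⟩
        · exact ⟨Classical.arbitrary W, fun b b1 b2 => absurd ⟨b, b1, b2⟩ e⟩
      choose v hv using this
      refine ⟨fun i => S (v i) i, fun i => S1 _ i, fun i hi p hp => ?_⟩
      obtain ⟨a, ⟨i, i1, i2⟩, a2⟩ := (wellFounded_lt (α := W)).has_min {a | ∃ i ∈ T a, p ∈ V i}
        ((mem_iUnion.1 hi).imp fun a ha => ⟨i, ha, hp⟩)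
      obtain ⟨k, k1, f, f1, f2⟩ := S2 a i i1 p i2
      refine ⟨k, mem_iUnion.2 ⟨a, k1⟩, f, ?_, f2⟩
      rw [← hv k a k1 fun e => (mem_iUnion₂.1 e).elim fun b hb =>
        a2 b ⟨k, hb.2, (S1 a k).2 f f1 p f2⟩ hb.1] at f1
      exact f1) univ (fun _ _ => subset_univ _)
    fun _ _ => subset_univ _
  exact ⟨S, S1, fun i p hp => (S2 i trivial p hp).imp fun _ => And.right⟩

theorem inv0 (hc : Continuous h) (hi : Function.Injective h) (hs : ∀ x, {θ | h x θ ≠ 0}.Countable)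
    {E : X × X → Set Γ} (hE : ∀ p, (E p).Countable) :
    ∃ (F : List Γ → Set Γ) (R : Set Γ → X → X), (∀ l, (F l).Countable) ∧ ∀ T, Cl F T →
      (∀ x, h (R T x) = T.indicator (h x)) ∧ ∀ x y, (R T x, R T y) ∈ closure {p | E p ⊆ T} := by
  obtain ⟨F, R, F1, hR⟩ := str hc hi hs continuous_id
  obtain ⟨D, -, D2, D3⟩ := apx hc univ
  refine ⟨fun l => F l ∪ ((⋃ x ∈ D l, {θ | h x θ ≠ 0}) ∪
    ⋃ p ∈ (⋃ l' ∈ Ls {γ | γ ∈ l}, D l') ×ˢ (⋃ l' ∈ Ls {γ | γ ∈ l}, D l'), E p), R, fun l =>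
      (F1 l).union (((D2 l).biUnion fun x _ => hs x).union (Countable.biUnion ?_
        fun m _ => hE m)), fun T hT => ?_⟩
  · have := (Cardinal.le_aleph0_iff_set_countable.1 (cL le_rfl (cC le_rfl
      (List.finite_toSet l).countable))).biUnion fun l' _ => D2 l'
    exact this.prod this
  have r := (hR T fun l hl => subset_union_left.trans (hT l hl)).1
  have k : ∀ x, R T x ∈ closure (⋃ l ∈ Ls T, D l) := fun x => by
    obtain ⟨q, q1, q2⟩ := D3 T x (by simp)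
    refine mem_of_eq_of_mem (hi (funext fun θ => ?_)) q1
    rw [r]
    by_cases e : θ ∈ T
    · rw [indicator_of_mem e, q2 θ e]
    · rw [indicator_of_notMem e]
      refine (van hc (fun y hy => not_not.1 fun k => e ?_) q1).symm
      obtain ⟨l, l1, l2⟩ := mem_iUnion₂.1 hy
      exact hT l l1 (Or.inr (Or.inl (mem_iUnion₂.2 ⟨y, l2, k⟩)))
  refine ⟨r, fun x y => closure_mono (fun p hp θ hθ => ?_) (closure_prod_eq.ge ⟨k x, k y⟩)⟩
  obtain ⟨l, l1, l2⟩ := mem_iUnion₂.1 hp.1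
  obtain ⟨l', a1, a2⟩ := mem_iUnion₂.1 hp.2
  exact hT (l ++ l') (fun γ e => (List.mem_append.1 e).elim (l1 γ) (a1 γ)) (Or.inr (Or.inr
    (mem_iUnion₂.2 ⟨p, ⟨mem_iUnion₂.2 ⟨l, fun γ e => List.mem_append_left _ e, l2⟩,
      mem_iUnion₂.2 ⟨l', fun γ e => List.mem_append_right _ e, a2⟩⟩, hθ⟩)))

omit [T2Space X] in
theorem limc (hc : Continuous h) (hi : Function.Injective h) {W : Type} [LinearOrder W]
    {T : W → Set Γ} (hT : Monotone T) {I : Set W} (hI : I.Nonempty) {u : W → X} {x x' : X}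
    (hu : ∀ a, h (u a) = (T a).indicator (h x)) (hx : h x' = (⋃ b ∈ I, T b).indicator (h x))
    {C : Set X} (hC : IsClosed C) (e : ∀ a ∈ I, u a ∈ C) : x' ∈ C := by
  have := hI.to_subtype
  refine hC.mem_of_tendsto (f := fun b : I => u b) (b := atTop)
    ((hc.isClosedEmbedding hi).isInducing.tendsto_nhds_iff.2 (tendsto_pi_nhds.2 fun θ =>
      tendsto_const_nhds.congr' ?_)) (.of_forall fun b => e b b.2)
  by_cases e : θ ∈ ⋃ b ∈ I, T b
  · obtain ⟨k, k1, k2⟩ := mem_iUnion₂.1 e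
    refine (eventually_ge_atTop (⟨k, k1⟩ : I)).mono fun n hn => ?_
    simp only [Function.comp_apply, hu, hx, indicator_of_mem e, indicator_of_mem (hT hn k2)]
  · refine .of_forall fun n => ?_
    simp only [Function.comp_apply, hu, hx, indicator_of_notMem e,
      indicator_of_notMem fun k => e (mem_iUnion₂.2 ⟨n.1, n.2, k⟩)]

omit [T2Space X] in
theorem dep2 (hc : Continuous h) (hi : Function.Injective h) (f : C(X × X, ℝ)) : ∃ s : Set Γ,
    s.Countable ∧ ∀ x y x' y', (∀ θ ∈ s, h x θ = h x' θ ∧ h y θ = h y' θ) →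
      f (x, y) = f (x', y') := by
  obtain ⟨s, s1, s2⟩ := dcnt (h := fun (p : X × X) (θ : Γ × Bool) => h (bif θ.2 then p.1 else p.2) θ.1)
    (continuous_pi fun ⟨θ, b⟩ => by cases b <;> simp only [cond_true, cond_false] <;> fun_prop)
    (fun x y e => Prod.ext (hi (funext fun θ => congrFun e (θ, true)))
      (hi (funext fun θ => congrFun e (θ, false)))) f.continuous
  refine ⟨_, s1.image Prod.fst, fun x y x' y' e => s2 _ _ ?_⟩
  rintro ⟨θ, _ | _⟩ k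
  · exact (e θ ⟨_, k, rfl⟩).2
  · exact (e θ ⟨_, k, rfl⟩).1

theorem gru {ψ : Λ → C(X × X, ℝ)} (h0 : ∀ i x, ψ i (x, x) = 0) (h1 : ∀ x y, x ≠ y →
    ∃ i, ψ i (x, y) ≠ 0) {N : ℕ → Set Λ} (hN : ∀ p i, ∃ n, i ∈ N n ∧
      {j ∈ N n | ψ j p ≠ 0}.Finite) : ∃ (Γ : Type) (h : X → Γ → ℝ), Continuous h ∧
        Function.Injective h ∧ Sk (range singleton) h := by
  classical
  have pc : ∀ p, {j | ψ j p ≠ 0}.Countable := fun p => (countable_iUnion fun n => countable_iUnion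
    fun e : {j ∈ N n | ψ j p ≠ 0}.Finite => e.countable).mono fun j hj =>
      let ⟨n, n1, n2⟩ := hN p j
      mem_iUnion₂.2 ⟨n, n2, And.intro n1 hj⟩
  obtain ⟨Γ, h, e1, hs⟩ : ∃ (Γ : Type) (e : X → Γ → ℝ), IsEmbedding e ∧
      ∀ x, {θ | e x θ ≠ 0}.Countable := by
    choose d d1 d2 using fun i => dep2 (h := fun x (g : C(X, ℝ)) => g x) (by fun_prop)
      (fun x y e => spU x trivial y trivial fun g _ => congrFun e g) (ψ i)
    refine MP_5e5cb0.corson (h := fun F => ⋃ p ∈ (F : Set X) ×ˢ (F : Set X), ⋃ i ∈ {i | ψ i p ≠ 0},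
      d i) (fun F => (F.countable_toSet.prod F.countable_toSet).biUnion fun p _ => (pc p).biUnion
        fun i _ => d1 i) fun S a ha b hb e => by_contra fun k => ?_
    obtain ⟨i, hi⟩ := h1 a b k
    obtain ⟨p, p1, p2⟩ := mem_closure_iff.1 (closure_prod_eq.ge (mk_mem_prod ha hb)) _
      (isOpen_ne_fun (ψ i).continuous continuous_const) hi
    exact hi ((d2 i a b a a fun g hg => ⟨rfl, (e g (mem_iUnion₂.2 ⟨{p.1, p.2}, by
      simpa [insert_subset_iff] using p2, mem_iUnion₂.2 ⟨p, by simp, mem_iUnion₂.2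
        ⟨i, p1, hg⟩⟩⟩)).symm⟩).trans (h0 i a))
  have hc := e1.continuous
  have hi := e1.injective
  choose d d1 d2 using fun i => dep2 hc hi (ψ i)
  obtain ⟨F, R, F1, hR⟩ := inv0 hc hi hs (E := fun p => ⋃ i ∈ {i | ψ i p ≠ 0}, d i)
    fun p => (pc p).biUnion fun i _ => d1 i
  have dT : ∀ {T} (_ : Cl F T) i x y, ψ i (R T x, R T y) ≠ 0 → d i ⊆ T := fun hT i x y e => by
    obtain ⟨p, p1, p2⟩ := mem_closure_iff.1 ((hR _ hT).2 x y) _
      (isOpen_ne_fun (ψ i).continuous continuous_const) e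
    exact (subset_biUnion_of_mem (u := d) p1).trans p2
  let A : Λ → Filter Λ := fun i => ⨅ n, ⨅ _ : i ∈ N n, 𝓟 (N n)
  have cb : CB A := by
    obtain ⟨s, hs⟩ := exists_surjective_nat (Finset ℕ)
    refine ⟨fun n => ⋂ i ∈ s n, N i, fun a U hU => ?_⟩
    obtain ⟨I, I1, I2, I3⟩ := mem_biInf_principal.1 hU
    lift I to Finset ℕ using I1
    obtain ⟨n, rfl⟩ := hs I
    exact ⟨n, mem_iInter₂.2 I2, I3⟩
  have rr : ∀ {S T} (_ : Cl F S) (_ : Cl F T), S ⊆ T → ∀ x, R T (R S x) = R S x :=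
    fun a b e x => RI hi ((hR _ b).1 _) (Ym e (RY ((hR _ a).1 x)))
  obtain ⟨Φ, p1, -, p2⟩ := ind2 F1 (fun T => ∃ Φ : List (List Λ) × ℕ → C(X, ℝ),
    (∀ x ∈ Y h T, ∀ y ∈ Y h T, (∀ l, Φ l x = Φ l y) → x = y) ∧ Φ ([], 0) = 1 ∧
      ∀ l j x, ∃ U ∈ FL (FL A) l, {l' ∈ U | Φ (l', j) x ≠ 0}.Finite) (fun T hT => by
    obtain ⟨G, G1, G2⟩ := base hc hi continuous_id hT
    obtain ⟨g, hg⟩ := (G1.insert 0).exists_eq_range (insert_nonempty _ _)
    refine ⟨fun l => if l.1 = [] then (if l.2 = 0 then 1 else g (l.2 - 1)) else 0,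
      fun x hx y hy e => G2 x ⟨x, hx, rfl⟩ y ⟨y, hy, rfl⟩ fun f hf => ?_, by simp,
      fun l j x => ⟨univ, univ_mem, (finite_singleton []).subset fun l' e =>
        by_contra fun k => e.2 (by simp [show l' ≠ [] from k])⟩⟩
    obtain ⟨n, rfl⟩ : f ∈ range g := hg ▸ mem_insert_of_mem _ hf
    simpa using e ([], n + 1)) (fun W _ _ _ T m c P => by
    choose Ψ q1 q2 q3 using P
    obtain ⟨a0, -, h0'⟩ := (wellFounded_lt (α := W)).has_min univ univ_nonempty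
    have mm : ∀ a, ⋃ b ∈ Iio a, T b ⊆ T a := fun a => iUnion₂_subset fun b hb => m (le_of_lt hb)
    have : ∀ i, ∃ a, ∀ b x, (Iio b).Nonempty → ψ i (R (T b) x, R (⋃ c ∈ Iio b, T c) x) ≠ 0 →
        a = b := fun i => by
      by_cases e : ∃ b x, (Iio b).Nonempty ∧ ψ i (R (T b) x, R (⋃ c ∈ Iio b, T c) x) ≠ 0
      swap
      · exact ⟨a0, fun b x b1 b2 => absurd ⟨b, x, b1, b2⟩ e⟩
      have k : ∀ a x b y, (Iio a).Nonempty → ψ i (R (T a) x, R (⋃ c ∈ Iio a, T c) x) ≠ 0 →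
          ψ i (R (T b) y, R (⋃ c ∈ Iio b, T c) y) ≠ 0 → ¬ a < b := fun a x b y a1 a2 b2 k => by
        rw [← rr (ClU m c a1) (c a) (mm a)] at a2
        refine b2 ((d2 i _ _ _ _ fun θ hθ => ⟨?_, rfl⟩).trans (h0 i _))
        have := subset_biUnion_of_mem (u := T) (s := Iio b) k (dT (c a) i _ _ a2 hθ)
        rw [(hR _ (c b)).1, (hR _ (ClU m c ⟨a, k⟩)).1, indicator_of_mem this,
          indicator_of_mem (mm b this)]
      obtain ⟨a, x, a1, a2⟩ := e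
      exact ⟨a, fun b y b1 b2 => le_antisymm (not_lt.1 (k b y a x b1 b2 a2))
        (not_lt.1 (k a x b y a1 a2 b2))⟩
    choose v hv using this
    let r : W → C(X, X) := fun a => ⟨_, Rc hc hi (hR _ (c a)).1⟩
    let t : List Λ → W := fun L => L.casesOn a0 fun i _ => v i
    let χ : List Λ → C(X, ℝ) := fun L => L.rec 1 fun i L f =>
      (ψ i).comp ((ContinuousMap.id X).prodMk (r (t L))) * f
    have z : ∀ i u x b, (Iio b).Nonempty → (∀ a < b, ψ i (u, r a x) = 0) →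
        ψ i (u, R (⋃ c ∈ Iio b, T c) x) = 0 := fun i u x b e k =>
      limc hc hi m e (fun a => (hR _ (c a)).1 x) ((hR _ (ClU m c e)).1 x)
        (C := {y | ψ i (u, y) = 0}) (isClosed_eq (by fun_prop) continuous_const) k
    have cov : ∀ x a, (Iio a).Nonempty → r a x ≠ R (⋃ c ∈ Iio a, T c) x →
        ∃ L, t L = a ∧ χ L x ≠ 0 := fun x a => by
      induction a using WellFoundedLT.induction with
      | ind a ih =>
        intro e k
        obtain ⟨i, i1⟩ := h1 _ _ k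
        obtain ⟨b, ⟨b1, b2⟩, b3⟩ := (wellFounded_lt (α := W)).has_min
          {b | b < a ∧ ψ i (r a x, r b x) ≠ 0} (by_contra fun k => i1 (z i _ x a e fun b hb =>
            by_contra fun k' => k ⟨b, hb, k'⟩))
        obtain ⟨L, l1, l2⟩ : ∃ L, t L = b ∧ χ L x ≠ 0 := by
          by_cases e' : (Iio b).Nonempty
          · exact ih b b1 e' fun k => b2 (k ▸ z i _ x b e' fun a' ha => by_contra fun k' =>
              b3 a' ⟨ha.trans b1, k'⟩ ha)
          · exact ⟨[], le_antisymm (not_lt.1 (h0' b trivial)) (not_lt.1 fun h => e' ⟨_, h⟩),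
              one_ne_zero⟩
        refine ⟨i :: L, hv i a x e i1, mul_ne_zero (fun k => b2 (l1 ▸ (d2 i _ _ _ _ fun θ hθ =>
          ⟨?_, rfl⟩).trans k)) l2⟩
        rw [← rr (ClU m c e) (c a) (mm a)] at i1
        exact (congrFun ((hR _ (c a)).1 x) θ).trans (indicator_of_mem (dT (c a) i _ _ i1 hθ) _)
    refine ⟨fun l => l.1.casesOn 1 fun L l' => χ L * (Ψ (t L) (l', l.2)).comp (r (t L)),
      fun x hx y hy e => ?_, rfl, fun l j x => ?_⟩
    · have k : ∀ a, r a x = r a y := fun a => by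
        induction a using WellFoundedLT.induction with
        | ind a ih =>
          have e1 : ∀ L l, χ L x * Ψ (t L) l (r (t L) x) = χ L y * Ψ (t L) l (r (t L) y) :=
            fun L l => e (L :: l.1, l.2)
          have e2 : ∀ L, χ L x = χ L y := fun L => by simpa [q2] using e1 L ([], 0)
          have e3 : ∀ L, t L = a → χ L x ≠ 0 → r a x = r a y := fun L l1 l2 =>
            q1 a _ (RY ((hR _ (c a)).1 x)) _ (RY ((hR _ (c a)).1 y)) fun l =>
              mul_left_cancel₀ l2 (l1 ▸ (e1 L l).trans (by rw [e2]))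
          by_cases k : (Iio a).Nonempty
          swap
          · exact e3 [] (le_antisymm (not_lt.1 (h0' a trivial)) (not_lt.1 fun h => k ⟨_, h⟩))
              one_ne_zero
          by_contra hn
          refine hn (((not_not.1 fun e => (cov x a k e).elim fun L l => hn (e3 L l.1 l.2)).trans
            (lim hc hi continuous_id m k (fun a => (hR _ (c a)).1 x) (fun a => (hR _ (c a)).1 y)
              ((hR _ (ClU m c k)).1 x) ((hR _ (ClU m c k)).1 y) ih)).trans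
            (not_not.1 fun e => (cov y a k e).elim fun L l => hn (e3 L l.1 (e2 L ▸ l.2))).symm)
      have e := ClU m c univ_nonempty
      rw [← biUnion_univ] at hx hy
      rw [← RI hi ((hR _ e).1 x) hx, ← RI hi ((hR _ e).1 y) hy]
      exact lim hc hi continuous_id m univ_nonempty (fun a => (hR _ (c a)).1 x)
        (fun a => (hR _ (c a)).1 y) ((hR _ e).1 x) ((hR _ e).1 y) fun b _ => k b
    · cases l with
      | nil => exact ⟨{[]}, rfl, (finite_singleton _).subset fun _ e => e.1⟩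
      | cons L l =>
        refine fin2 List.cons (p := fun L => χ L x ≠ 0) (q := fun L l' =>
          Ψ (t L) (l', j) (r (t L) x) ≠ 0) (fun a b => mul_ne_zero_iff.1) ?_ fun L => q3 _ _ _ _
        induction L with
        | nil => exact ⟨{[]}, rfl, (finite_singleton _).subset fun _ e => e.1⟩
        | cons i L ih =>
          rw [FL, map₂_swap]
          refine fin2 _ (q := fun L i => ψ i (x, r (t L) x) ≠ 0)
            (fun a b e => (mul_ne_zero_iff.1 e).symm) ih fun L => ?_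
          obtain ⟨n, n1, n2⟩ := hN (x, r (t L) x) i
          exact ⟨_, mem_iInf_of_mem n (mem_iInf_of_mem n1 (mem_principal_self _)), n2⟩) univ
            fun _ _ => subset_univ _
  obtain ⟨M, hM⟩ := cb.fl.fl
  refine ⟨_, fun x l => Φ l x, by fun_prop, fun x y e => p1 x (fun θ hθ => absurd trivial hθ) y
    (fun θ hθ => absurd trivial hθ) (congrFun e), Skm (fun c : ℕ × ℕ => M c.1 ×ˢ {c.2}) ?_⟩
  rintro _ ⟨p, rfl⟩ l
  obtain ⟨U, U1, U2⟩ := p2 l.1 l.2 p.1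
  obtain ⟨n, n1, n2⟩ := hM _ U U1
  refine ⟨(n, l.2), ⟨n1, rfl⟩, ?_⟩
  rintro _ rfl e0
  refine (U2.prod (finite_singleton l.2)).subset ?_
  rintro ⟨l', j⟩ ⟨⟨a1, rfl⟩, a2⟩
  exact ⟨⟨n2 a1, abs_pos.1 (e0.trans_le a2)⟩, rfl⟩

omit [T2Space X] in
theorem hwm (hc : Continuous h) (hi : Function.Injective h) (hs : Sk (range singleton) h)
    {Q : Set (Set X)} (hQ : ∀ u ∈ Q, IsOpen u) : ∃ (ι : Type) (V : ι → Set X) (N : ℕ → Set ι),
      (∀ i, IsOpen (V i) ∧ ((V i).Nonempty → ∃ u ∈ Q, V i ⊆ u)) ∧ ⋃₀ Q ⊆ ⋃ i, V i ∧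
        ∀ x i, ∃ n, i ∈ N n ∧ {j ∈ N n | x ∈ V j}.Finite := by
  classical
  obtain ⟨N, hN⟩ := id hs
  obtain ⟨e, he⟩ := exists_surjective_nat (Finset ℕ × ℕ × List ℚ)
  let ε : ℕ → ℝ := fun j => 1 / (((e j).2.1 : ℝ) + 1)
  have e0 : ∀ j, 0 < ε j := fun j => Nat.one_div_pos_of_nat
  let K : List (Option Γ) × ℕ → Set X := fun c => {y | (∀ γ q, (some γ, q) ∈ c.1.zip (e c.2).2.2 →
    |h y γ - q| ≤ ε c.2) ∧ ∀ n ∈ (e c.2).1, ∀ γ ∈ N n, some γ ∉ c.1 → |h y γ| ≤ ε c.2}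
  have : ∀ c, ∃ u, IsOpen u ∧ (u.Nonempty → u ∈ Q) ∧ ((∃ u ∈ Q, K c ⊆ u) → K c ⊆ u) := fun c => by
    by_cases k : ∃ u ∈ Q, K c ⊆ u
    · obtain ⟨u, u1, u2⟩ := k
      exact ⟨u, hQ u u1, fun _ => u1, fun _ => u2⟩
    · exact ⟨∅, isOpen_empty, by simp, fun k' => absurd k' k⟩
  choose u u1 u2 u3 using this
  let V := fun c => u c ∩ ⋂ γ ∈ {γ | γ ∈ c.1.reduceOption}, {y | ε c.2 / 2 < |h y γ|}
  obtain ⟨M, hM⟩ := SkL hs (Φ := fun c x => if x ∈ V c then ε c.2 / 2 else 0) fun c x γ k => by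
    split_ifs with a
    · exact (abs_of_pos (half_pos (e0 _))).trans_le (le_of_lt (mem_iInter₂.1 a.2 γ
        (List.reduceOption_mem_iff.2 k)))
    · simp
  obtain ⟨s, hs⟩ := exists_surjective_nat (ℕ × ℕ)
  refine ⟨_, V, fun n => {c ∈ M (s n).1 | c.2 = (s n).2}, fun c => ⟨(u1 c).inter
    ((List.finite_toSet _).isOpen_biInter fun γ _ => isOpen_lt continuous_const (by fun_prop)),
      fun k => ⟨_, u2 c (k.mono inter_subset_left), inter_subset_left⟩⟩, ?_, fun x c => ?_⟩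
  · rintro x ⟨U, U1, U2⟩
    obtain ⟨O, O1, O2⟩ := (hc.isClosedEmbedding hi).isInducing.nhds_eq_comap x ▸
      (hQ U U1).mem_nhds U2
    rw [nhds_pi] at O1
    obtain ⟨I, t, t1, t2⟩ := mem_pi'.1 O1
    obtain ⟨k, hk⟩ := ((eventually_all_finset I).2 fun γ _ =>
      (tendsto_one_div_add_atTop_nhds_zero_nat.const_mul (2 : ℝ)).eventually
        ((eventually_closedBall_subset (t1 γ)).filter_mono (by simp)) :
        ∀ᶠ k : ℕ in atTop, ∀ γ ∈ I, Metric.closedBall (h x γ) (2 * (1 / ((k : ℝ) + 1))) ⊆ t γ).exists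
    choose n n1 n2 using hN _ ⟨(x, 1 / ((k : ℝ) + 1)), rfl⟩
    have p : (0 : ℝ) < 1 / ((k : ℝ) + 1) := Nat.one_div_pos_of_nat
    obtain ⟨B, hB⟩ := (I.finite_toSet.biUnion fun γ _ => n2 γ _ rfl p).exists_finset_coe
    have hB : ∀ θ, θ ∈ B ↔ ∃ γ ∈ I, θ ∈ N (n γ) ∧ 1 / ((k : ℝ) + 1) ≤ |h x θ| := fun θ =>
      (Set.ext_iff.1 hB θ).trans (mem_iUnion₂.trans (exists_congr fun _ => exists_prop))
    choose q hq using fun θ => exists_rat_near (h x θ) p
    obtain ⟨j, hj⟩ := he (I.image n, k, B.toList.map q)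
    refine mem_iUnion.2 ⟨(B.toList.map some, j), u3 _ ⟨U, U1, fun y hy => O2 (t2 fun γ hγ =>
      hk γ hγ ?_)⟩ ?_, mem_iInter₂.2 fun γ hγ => ?_⟩
    · simp only [K, ε, hj, List.zip_map', mem_ofPred_eq] at hy
      rw [Metric.mem_closedBall, Real.dist_eq]
      by_cases a : γ ∈ B
      · linarith [hy.1 γ (q γ) (by simpa using a), hq γ, abs_sub_le (h y γ) (q γ) (h x γ),
          abs_sub_comm (h x γ) (q γ)]
      · linarith [hy.2 _ (Finset.mem_image_of_mem n hγ) γ (n1 γ) (by simpa using a),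
          not_le.1 fun k => a ((hB γ).2 ⟨γ, hγ, n1 γ, k⟩), abs_sub (h y γ) (h x γ)]
    · simp only [K, ε, hj, List.zip_map', mem_ofPred_eq]
      refine ⟨fun γ r k => ?_, fun m hm γ a b => le_of_not_ge fun k => b ?_⟩
      · obtain ⟨θ, -, e⟩ := List.mem_map.1 k
        cases e
        exact (hq _).le
      · obtain ⟨θ, a1, rfl⟩ := Finset.mem_image.1 hm
        simpa using (hB γ).2 ⟨θ, a1, a, k⟩
    · obtain ⟨θ, -, -, k⟩ := (hB γ).1 (by simpa using List.reduceOption_mem_iff.1 hγ)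
      simp only [ε, hj, mem_ofPred_eq]
      linarith
  · obtain ⟨n, n1, n2⟩ := hM _ ⟨(x, ε c.2 / 2), rfl⟩ c
    obtain ⟨m, hm⟩ := hs (n, c.2)
    refine ⟨m, by simpa [hm] using n1, (n2 _ rfl (half_pos (e0 _))).subset fun j hj => ?_⟩
    simp only [hm, mem_ofPred_eq] at hj
    exact ⟨hj.1.1, by simp only [if_pos hj.2, hj.1.2]; exact le_abs_self _⟩

end Pool.Agent.H.MP_e9bccb
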